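import Pool.Agent.Lib.MP_b66790_nt.Defs

/-!
# Basic facts on profinite completions
-/

namespace MPb66790

open Function

section lft

variable {Γ : Type} [Group Γ]

theorem of_dense : DenseRange (of : Γ → Hat Γ) :=
  ProfiniteGrp.ProfiniteCompletion.denseRange (GrpCat.of Γ)

/-- Density induction. -/
theorem hat_induction {S : Set (Hat Γ)} (hS : IsClosed S) (h : ∀ g : Γ, of g ∈ S) (x : Hat Γ) :
    x ∈ S := by
  have h1 : closure (Set.range (of : Γ → Hat Γ)) ⊆ S :=
    closure_minimal (by rintro _ ⟨g, rfl⟩; exact h g) hS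
  exact h1 (of_dense x)

variable {G : Type} [Group G] [TopologicalSpace G] [IsTopologicalGroup G] [CompactSpace G]
  [TotallyDisconnectedSpace G]

@[simp] theorem lft_of (φ : Γ →* G) (g : Γ) : lft φ (of g) = φ g := by
  have h := ProfiniteGrp.ProfiniteCompletion.lift_eta (P := ProfiniteGrp.of G) (GrpCat.ofHom φ)
  have h2 := CategoryTheory.ConcreteCategory.congr_hom h g
  exact h2

theorem hat_ext {H : Type} [Group H] [TopologicalSpace H] [T2Space H] {φ ψ : Hat Γ →* H}
    (hφ : Continuous φ) (hψ : Continuous ψ) (h : ∀ g : Γ, φ (of g) = ψ (of g)) (x : Hat Γ) :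
    φ x = ψ x :=
  hat_induction (S := {x | φ x = ψ x}) (isClosed_eq hφ hψ) h x

theorem map_lft {H : Type} [Group H] [TopologicalSpace H] [IsTopologicalGroup H] [CompactSpace H]
    [TotallyDisconnectedSpace H] (α : G →ₜ* H) (φ : Γ →* G) (x : Hat Γ) :
    α (lft φ x) = lft (α.toMonoidHom.comp φ) x := by
  refine hat_ext (φ := α.toMonoidHom.comp (lft φ).toMonoidHom)
    (ψ := (lft (α.toMonoidHom.comp φ)).toMonoidHom)
    (α.continuous_toFun.comp (lft φ).continuous_toFun)
    (lft (α.toMonoidHom.comp φ)).continuous_toFun (fun g => ?_) x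
  show α (lft φ (of g)) = lft (α.toMonoidHom.comp φ) (of g)
  rw [lft_of, lft_of]
  rfl

end lft

section ev

variable {n : ℕ} {G : Type} [Group G] [TopologicalSpace G] [IsTopologicalGroup G] [CompactSpace G]
  [TotallyDisconnectedSpace G]

@[simp] theorem ev_gen (v : Fin n → G) (i : Fin n) : ev v (gen i) = v i := by
  simp [ev, gen]

theorem ev_hom_ext {H : Type} [Group H] [TopologicalSpace H] [T2Space H]
    {φ ψ : FHat n →* H} (hφ : Continuous φ) (hψ : Continuous ψ)
    (h : ∀ i, φ (gen i) = ψ (gen i)) (x : FHat n) : φ x = ψ x := by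
  refine hat_ext hφ hψ (fun g => ?_) x
  have h2 : φ.comp of = ψ.comp of := by
    ext i
    exact h i
  exact DFunLike.congr_fun h2 g

theorem map_ev {H : Type} [Group H] [TopologicalSpace H] [IsTopologicalGroup H] [CompactSpace H]
    [TotallyDisconnectedSpace H] (α : G →ₜ* H) (v : Fin n → G) (x : FHat n) :
    α (ev v x) = ev (fun i => α (v i)) x := by
  refine ev_hom_ext (φ := α.toMonoidHom.comp (ev v).toMonoidHom)
    (ψ := (ev (fun i => α (v i))).toMonoidHom)
    (α.continuous_toFun.comp (ev v).continuous_toFun)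
    (ev (fun i => α (v i))).continuous_toFun (fun i => ?_) x
  show α (ev v (gen i)) = ev (fun i => α (v i)) (gen i)
  rw [ev_gen, ev_gen]

theorem ev_gen_self (x : FHat n) : ev (fun i => gen i) x = x := by
  refine ev_hom_ext (φ := (ev (fun i => gen i) : FHat n →ₜ* FHat n).toMonoidHom)
    (ψ := MonoidHom.id _) (ev (fun i => gen i) : FHat n →ₜ* FHat n).continuous_toFun
    continuous_id (fun i => ?_) x
  show ev (fun i => gen i) (gen i) = gen i
  rw [ev_gen]

/-- Inner automorphisms commute with evaluation. -/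
theorem conj_ev (g : G) (v : Fin n → G) (x : FHat n) :
    g * ev v x * g⁻¹ = ev (fun i => g * v i * g⁻¹) x := by
  refine ev_hom_ext (φ := (MulAut.conj g).toMonoidHom.comp (ev v).toMonoidHom)
    (ψ := (ev (fun i => g * v i * g⁻¹)).toMonoidHom) ?_
    (ev (fun i => g * v i * g⁻¹)).continuous_toFun (fun i => ?_) x
  · exact (continuous_const.mul (ev v).continuous_toFun).mul continuous_const
  · show g * ev v (gen i) * g⁻¹ = ev (fun i => g * v i * g⁻¹) (gen i)
    rw [ev_gen, ev_gen]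

/-- An element commuting with all `v i` commutes with `ev v x`. -/
theorem commute_ev {g : G} {v : Fin n → G} (h : ∀ i, Commute g (v i)) (x : FHat n) :
    Commute g (ev v x) := by
  have h1 := conj_ev g v x
  have h2 : (fun i => g * v i * g⁻¹) = v := by
    funext i
    rw [(h i).eq, mul_inv_cancel_right]
  rw [h2] at h1
  exact (mul_inv_eq_iff_eq_mul.1 h1)

theorem ev_pow (v : Fin n → G) (x : FHat n) (a : ZHat) : ev v (pow x a) = pow (ev v x) a :=
  map_ev (ev v) _ a

theorem map_pow' {H : Type} [Group H] [TopologicalSpace H] [IsTopologicalGroup H] [CompactSpace H]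
    [TotallyDisconnectedSpace H] (α : G →ₜ* H) (g : G) (a : ZHat) : α (pow g a) = pow (α g) a :=
  map_ev α _ a

theorem pow_mul' (g : G) (a b : ZHat) : pow g (a * b) = pow g a * pow g b :=
  map_mul (ev (fun _ => g)) a b

@[simp] theorem pow_zgen (g : G) : pow g zgen = g := ev_gen _ _

theorem pow_pow (g : G) (a b : ZHat) : pow (pow g a) b = pow g (pow a b) :=
  (map_ev (ev (fun _ => g)) _ b).symm

theorem commute_pow {g h : G} (c : Commute g h) (a : ZHat) : Commute g (pow h a) :=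
  commute_ev (fun _ => c) a

theorem conj_pow' (g h : G) (a : ZHat) : g * pow h a * g⁻¹ = pow (g * h * g⁻¹) a :=
  conj_ev g _ a

@[simp] theorem one_pow' (a : ZHat) : pow (1 : G) a = 1 := by
  refine ev_hom_ext (φ := (ev (fun _ : Fin 1 => (1 : G))).toMonoidHom) (ψ := 1)
    (ev (fun _ : Fin 1 => (1 : G))).continuous_toFun continuous_const (fun i => ?_) a
  show ev (fun _ : Fin 1 => (1 : G)) (gen i) = 1
  rw [ev_gen]

end ev

section fin

variable {Γ : Type} [Group Γ] {Q : Type} [Group Q] [Finite Q]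

/-- The extension of a homomorphism to a finite group (with no topology on the target). -/
noncomputable def lftF (φ : Γ →* Q) : Hat Γ →* Q :=
  letI : TopologicalSpace Q := ⊥
  haveI : DiscreteTopology Q := ⟨rfl⟩
  (lft φ).toMonoidHom

@[simp] theorem lftF_of (φ : Γ →* Q) (g : Γ) : lftF φ (of g) = φ g := by
  let _ : TopologicalSpace Q := ⊥
  have : DiscreteTopology Q := ⟨rfl⟩
  exact lft_of φ g

theorem continuous_lftF_bot (φ : Γ →* Q) : @Continuous (Hat Γ) Q _ ⊥ (lftF φ) := by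
  let _ : TopologicalSpace Q := ⊥
  have : DiscreteTopology Q := ⟨rfl⟩
  exact (lft φ).continuous_toFun

theorem continuous_lftF [t : TopologicalSpace Q] [DiscreteTopology Q] (φ : Γ →* Q) :
    Continuous (lftF φ) := by
  have h : t = ⊥ := DiscreteTopology.eq_bot
  subst h
  exact continuous_lftF_bot φ

theorem isClopen_lftF (φ : Γ →* Q) (S : Set Q) : IsClopen (lftF φ ⁻¹' S) := by
  let _ : TopologicalSpace Q := ⊥
  have : DiscreteTopology Q := ⟨rfl⟩
  exact (isClopen_discrete S).preimage (continuous_lftF φ)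

theorem hatF_ext {φ ψ : Hat Γ →* Q} (hφ : ∀ S : Set Q, IsClosed (φ ⁻¹' S))
    (hψ : ∀ S : Set Q, IsClosed (ψ ⁻¹' S)) (h : ∀ g : Γ, φ (of g) = ψ (of g)) (x : Hat Γ) :
    φ x = ψ x := by
  let _ : TopologicalSpace Q := ⊥
  have : DiscreteTopology Q := ⟨rfl⟩
  exact hat_ext (continuous_iff_isClosed.2 fun S _ => hφ S)
    (continuous_iff_isClosed.2 fun S _ => hψ S) h x

/-- Every element of the completion acts in a finite quotient as an element of the group. -/
theorem exists_rep (φ : Γ →* Q) (x : Hat Γ) : ∃ g : Γ, lftF φ x = φ g := by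
  have h : x ∈ lftF φ ⁻¹' (Set.range φ) :=
    hat_induction (S := lftF φ ⁻¹' (Set.range φ)) (isClopen_lftF φ _).isClosed
      (fun g => ⟨g, (lftF_of φ g).symm⟩) x
  obtain ⟨g, hg⟩ := h
  exact ⟨g, hg.symm⟩

/-- Simultaneous approximation in two finite quotients. -/
theorem exists_rep₂ {Q' : Type} [Group Q'] [Finite Q'] (φ : Γ →* Q) (ψ : Γ →* Q') (x : Hat Γ) :
    ∃ g : Γ, lftF φ x = φ g ∧ lftF ψ x = ψ g := by
  refine hat_induction (S := {x : Hat Γ | ∃ g : Γ, lftF φ x = φ g ∧ lftF ψ x = ψ g}) ?_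
    (fun g => ⟨g, lftF_of φ g, lftF_of ψ g⟩) x
  have h1 : {x : Hat Γ | ∃ g : Γ, lftF φ x = φ g ∧ lftF ψ x = ψ g} =
      ⋃ p ∈ {p : Q × Q' | ∃ g : Γ, p.1 = φ g ∧ p.2 = ψ g},
        (lftF φ ⁻¹' {p.1} ∩ lftF ψ ⁻¹' {p.2}) := by
    ext y
    simp only [Set.mem_ofPred_eq, Set.mem_iUnion, Set.mem_inter_iff, Set.mem_preimage,
      Set.mem_singleton_iff, exists_prop, Prod.exists]
    constructor
    · rintro ⟨g, h1, h2⟩
      exact ⟨_, _, ⟨g, h1, h2⟩, rfl, rfl⟩
    · rintro ⟨a, b, ⟨g, h1, h2⟩, h3, h4⟩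
      exact ⟨g, h3.trans h1, h4.trans h2⟩
  rw [h1]
  refine Set.Finite.isClosed_biUnion (Set.toFinite _) fun p _ => ?_
  exact (isClopen_lftF φ _).isClosed.inter (isClopen_lftF ψ _).isClosed

theorem lftF_comp {Q' : Type} [Group Q'] [Finite Q'] (ψ : Q →* Q') (φ : Γ →* Q) (x : Hat Γ) :
    lftF (ψ.comp φ) x = ψ (lftF φ x) := by
  refine hatF_ext (φ := lftF (ψ.comp φ)) (ψ := ψ.comp (lftF φ))
    (fun S => (isClopen_lftF _ S).isClosed) (fun S => ?_) (fun g => ?_) x
  · exact (isClopen_lftF φ (ψ ⁻¹' S)).isClosed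
  · show lftF (ψ.comp φ) (of g) = ψ (lftF φ (of g))
    rw [lftF_of, lftF_of]
    rfl

theorem lftF_lft {Δ : Type} [Group Δ] (ψ : Δ →* Q) (φ : Γ →* Hat Δ) (x : Hat Γ) :
    lftF ψ (lft φ x) = lftF ((lftF ψ).comp φ) x := by
  refine hatF_ext (φ := (lftF ψ).comp (lft φ).toMonoidHom) (ψ := lftF ((lftF ψ).comp φ))
    (fun S => ?_) (fun S => (isClopen_lftF _ S).isClosed) (fun g => ?_) x
  · exact (isClopen_lftF ψ S).isClosed.preimage (lft φ).continuous_toFun
  · show lftF ψ (lft φ (of g)) = lftF ((lftF ψ).comp φ) (of g)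
    rw [lft_of, lftF_of]
    rfl

/-- Points and closed sets are separated by finite quotients. -/
theorem sep {x : Hat Γ} {C : Set (Hat Γ)} (hC : IsClosed C) (hx : x ∉ C) :
    ∃ (Q : Type) (_ : Group Q) (_ : Finite Q) (φ : Γ →* Q), Surjective φ ∧
      ∀ c ∈ C, lftF φ c ≠ lftF φ x := by
  obtain ⟨N, hN⟩ := ProfiniteGrp.exist_openNormalSubgroup_sub_open_nhds_of_one
    (G := Hat Γ) (U := (fun g : Hat Γ => x * g) ⁻¹' Cᶜ)
    (hC.isOpen_compl.preimage (continuous_const.mul continuous_id)) (by simpa using hx)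
  have hfin : Finite (Hat Γ ⧸ N.toSubgroup) :=
    inferInstance
  let φ : Γ →* (Hat Γ ⧸ N.toSubgroup) := (QuotientGroup.mk' N.toSubgroup).comp of
  have hφ : ∀ y : Hat Γ, lftF φ y = QuotientGroup.mk' N.toSubgroup y := by
    refine hatF_ext (φ := lftF φ) (ψ := QuotientGroup.mk' N.toSubgroup)
      (fun S => (isClopen_lftF _ S).isClosed) (fun S => ?_) (fun g => ?_)
    · exact (isClosed_discrete S).preimage continuous_quot_mk
    · rw [lftF_of]
      rfl
  refine ⟨_, _, hfin, φ, fun q => ?_, fun c hc heq => ?_⟩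
  · obtain ⟨y, rfl⟩ := QuotientGroup.mk'_surjective N.toSubgroup q
    obtain ⟨g, hg⟩ := exists_rep φ y
    exact ⟨g, by rw [← hg, hφ]⟩
  · rw [hφ, hφ] at heq
    have h1 : x⁻¹ * c ∈ N.toSubgroup := QuotientGroup.eq.1 heq.symm
    have h2 := hN h1
    simp only [Set.mem_preimage, Set.mem_compl_iff, mul_inv_cancel_left] at h2
    exact h2 hc

/-- Elements are separated by finite quotients. -/
theorem sep_one {x : Hat Γ} (hx : x ≠ 1) :
    ∃ (Q : Type) (_ : Group Q) (_ : Finite Q) (φ : Γ →* Q), Surjective φ ∧ lftF φ x ≠ 1 := by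
  obtain ⟨Q, i1, i2, φ, h1, h2⟩ := sep (C := {(1 : Hat Γ)}) isClosed_singleton hx
  exact ⟨Q, i1, i2, φ, h1, fun h => h2 1 rfl (by rw [h, map_one])⟩

theorem eq_of_forall {x y : Hat Γ}
    (h : ∀ (Q : Type) [Group Q] [Finite Q] (φ : Γ →* Q), lftF φ x = lftF φ y) : x = y := by
  by_contra hne
  obtain ⟨Q, i1, i2, φ, -, h2⟩ := sep_one (x := x * y⁻¹) (fun h => hne (mul_inv_eq_one.1 h))
  exact h2 (by rw [map_mul, map_inv, h Q φ, mul_inv_cancel])

end fin

section evF

variable {n : ℕ} {Q : Type} [Group Q] [Finite Q]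

/-- Evaluation in a finite group. -/
noncomputable def evF (v : Fin n → Q) : FHat n →* Q := lftF (FreeGroup.lift v)

@[simp] theorem evF_gen (v : Fin n → Q) (i : Fin n) : evF v (gen i) = v i := by
  simp [evF, gen]

theorem evF_map {Q' : Type} [Group Q'] [Finite Q'] (ψ : Q →* Q') (v : Fin n → Q) (x : FHat n) :
    ψ (evF v x) = evF (fun i => ψ (v i)) x := by
  unfold evF
  rw [← lftF_comp]
  congr 2
  ext i
  simp

theorem lftF_ev {Δ : Type} [Group Δ] (ψ : Δ →* Q) (v : Fin n → Hat Δ) (x : FHat n) :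
    lftF ψ (ev v x) = evF (fun i => lftF ψ (v i)) x := by
  unfold evF ev
  rw [lftF_lft]
  congr 2
  ext i
  simp

theorem evF_ev {m : ℕ} (w : Fin m → Q) (v : Fin n → FHat m) (x : FHat n) :
    evF w (ev v x) = evF (fun i => evF w (v i)) x :=
  lftF_ev _ v x

/-- Every homomorphism from the free group to a finite group is an evaluation. -/
theorem lftF_eq_evF (φ : FreeGroup (Fin n) →* Q) (x : FHat n) :
    lftF φ x = evF (fun i => φ (FreeGroup.of i)) x := by
  unfold evF
  congr 2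
  ext i
  simp

theorem FHat.eq_of_forall {x y : FHat n}
    (h : ∀ (Q : Type) [Group Q] [Finite Q] (v : Fin n → Q), evF v x = evF v y) : x = y :=
  MPb66790.eq_of_forall fun Q _ _ φ => by rw [lftF_eq_evF, lftF_eq_evF, h]

theorem FHat.sep_one {x : FHat n} (hx : x ≠ 1) :
    ∃ (Q : Type) (_ : Group Q) (_ : Finite Q) (v : Fin n → Q), evF v x ≠ 1 := by
  obtain ⟨Q, i1, i2, φ, -, h⟩ := MPb66790.sep_one hx
  exact ⟨Q, i1, i2, fun i => φ (FreeGroup.of i), by rwa [← lftF_eq_evF]⟩

/-- In a finite group, an element of the free profinite group acts as a word. -/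
theorem exists_word (v : Fin n → Q) (x : FHat n) :
    ∃ g : FreeGroup (Fin n), evF v x = FreeGroup.lift v g :=
  exists_rep _ x

end evF

end MPb66790
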