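import Pool.Agent.Lib.MP_b66790_nt.Basic

/-!
# The braid group and its completion: universal property
-/

namespace MPb66790

open Function

/-- The relations of the braid group on four strands. -/
def IsBraid {G : Type} [Group G] (t : Fin 3 → G) : Prop :=
  t 0 * t 1 * t 0 = t 1 * t 0 * t 1 ∧ t 1 * t 2 * t 1 = t 2 * t 1 * t 2 ∧ t 0 * t 2 = t 2 * t 0

/-- The generators of the discrete braid group. -/
def σ (i : Fin 3) : Braid4 := PresentedGroup.of i

theorem of_σ (i : Fin 3) : of (σ i) = s i := rfl

theorem isBraid_σ : IsBraid σ := by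
  refine ⟨?_, ?_, ?_⟩
  · refine mul_inv_eq_one.1 ?_
    exact PresentedGroup.one_of_mem (rels := braidRels) (by simp [braidRels])
  · refine mul_inv_eq_one.1 ?_
    exact PresentedGroup.one_of_mem (rels := braidRels) (by simp [braidRels])
  · refine mul_inv_eq_one.1 ?_
    exact PresentedGroup.one_of_mem (rels := braidRels) (by simp [braidRels])

theorem IsBraid.map {G H : Type} [Group G] [Group H] (φ : G →* H) {t : Fin 3 → G}
    (h : IsBraid t) : IsBraid (fun i => φ (t i)) := by
  obtain ⟨h1, h2, h3⟩ := h
  refine ⟨?_, ?_, ?_⟩ <;> simp only [← map_mul, h1, h2, h3]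

theorem isBraid_s : IsBraid s := isBraid_σ.map of

/-- The homomorphism from the braid group given by a braid triple. -/
def brd {G : Type} [Group G] {t : Fin 3 → G} (h : IsBraid t) : Braid4 →* G :=
  PresentedGroup.toGroup (f := t) (by
    obtain ⟨h1, h2, h3⟩ := h
    intro r hr
    simp only [braidRels, Set.mem_insert_iff, Set.mem_singleton_iff] at hr
    rcases hr with rfl | rfl | rfl
    · simp only [map_mul, map_inv, FreeGroup.lift_apply_of]
      rw [h1, mul_inv_cancel]
    · simp only [map_mul, map_inv, FreeGroup.lift_apply_of]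
      rw [h2, mul_inv_cancel]
    · simp only [map_mul, map_inv, FreeGroup.lift_apply_of]
      rw [h3, mul_inv_cancel])

@[simp] theorem brd_σ {G : Type} [Group G] {t : Fin 3 → G} (h : IsBraid t) (i : Fin 3) :
    brd h (σ i) = t i := PresentedGroup.toGroup.of _

theorem braid_hom_ext {G : Type} [Group G] {φ ψ : Braid4 →* G} (h : ∀ i, φ (σ i) = ψ (σ i)) :
    φ = ψ := PresentedGroup.ext h

section prof

variable {G : Type} [Group G] [TopologicalSpace G] [IsTopologicalGroup G] [CompactSpace G]
  [TotallyDisconnectedSpace G]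

/-- The continuous homomorphism from the profinite braid group given by a braid triple. -/
noncomputable def evB {t : Fin 3 → G} (h : IsBraid t) : Hat Braid4 →ₜ* G := lft (brd h)

@[simp] theorem evB_s {t : Fin 3 → G} (h : IsBraid t) (i : Fin 3) : evB h (s i) = t i := by
  rw [← of_σ]
  unfold evB
  rw [lft_of, brd_σ]

theorem braid_ext {H : Type} [Group H] [TopologicalSpace H] [T2Space H]
    {φ ψ : Hat Braid4 →* H} (hφ : Continuous φ) (hψ : Continuous ψ)
    (h : ∀ i, φ (s i) = ψ (s i)) (x : Hat Braid4) : φ x = ψ x := by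
  refine hat_ext hφ hψ (fun g => ?_) x
  have h2 : φ.comp of = ψ.comp of := braid_hom_ext h
  exact DFunLike.congr_fun h2 g

end prof

section fin

variable {Q : Type} [Group Q] [Finite Q]

/-- The homomorphism from the profinite braid group to a finite group given by a braid triple. -/
noncomputable def evBF {t : Fin 3 → Q} (h : IsBraid t) : Hat Braid4 →* Q := lftF (brd h)

@[simp] theorem evBF_s {t : Fin 3 → Q} (h : IsBraid t) (i : Fin 3) : evBF h (s i) = t i := by
  rw [← of_σ]
  unfold evBF
  rw [lftF_of, brd_σ]

theorem evBF_ev {n : ℕ} {t : Fin 3 → Q} (h : IsBraid t) (v : Fin n → Hat Braid4) (x : FHat n) :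
    evBF h (ev v x) = evF (fun i => evBF h (v i)) x := lftF_ev _ v x

end fin

end MPb66790
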