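import Pool.Agent.Lib.MP_b66790_nt.ModK

/-!
# Compatibility with the symmetric group on three letters
-/

namespace MPb66790

open Function

/-- The swap of `x` and `y`. -/
noncomputable def swpMap : FHat 2 →ₜ* FHat 2 := ev ![Y, X]

/-- The rotation `x ↦ y ↦ z`. -/
noncomputable def rotMap : FHat 2 →ₜ* FHat 2 := ev ![Y, Z]

theorem swpMap_X : swpMap X = Y := ev_gen _ _

theorem swpMap_Y : swpMap Y = X := ev_gen _ _

theorem rotMap_X : rotMap X = Y := ev_gen _ _

theorem rotMap_Y : rotMap Y = Z := ev_gen _ _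

theorem FHat2_ext {H : Type} [Group H] [TopologicalSpace H] [T2Space H]
    {φ ψ : FHat 2 →* H} (hφ : Continuous φ) (hψ : Continuous ψ)
    (hX : φ X = ψ X) (hY : φ Y = ψ Y) (x : FHat 2) : φ x = ψ x := by
  refine ev_hom_ext hφ hψ (fun i => ?_) x
  fin_cases i
  · exact hX
  · exact hY

/-- A conjugation relation on the generators gives the relation on subgroups. -/
theorem map_conj_of {α β : FHat 2 →ₜ* FHat 2} {g : FHat 2}
    (h : ∀ w, α (β w) = g * β (α w) * g⁻¹) (H : Subgroup (FHat 2)) :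
    (H.map β.toMonoidHom).map α.toMonoidHom =
      ((H.map α.toMonoidHom).map β.toMonoidHom).map (MulAut.conj g).toMonoidHom := by
  rw [Subgroup.map_map, Subgroup.map_map, Subgroup.map_map]
  congr 1
  ext w
  exact h w

theorem rel_of_gen {α β : FHat 2 →ₜ* FHat 2} {g : FHat 2}
    (hX : α (β X) = g * β (α X) * g⁻¹) (hY : α (β Y) = g * β (α Y) * g⁻¹) (w : FHat 2) :
    α (β w) = g * β (α w) * g⁻¹ := by
  refine FHat2_ext (φ := α.toMonoidHom.comp β.toMonoidHom)
    (ψ := (MulAut.conj g).toMonoidHom.comp (β.toMonoidHom.comp α.toMonoidHom))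
    (α.continuous_toFun.comp β.continuous_toFun) ?_ hX hY w
  exact (continuous_const.mul (β.continuous_toFun.comp α.continuous_toFun)).mul continuous_const

theorem stL : StL := by
  intro lam f h H
  have htwo : ev ![X, Y] f * ev ![Y, X] f = 1 := h.two
  refine ⟨⟨f⁻¹, ?_⟩, ?_⟩
  · refine map_conj_of (rel_of_gen ?_ ?_) H
    · show phi lam f (swpMap X) = f⁻¹ * swpMap (phi lam f X) * f⁻¹⁻¹
      rw [swpMap_X, phi_Y, phi_X, map_pow', swpMap_X, inv_inv]
    · show phi lam f (swpMap Y) = f⁻¹ * swpMap (phi lam f Y) * f⁻¹⁻¹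
      have e : swpMap f = f⁻¹ := by
        have h1 : ev ![X, Y] f = f := by
          have e3 : (![X, Y] : Fin 2 → FHat 2) = fun i => gen i := by
            funext i
            fin_cases i <;> rfl
          rw [e3, ev_gen_self]
        have h2 : ev ![Y, X] f = (ev ![X, Y] f)⁻¹ := ev_two htwo X Y
        rw [h1] at h2
        exact h2
      rw [swpMap_Y, phi_X, phi_Y, map_mul, map_mul, map_inv, e, map_pow', swpMap_Y]
      group
  · obtain ⟨m, hm, h3'⟩ := h.three
    have h3 : ev ![Z, X] f * pow Z m * ev ![Y, Z] f * pow Y m * ev ![X, Y] f * pow X m = 1 := h3'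
    have e0 : ev ![X, Y] f = f := by
      have e3 : (![X, Y] : Fin 2 → FHat 2) = fun i => gen i := by
        funext i
        fin_cases i <;> rfl
      rw [e3, ev_gen_self]
    set a := ev ![Z, X] f with ha
    set b := ev ![Y, Z] f with hb
    rw [e0] at h3
    -- H1 : a Z^m b Y^m f X^m = 1
    have hZ : X * Y * Z = 1 := by
      unfold Z
      group
    -- the second hexagon
    have hsw := congrArg swpMap h3
    simp only [map_mul, map_one, map_pow', swpMap_X, swpMap_Y] at hsw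
    have esf : swpMap f = f⁻¹ := by
      have h2 : ev ![Y, X] f = (ev ![X, Y] f)⁻¹ := ev_two htwo X Y
      rw [e0] at h2
      exact h2
    have hZ' : swpMap Z = Y * Z * Y⁻¹ := by
      unfold Z
      rw [map_inv, map_mul, swpMap_X, swpMap_Y]
      group
    have hZ'' : swpMap Z = X⁻¹ * Z * X := by
      unfold Z
      rw [map_inv, map_mul, swpMap_X, swpMap_Y]
      group
    have esa : swpMap a = Y * b⁻¹ * Y⁻¹ := by
      rw [ha, map_ev2, swpMap_X, hZ', hb, ← ev_two htwo Y Z, conj_ev2]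
      congr 3
      group
    have esb : swpMap b = X⁻¹ * a⁻¹ * X := by
      rw [hb, map_ev2, swpMap_Y, hZ'', ha, ← ev_two htwo Z X]
      have := conj_ev2 X⁻¹ X Z f
      rw [inv_inv] at this
      rw [this]
      congr 3
      group
    rw [esa, esb, esf, hZ'] at hsw
    rw [← conj_pow' Y Z m] at hsw
    -- hsw : (Y b⁻¹ Y⁻¹) (Y Z^m Y⁻¹) (X⁻¹ a⁻¹ X) X^m f⁻¹ Y^m = 1
    have hYX : Y⁻¹ * X⁻¹ = Z := by
      unfold Z
      group
    have H2 : b⁻¹ * pow Z m * Z * a⁻¹ * X * pow X m * f⁻¹ * pow Y m * Y = 1 := by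
      calc b⁻¹ * pow Z m * Z * a⁻¹ * X * pow X m * f⁻¹ * pow Y m * Y
          = Y⁻¹ * (Y * b⁻¹ * Y⁻¹ * (Y * pow Z m * Y⁻¹) * (X⁻¹ * a⁻¹ * X) * pow X m * f⁻¹ *
            pow Y m) * Y := by
            rw [← hYX]
            group
        _ = 1 := by
            rw [hsw]
            group
    have hphiZ : phi lam f Z = pow X m * a * pow Z lam * a⁻¹ * (pow X m)⁻¹ := by
      have h4 : phi lam f Z = (phi lam f Y)⁻¹ * (phi lam f X)⁻¹ := by
        conv_lhs => unfold Z
        rw [map_inv, map_mul, mul_inv_rev]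
      rw [h4, phi_X, phi_Y, hm, pow_lam, pow_lam, pow_lam]
      have cZ := (comm_pow_self Z m).eq
      have cX := (comm_pow_self X m).eq
      have cY := (comm_pow_self Y m).eq
      -- from H1: X^m a Z^m = f⁻¹ Y^-m b⁻¹
      have h5 : pow X m * a * pow Z m = f⁻¹ * (pow Y m)⁻¹ * b⁻¹ := by
        have : a * pow Z m * b * pow Y m * f * pow X m = 1 := h3
        have h6 : pow X m * (a * pow Z m * b * pow Y m * f) = 1 := by
          exact mul_eq_one_comm.1 this
        calc pow X m * a * pow Z m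
            = pow X m * (a * pow Z m * b * pow Y m * f) * (f⁻¹ * (pow Y m)⁻¹ * b⁻¹) := by group
          _ = f⁻¹ * (pow Y m)⁻¹ * b⁻¹ := by rw [h6, one_mul]
      -- from H2: Z^m Z a⁻¹ X X^m = b Y⁻¹ Y^-m f
      have h6 : pow Z m * Z * a⁻¹ * X * pow X m = b * Y⁻¹ * (pow Y m)⁻¹ * f := by
        calc pow Z m * Z * a⁻¹ * X * pow X m
            = b * (b⁻¹ * pow Z m * Z * a⁻¹ * X * pow X m * f⁻¹ * pow Y m * Y) *
              (Y⁻¹ * (pow Y m)⁻¹ * f) := by group
          _ = b * Y⁻¹ * (pow Y m)⁻¹ * f := by rw [H2]; group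
      have h7 : (pow X m * a * pow Z m) * (pow Z m * Z * a⁻¹ * X * pow X m) =
          f⁻¹ * (pow Y m)⁻¹ * Y⁻¹ * (pow Y m)⁻¹ * f := by
        rw [h5, h6]
        group
      have h8 : (f⁻¹ * (Y * pow Y m * pow Y m) * f)⁻¹ =
          f⁻¹ * (pow Y m)⁻¹ * Y⁻¹ * (pow Y m)⁻¹ * f := by
        rw [cY]
        group
      rw [h8, ← h7]
      have h9 : pow Z m * pow Z m * Z = Z * pow Z m * pow Z m := by
        rw [mul_assoc, ← cZ, ← mul_assoc, ← cZ]
      have h10 : X * (pow X m)⁻¹ * X⁻¹ = (pow X m)⁻¹ := by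
        rw [((comm_pow_self X m).inv_right).eq, mul_inv_cancel_right]
      calc (pow X m * a * pow Z m) * (pow Z m * Z * a⁻¹ * X * pow X m) *
            (X * pow X m * pow X m)⁻¹
          = pow X m * a * (pow Z m * pow Z m * Z) * a⁻¹ * (X * (pow X m)⁻¹ * X⁻¹) := by group
        _ = pow X m * a * (Z * pow Z m * pow Z m) * a⁻¹ * (pow X m)⁻¹ := by rw [h9, h10]
    refine ⟨f⁻¹ * (pow Y m)⁻¹, ?_⟩
    refine map_conj_of (rel_of_gen ?_ ?_) H
    · show phi lam f (rotMap X) = f⁻¹ * (pow Y m)⁻¹ * rotMap (phi lam f X) *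
        (f⁻¹ * (pow Y m)⁻¹)⁻¹
      rw [rotMap_X, phi_Y, phi_X, map_pow', rotMap_X]
      have c : Commute (pow Y m) (pow Y lam) := commute_pow (comm_pow_self Y m).symm lam
      calc f⁻¹ * pow Y lam * f = f⁻¹ * (pow Y m)⁻¹ * (pow Y m * pow Y lam) * f := by group
        _ = f⁻¹ * (pow Y m)⁻¹ * (pow Y lam * pow Y m) * f := by rw [c.eq]
        _ = _ := by group
    · show phi lam f (rotMap Y) = f⁻¹ * (pow Y m)⁻¹ * rotMap (phi lam f Y) *
        (f⁻¹ * (pow Y m)⁻¹)⁻¹
      have ebf : rotMap f = b := rfl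
      rw [rotMap_Y, hphiZ, phi_Y, map_mul, map_mul, map_inv, ebf, map_pow', rotMap_Y]
      have h5 : f⁻¹ * (pow Y m)⁻¹ * b⁻¹ = pow X m * a * pow Z m := by
        have : a * pow Z m * b * pow Y m * f * pow X m = 1 := h3
        have h6 : pow X m * (a * pow Z m * b * pow Y m * f) = 1 := by
          exact mul_eq_one_comm.1 this
        symm
        calc pow X m * a * pow Z m
            = pow X m * (a * pow Z m * b * pow Y m * f) * (f⁻¹ * (pow Y m)⁻¹ * b⁻¹) := by group
          _ = f⁻¹ * (pow Y m)⁻¹ * b⁻¹ := by rw [h6, one_mul]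
      have c : Commute (pow Z m) (pow Z lam) := commute_pow (comm_pow_self Z m).symm lam
      calc pow X m * a * pow Z lam * a⁻¹ * (pow X m)⁻¹
          = pow X m * a * (pow Z lam * pow Z m) * (pow X m * a * pow Z m)⁻¹ := by group
        _ = (pow X m * a * pow Z m) * pow Z lam * (pow X m * a * pow Z m)⁻¹ := by
            rw [← c.eq]; group
        _ = (f⁻¹ * (pow Y m)⁻¹ * b⁻¹) * pow Z lam * (f⁻¹ * (pow Y m)⁻¹ * b⁻¹)⁻¹ := by rw [← h5]
        _ = _ := by group

end MPb66790
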