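import Pool.Agent.Lib.MP_b66790_nt.ModH

/-!
# Module O: openness
-/

namespace MPb66790

open Function

theorem finiteIndex_range (h2 : StH2) : sqMap.toMonoidHom.range.FiniteIndex := by
  have h1 : chiH.ker.FiniteIndex := inferInstance
  refine Subgroup.finiteIndex_of_le (H := chiH.ker) (K := sqMap.toMonoidHom.range) ?_
  intro w hw
  exact (range_iff h2 w).2 hw

theorem isOpen_sq (h2 : StH2) {H : Subgroup (FHat 2)} (hH : IsOpen (H : Set (FHat 2))) :
    IsOpen (sq H : Set (FHat 2)) := by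
  have h3 : IsOpen (H.comap fillMap.toMonoidHom : Set (FHat 3)) :=
    hH.preimage fillMap.continuous_toFun
  have h4 : (H.comap fillMap.toMonoidHom).FiniteIndex := by
    have : Finite (FHat 3 ⧸ H.comap fillMap.toMonoidHom) := Subgroup.quotient_finite_of_isOpen _ h3
    exact Subgroup.finiteIndex_of_finite_quotient
  have h5 : IsClosed (H.comap fillMap.toMonoidHom : Set (FHat 3)) :=
    Subgroup.isClosed_of_isOpen _ h3
  have h6 : IsClosed (sq H : Set (FHat 2)) :=
    (h5.isCompact.image sqMap.continuous_toFun).isClosed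
  have h7 : (sq H).FiniteIndex := by
    constructor
    unfold sq
    rw [Subgroup.index_map]
    have h8 : (H.comap fillMap.toMonoidHom ⊔ sqMap.toMonoidHom.ker).FiniteIndex :=
      Subgroup.finiteIndex_of_le le_sup_left
    exact mul_ne_zero h8.index_ne_zero (finiteIndex_range h2).index_ne_zero
  exact Subgroup.isOpen_of_isClosed_of_finiteIndex _ h6

theorem map_eq_comap {α β : FHat 2 →ₜ* FHat 2} (h1 : ∀ w, α (β w) = w) (h2 : ∀ w, β (α w) = w)
    (H : Subgroup (FHat 2)) : H.map α.toMonoidHom = H.comap β.toMonoidHom := by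
  ext w
  constructor
  · rintro ⟨v, hv, rfl⟩
    show β (α v) ∈ H
    rw [h2]
    exact hv
  · intro hw
    exact ⟨β w, hw, h1 w⟩

theorem swap_swap' (w : FHat 2) : ev ![Y, X] (ev ![Y, X] w) = w := by
  rw [map_ev]
  conv_rhs => rw [← ev_gen_self w]
  congr 2
  funext i
  fin_cases i
  · show ev ![Y, X] (gen 1) = gen 0
    rw [ev_gen]
    rfl
  · show ev ![Y, X] (gen 0) = gen 1
    rw [ev_gen]
    rfl

theorem rot_Z : ev ![Y, Z] Z = X := by
  show ev ![Y, Z] (gen 0 * gen 1)⁻¹ = X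
  rw [map_inv, map_mul, ev_gen, ev_gen]
  show (Y * (X * Y)⁻¹)⁻¹ = X
  group

theorem rot_rot (w : FHat 2) : ev ![Y, Z] (ev ![Y, Z] w) = ev ![Z, X] w := by
  rw [map_ev]
  congr 2
  funext i
  fin_cases i
  · show ev ![Y, Z] (gen 1) = Z
    rw [ev_gen]
    rfl
  · exact rot_Z

theorem rot_inv (w : FHat 2) : ev ![Y, Z] (ev ![Z, X] w) = w := by
  rw [map_ev]
  conv_rhs => rw [← ev_gen_self w]
  congr 2
  funext i
  fin_cases i
  · exact rot_Z
  · show ev ![Y, Z] (gen 0) = gen 1
    rw [ev_gen]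
    rfl

theorem rot_inv' (w : FHat 2) : ev ![Z, X] (ev ![Y, Z] w) = w := by
  rw [← rot_rot, rot_rot w, rot_inv]

theorem isOpen_swp {H : Subgroup (FHat 2)} (hH : IsOpen (H : Set (FHat 2))) :
    IsOpen (swp H : Set (FHat 2)) := by
  unfold swp
  rw [map_eq_comap swap_swap' swap_swap']
  exact hH.preimage (ev ![Y, X] : FHat 2 →ₜ* FHat 2).continuous_toFun

theorem isOpen_rot {H : Subgroup (FHat 2)} (hH : IsOpen (H : Set (FHat 2))) :
    IsOpen (rot H : Set (FHat 2)) := by
  unfold rot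
  rw [map_eq_comap rot_inv rot_inv']
  exact hH.preimage (ev ![Z, X] : FHat 2 →ₜ* FHat 2).continuous_toFun

theorem stO (h2 : StH2) : StO := fun _ hH => ⟨isOpen_sq h2 hH, isOpen_swp hH, isOpen_rot hH⟩

end MPb66790
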