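import Pool.Agent.Lib.MP_b66790_nt.ModL
import Pool.Agent.Lib.MP_b66790_nt.ModO

/-!
# Composition with an element of the monoid generated by `S₃` and squaring
-/

namespace MPb66790

open Function

/-- Conjugation of subgroups. -/
noncomputable def cj (g : FHat 2) (H : Subgroup (FHat 2)) : Subgroup (FHat 2) :=
  H.map (MulAut.conj g).toMonoidHom

theorem cj_cj (g h : FHat 2) (H : Subgroup (FHat 2)) : cj g (cj h H) = cj (g * h) H := by
  unfold cj
  rw [Subgroup.map_map]
  congr 1
  ext w
  simp [mul_assoc]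

theorem map_cj (α : FHat 2 →ₜ* FHat 2) (g : FHat 2) (H : Subgroup (FHat 2)) :
    (cj g H).map α.toMonoidHom = cj (α g) (H.map α.toMonoidHom) := by
  unfold cj
  rw [Subgroup.map_map, Subgroup.map_map]
  congr 1
  ext w
  show α (g * w * g⁻¹) = α g * α w * (α g)⁻¹
  rw [map_mul, map_mul, map_inv]

theorem sq_cj (g : FHat 2) (H : Subgroup (FHat 2)) : ∃ g', sq (cj g H) = cj g' (sq H) := by
  let sec : FHat 2 →ₜ* FHat 3 := ev ![gen 0, gen 1]
  have hsec : ∀ w, fillMap (sec w) = w := by
    intro w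
    show fillMap (ev ![gen 0, gen 1] w) = w
    rw [map_ev2, fillMap_0, fillMap_1]
    have e3 : (![X, Y] : Fin 2 → FHat 2) = fun i => gen i := by
      funext i
      fin_cases i <;> rfl
    rw [e3, ev_gen_self]
  refine ⟨sqMap (sec g), ?_⟩
  apply le_antisymm
  · rintro _ ⟨k, ⟨x, hx, hxk⟩, rfl⟩
    have hxk' : g * x * g⁻¹ = fillMap k := hxk
    refine ⟨sqMap ((sec g)⁻¹ * k * sec g), ⟨_, ?_, rfl⟩, ?_⟩
    · show fillMap ((sec g)⁻¹ * k * sec g) ∈ H
      rw [map_mul, map_mul, map_inv, hsec, ← hxk']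
      have e : g⁻¹ * (g * x * g⁻¹) * g = x := by group
      rw [e]
      exact hx
    · show sqMap (sec g) * sqMap ((sec g)⁻¹ * k * sec g) * (sqMap (sec g))⁻¹ = sqMap k
      rw [map_mul, map_mul, map_inv]
      group
  · rintro _ ⟨_, ⟨k, hk, rfl⟩, rfl⟩
    have hk' : fillMap k ∈ H := hk
    refine ⟨sec g * k * (sec g)⁻¹, ⟨fillMap k, hk', ?_⟩, ?_⟩
    · show g * fillMap k * g⁻¹ = fillMap (sec g * k * (sec g)⁻¹)
      rw [map_mul, map_mul, map_inv, hsec]
    · show sqMap (sec g * k * (sec g)⁻¹) = sqMap (sec g) * sqMap k * (sqMap (sec g))⁻¹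
      rw [map_mul, map_mul, map_inv]

theorem apply_cj (γ : Move) (g : FHat 2) (H : Subgroup (FHat 2)) :
    ∃ g', γ.apply (cj g H) = cj g' (γ.apply H) := by
  cases γ with
  | swap => exact ⟨_, map_cj swpMap g H⟩
  | rotate => exact ⟨_, map_cj rotMap g H⟩
  | square => exact sq_cj g H

theorem apply_act (hK : StK) (hMain : StMain) {lam : ZHat} {f : FHat 2} (h : IsGT lam f)
    (γ : Move) (H : Subgroup (FHat 2)) :
    ∃ g, act lam f (γ.apply H) = cj g (γ.apply (act lam f H)) := by
  cases γ with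
  | swap => exact (stL lam f h H).1
  | rotate => exact (stL lam f h H).2
  | square =>
    refine ⟨1, ?_⟩
    have e : ∀ K : Subgroup (FHat 2), cj 1 K = K := by
      intro K
      unfold cj
      ext x
      simp
    rw [e]
    exact hK lam f h (hMain lam f h) H

theorem final (hK : StK) (hMain : StMain) (hO : StO) {lam : ZHat} {f : FHat 2}
    (h : IsGT lam f) (w : List Move) (H : Subgroup (FHat 2)) :
    (IsOpen (H : Set (FHat 2)) → IsOpen (compose w H : Set (FHat 2))) ∧
    ∃ g : FHat 2, act lam f (compose w H) =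
      (compose w (act lam f H)).map (MulAut.conj g).toMonoidHom := by
  induction w with
  | nil =>
    refine ⟨id, 1, ?_⟩
    ext x
    simp [compose]
  | cons γ w ih =>
    obtain ⟨h1, g, h2⟩ := ih
    refine ⟨fun hH => ?_, ?_⟩
    · have h3 := hO _ (h1 hH)
      cases γ with
      | swap => exact h3.2.1
      | rotate => exact h3.2.2
      | square => exact h3.1
    · obtain ⟨g1, e1⟩ := apply_act hK hMain h γ (compose w H)
      obtain ⟨g2, e2⟩ := apply_cj γ g (compose w (act lam f H))
      refine ⟨g1 * g2, ?_⟩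
      show act lam f (γ.apply (compose w H)) = cj (g1 * g2) (γ.apply (compose w (act lam f H)))
      rw [e1, h2]
      show cj g1 (γ.apply (cj g (compose w (act lam f H)))) = _
      rw [e2, cj_cj]

end MPb66790
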