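import Pool.Agent.Lib.MP_b66790_nt.Stmts

/-!
# Braid algebra and the pentagon
-/

namespace MPb66790

open Function

section words

variable {G : Type} [Group G] {t : Fin 3 → G}

/-- Garside's element for a braid triple. -/
def gar (t : Fin 3 → G) : G := t 0 * t 1 * t 0 * t 2 * t 1 * t 0

theorem cube_eq (a b : G) : (a * b) ^ 3 = (a * b * a) * (b * a * b) := by
  simp only [pow_succ, pow_zero, one_mul, mul_assoc]

theorem gar_zero (h : IsBraid t) : gar t * t 0 = t 2 * gar t := by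
  obtain ⟨h1, h2, h3⟩ := h
  unfold gar
  generalize t 0 = a at *
  generalize t 1 = b at *
  generalize t 2 = c at *
  -- a b a c b a · a = c · a b a c b a
  calc a * b * a * c * b * a * a = a * b * (a * c) * b * a * a := by group
    _ = a * b * c * (a * b * a) * a := by rw [h3]; group
    _ = a * (b * c * b) * a * b * a := by rw [h1]; group
    _ = (a * c) * b * c * a * b * a := by rw [h2]; group
    _ = c * a * b * (a * c) * b * a := by rw [h3]; group
    _ = c * (a * b * a * c * b * a) := by group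

theorem gar_one (h : IsBraid t) : gar t * t 1 = t 1 * gar t := by
  obtain ⟨h1, h2, h3⟩ := h
  unfold gar
  generalize t 0 = a at *
  generalize t 1 = b at *
  generalize t 2 = c at *
  -- a b a c b a b = a b a c a b a = a b a a c b a ; b a b a c b a = a b a a c b a
  calc a * b * a * c * b * a * b = a * b * a * c * (b * a * b) := by group
    _ = a * b * (a * (c * a) * b * a) := by rw [← h1]; group
    _ = (a * b * a) * (a * c) * b * a := by rw [← h3]; group
    _ = (b * a * b) * (a * c) * b * a := by rw [h1]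
    _ = b * (a * b * a * c * b * a) := by group

theorem gar_two (h : IsBraid t) : gar t * t 2 = t 0 * gar t := by
  obtain ⟨h1, h2, h3⟩ := h
  unfold gar
  generalize t 0 = a at *
  generalize t 1 = b at *
  generalize t 2 = c at *
  -- a b a c b a c = a b a c b c a = a b a b c b a = a a b a c b a
  calc a * b * a * c * b * a * c = a * b * a * c * b * (a * c) := by group
    _ = a * b * a * (c * b * c) * a := by rw [h3]; group
    _ = a * b * (a * b) * c * b * a := by rw [← h2]; group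
    _ = a * (b * a * b) * c * b * a := by group
    _ = a * (a * b * a * c * b * a) := by rw [← h1]; group

theorem cube_comm (h : IsBraid t) : (t 0 * t 1) ^ 3 = (t 1 * t 0) ^ 3 := by
  obtain ⟨h1, -, -⟩ := h
  generalize t 0 = a at *
  generalize t 1 = b at *
  calc (a * b) ^ 3 = (a * b * a) * (b * a * b) := cube_eq a b
    _ = (b * a * b) * (a * b * a) := by rw [h1]
    _ = (b * a) ^ 3 := (cube_eq b a).symm

theorem cube_comm' (h : IsBraid t) : (t 1 * t 2) ^ 3 = (t 2 * t 1) ^ 3 := by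
  obtain ⟨-, h1, -⟩ := h
  generalize t 1 = a at *
  generalize t 2 = b at *
  calc (a * b) ^ 3 = (a * b * a) * (b * a * b) := cube_eq a b
    _ = (b * a * b) * (a * b * a) := by rw [h1]
    _ = (b * a) ^ 3 := (cube_eq b a).symm

theorem comm_cube_aux {a b : G} (h1 : a * b * a = b * a * b) : Commute ((a * b) ^ 3) a := by
  have e : (a * b) ^ 3 = (a * b * a) * (a * b * a) := by
    rw [cube_eq, ← h1]
  have f : (a * b * a) * a = b * (a * b * a) := by
    calc (a * b * a) * a = (b * a * b) * a := by rw [h1]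
      _ = b * (a * b * a) := by group
  have g : (a * b * a) * b = a * (a * b * a) := by
    calc (a * b * a) * b = a * (b * a * b) := by group
      _ = a * (a * b * a) := by rw [← h1]
  show (a * b) ^ 3 * a = a * (a * b) ^ 3
  rw [e, mul_assoc, f, ← mul_assoc, g, mul_assoc]

theorem comm_cube_aux' {a b : G} (h1 : a * b * a = b * a * b) : Commute ((a * b) ^ 3) b := by
  have h2 := comm_cube_aux h1.symm
  have e : (a * b) ^ 3 = (b * a) ^ 3 := by
    rw [cube_eq, cube_eq, h1]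
  rw [e]
  exact h2

end words

/-- The element `c = (σ₁σ₂)³`. -/
noncomputable def cB : Hat Braid4 := (s 0 * s 1) ^ 3

/-- The element `c' = (σ₂σ₃)³`. -/
noncomputable def dB : Hat Braid4 := (s 1 * s 2) ^ 3

theorem Dl_zero : Dl * s 0 = s 2 * Dl := gar_zero isBraid_s

theorem Dl_one : Dl * s 1 = s 1 * Dl := gar_one isBraid_s

theorem Dl_two : Dl * s 2 = s 0 * Dl := gar_two isBraid_s

theorem conj_zero : Dl * s 0 * Dl⁻¹ = s 2 := by rw [Dl_zero, mul_inv_cancel_right]

theorem conj_one : Dl * s 1 * Dl⁻¹ = s 1 := by rw [Dl_one, mul_inv_cancel_right]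

theorem conj_two : Dl * s 2 * Dl⁻¹ = s 0 := by rw [Dl_two, mul_inv_cancel_right]

theorem conj_mul' (g a b : Hat Braid4) : g * (a * b) * g⁻¹ = (g * a * g⁻¹) * (g * b * g⁻¹) := by
  group

theorem conj_pow'' (g a : Hat Braid4) (n : ℕ) : g * a ^ n * g⁻¹ = (g * a * g⁻¹) ^ n :=
  (conj_pow).symm

theorem conj_cB : Dl * cB * Dl⁻¹ = dB := by
  unfold cB dB
  rw [conj_pow'', conj_mul', conj_zero, conj_one]
  exact (cube_comm' isBraid_s).symm

theorem conj_dB : Dl * dB * Dl⁻¹ = cB := by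
  unfold cB dB
  rw [conj_pow'', conj_mul', conj_one, conj_two]
  exact (cube_comm isBraid_s).symm

theorem conj_sq_zero : Dl * s 0 ^ 2 * Dl⁻¹ = s 2 ^ 2 := by rw [conj_pow'', conj_zero]

theorem conj_sq_one : Dl * s 1 ^ 2 * Dl⁻¹ = s 1 ^ 2 := by rw [conj_pow'', conj_one]

theorem conj_sq_two : Dl * s 2 ^ 2 * Dl⁻¹ = s 0 ^ 2 := by rw [conj_pow'', conj_two]

theorem comm_zero_two : Commute (s 0) (s 2) := isBraid_s.2.2

theorem comm_Dl_one : Commute Dl (s 1) := Dl_one

theorem comm_Dl_b : Commute Dl (s 0 * s 2) := by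
  have h : Dl * (s 0 * s 2) * Dl⁻¹ = s 0 * s 2 := by
    rw [conj_mul', conj_zero, conj_two]
    exact comm_zero_two.symm.eq
  exact mul_inv_eq_iff_eq_mul.1 h

theorem comm_cB_zero : Commute cB (s 0) := comm_cube_aux isBraid_s.1

theorem comm_cB_one : Commute cB (s 1) := comm_cube_aux' isBraid_s.1

theorem comm_dB_one : Commute dB (s 1) := comm_cube_aux isBraid_s.2.1

theorem comm_dB_two : Commute dB (s 2) := comm_cube_aux' isBraid_s.2.1

section comm

variable {G : Type} [Group G] [TopologicalSpace G] [IsTopologicalGroup G] [CompactSpace G]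
  [TotallyDisconnectedSpace G]

/-- The value of an element of the closed commutator subgroup at commuting arguments is trivial. -/
theorem ev_comm {f : FHat 2} (hf : f ∈ (commutator (FHat 2)).topologicalClosure) {a b : G}
    (h : Commute a b) : ev ![a, b] f = 1 := by
  have h1 : ∀ u v : FHat 2, Commute (ev ![a, b] u) (ev ![a, b] v) := by
    intro u v
    refine commute_ev (fun i => ?_) v
    refine (commute_ev (fun j => ?_) u).symm
    fin_cases i <;> fin_cases j
    · exact Commute.refl a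
    · exact h
    · exact h.symm
    · exact Commute.refl b
  have h2 : commutator (FHat 2) ≤ (ev ![a, b]).toMonoidHom.ker := by
    rw [commutator_def, Subgroup.commutator_le]
    intro u _ v _
    rw [MonoidHom.mem_ker, map_commutatorElement]
    exact commutatorElement_eq_one_iff_commute.2 (h1 u v)
  have h3 : (commutator (FHat 2)).topologicalClosure ≤ (ev ![a, b]).toMonoidHom.ker := by
    refine Subgroup.topologicalClosure_minimal _ h2 ?_
    exact isClosed_singleton.preimage (ev ![a, b]).continuous_toFun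
  exact h3 hf

/-- The two-cycle relation at arbitrary arguments. -/
theorem ev_two {f : FHat 2} (hf : ev ![X, Y] f * ev ![Y, X] f = 1) (a b : G) :
    ev ![b, a] f = (ev ![a, b] f)⁻¹ := by
  have h := congrArg (ev ![a, b]) hf
  rw [map_mul, map_ev, map_ev, map_one] at h
  have e1 : (fun i => ev ![a, b] ((![X, Y] : Fin 2 → FHat 2) i)) = ![a, b] := by
    funext i
    fin_cases i
    · exact ev_gen _ _
    · exact ev_gen _ _
  have e2 : (fun i => ev ![a, b] ((![Y, X] : Fin 2 → FHat 2) i)) = ![b, a] := by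
    funext i
    fin_cases i
    · exact ev_gen _ _
    · exact ev_gen _ _
  rw [e1, e2] at h
  exact (inv_eq_of_mul_eq_one_right h).symm

theorem conj_ev2 (g a b : G) (x : FHat 2) :
    g * ev ![a, b] x * g⁻¹ = ev ![g * a * g⁻¹, g * b * g⁻¹] x := by
  rw [conj_ev]
  congr 2
  funext i
  fin_cases i <;> rfl

theorem map_ev2 {H : Type} [Group H] [TopologicalSpace H] [IsTopologicalGroup H] [CompactSpace H]
    [TotallyDisconnectedSpace H] (α : G →ₜ* H) (a b : G) (x : FHat 2) :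
    α (ev ![a, b] x) = ev ![α a, α b] x := by
  rw [map_ev]
  congr 2
  funext i
  fin_cases i <;> rfl

theorem commute_ev2 {g a b : G} (h1 : Commute g a) (h2 : Commute g b) (x : FHat 2) :
    Commute g (ev ![a, b] x) := by
  refine commute_ev (fun i => ?_) x
  fin_cases i
  · exact h1
  · exact h2

end comm

section pent

variable (f : FHat 2)

/-- `R = f(x₄₅, x₅₁)`. -/
noncomputable def fR : Hat Braid4 := ev ![cB, dB] f

/-- `Q = f(x₂₃, x₃₄)`. -/
noncomputable def fQ : Hat Braid4 := ev ![s 1 ^ 2, s 2 ^ 2] f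

/-- `P = f(x₁₂, x₅₁)`. -/
noncomputable def fP : Hat Braid4 := ev ![s 0 ^ 2, dB] f

/-- `A = f(x₁₂, x₂₃)`. -/
noncomputable def fA : Hat Braid4 := ev ![s 0 ^ 2, s 1 ^ 2] f

/-- `h = f(x₄₅, x₃₄)`. -/
noncomputable def fh : Hat Braid4 := ev ![cB, s 2 ^ 2] f

/-- `S = f(σ₁σ₃, σ₂²)`. -/
noncomputable def fS : Hat Braid4 := ev ![s 0 * s 2, s 1 ^ 2] f

/-- `T = Q⁻¹ P σ₁σ₃ P⁻¹ Q`. -/
noncomputable def fT : Hat Braid4 := (fQ f)⁻¹ * fP f * (s 0 * s 2) * (fP f)⁻¹ * fQ f

variable {f}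

theorem conj_fR (h : ev ![X, Y] f * ev ![Y, X] f = 1) : Dl * fR f * Dl⁻¹ = (fR f)⁻¹ := by
  unfold fR
  rw [conj_ev2, conj_cB, conj_dB, ev_two h]

theorem conj_fP (h : ev ![X, Y] f * ev ![Y, X] f = 1) : Dl * fP f * Dl⁻¹ = (fh f)⁻¹ := by
  unfold fP fh
  rw [conj_ev2, conj_dB, conj_sq_zero, ev_two h]

theorem conj_fQ (h : ev ![X, Y] f * ev ![Y, X] f = 1) : Dl * fQ f * Dl⁻¹ = (fA f)⁻¹ := by
  unfold fQ fA
  rw [conj_ev2, conj_sq_one, conj_sq_two, ev_two h]

theorem pentagon {lam : ZHat} (h : IsGT lam f) :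
    fR f * fA f * (fh f)⁻¹ = (fQ f)⁻¹ * fP f := by
  have h5 : ev ![s 0 ^ 2, s 1 ^ 2] f * ev ![s 2 ^ 2, (s 0 * s 1) ^ 3] f *
    ev ![(s 1 * s 2) ^ 3, s 0 ^ 2] f * ev ![s 1 ^ 2, s 2 ^ 2] f *
    ev ![(s 0 * s 1) ^ 3, (s 1 * s 2) ^ 3] f = 1 := h.five
  have e1 : ev ![s 2 ^ 2, (s 0 * s 1) ^ 3] f = (fh f)⁻¹ := ev_two h.two _ _
  have e2 : ev ![(s 1 * s 2) ^ 3, s 0 ^ 2] f = (fP f)⁻¹ := ev_two h.two _ _
  rw [e1, e2] at h5
  have h6 : fA f * (fh f)⁻¹ * (fP f)⁻¹ * fQ f * fR f = 1 := h5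
  have h7 : fR f = (fA f * (fh f)⁻¹ * (fP f)⁻¹ * fQ f)⁻¹ :=
    eq_inv_of_mul_eq_one_right h6
  rw [h7]
  group

theorem conj_Dl_inv (a : Hat Braid4) : Dl * a⁻¹ * Dl⁻¹ = (Dl * a * Dl⁻¹)⁻¹ := by group

theorem conj_fT {lam : ZHat} (h : IsGT lam f) : Commute (fR f * Dl) (fT f) := by
  have h1 : Dl * fT f * Dl⁻¹ = fA f * (fh f)⁻¹ * (s 0 * s 2) * fh f * (fA f)⁻¹ := by
    unfold fT
    rw [conj_mul', conj_mul', conj_mul', conj_mul', conj_Dl_inv, conj_Dl_inv, conj_fQ h.two,
      conj_fP h.two, inv_inv, inv_inv]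
    congr 3
    exact mul_inv_eq_iff_eq_mul.2 comm_Dl_b.eq
  have h2 : (fR f * Dl) * fT f * (fR f * Dl)⁻¹ = fT f := by
    have e : (fR f * Dl) * fT f * (fR f * Dl)⁻¹ = fR f * (Dl * fT f * Dl⁻¹) * (fR f)⁻¹ := by
      group
    rw [e, h1]
    have e2 : fR f * (fA f * (fh f)⁻¹ * (s 0 * s 2) * fh f * (fA f)⁻¹) * (fR f)⁻¹ =
        (fR f * fA f * (fh f)⁻¹) * (s 0 * s 2) * (fR f * fA f * (fh f)⁻¹)⁻¹ := by group
    rw [e2, pentagon h]
    unfold fT
    group
  exact mul_inv_eq_iff_eq_mul.1 h2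

theorem comm_RDl_one : Commute (fR f * Dl) (s 1) := by
  refine Commute.mul_left ?_ comm_Dl_one
  exact (commute_ev2 comm_cB_one.symm comm_dB_one.symm f).symm

theorem sq_RDl (h : ev ![X, Y] f * ev ![Y, X] f = 1) : fR f * Dl * (fR f * Dl) = Dl * Dl := by
  have e : fR f * Dl * (fR f * Dl) = fR f * (Dl * fR f * Dl⁻¹) * (Dl * Dl) := by group
  rw [e, conj_fR h, mul_inv_cancel, one_mul]

theorem comm_Dl_S : Commute Dl (fS f) :=
  commute_ev2 comm_Dl_b (comm_Dl_one.pow_right 2) f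

@[simp] theorem rho_s (i : Fin 3) : rho (s i) = (![s 0, s 1, s 0] : Fin 3 → Hat Braid4) i :=
  evB_s _ _

theorem rho_zero : rho (s 0) = s 0 := rho_s 0

theorem rho_one : rho (s 1) = s 1 := rho_s 1

theorem rho_two : rho (s 2) = s 0 := rho_s 2

theorem rho_cB : rho cB = cB := by
  unfold cB
  rw [map_pow, map_mul, rho_zero, rho_one]

theorem rho_dB : rho dB = cB := by
  unfold cB dB
  rw [map_pow, map_mul, rho_one, rho_two]
  exact (cube_comm isBraid_s).symm

theorem rho_Dl : rho Dl = cB := by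
  unfold Dl cB
  simp only [map_mul, rho_zero, rho_one, rho_two]
  have h := isBraid_s.1
  calc s 0 * s 1 * s 0 * s 0 * s 1 * s 0 = (s 0 * s 1 * s 0) * (s 0 * s 1 * s 0) := by group
    _ = (s 0 * s 1 * s 0) * (s 1 * s 0 * s 1) := by rw [h]
    _ = (s 0 * s 1) ^ 3 := (cube_eq _ _).symm

theorem rho_fR (hf : f ∈ (commutator (FHat 2)).topologicalClosure) : rho (fR f) = 1 := by
  unfold fR
  rw [map_ev2, rho_cB, rho_dB]
  exact ev_comm hf (Commute.refl _)

theorem rho_fP (hf : f ∈ (commutator (FHat 2)).topologicalClosure) : rho (fP f) = 1 := by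
  unfold fP
  rw [map_ev2, map_pow, rho_zero, rho_dB]
  exact ev_comm hf (comm_cB_zero.symm.pow_left 2)

theorem rho_fQ (h : ev ![X, Y] f * ev ![Y, X] f = 1) : rho (fQ f) = (fA f)⁻¹ := by
  unfold fQ fA
  rw [map_ev2, map_pow, map_pow, rho_one, rho_two, ev_two h]

theorem rho_fS : rho (fS f) = fA f := by
  unfold fS fA
  rw [map_ev2, map_pow, map_mul, rho_zero, rho_one, rho_two, pow_two (s 0)]

theorem rho_pB : rho pB = 1 := by
  unfold pB
  rw [map_mul, map_inv, rho_zero, rho_two, mul_inv_cancel]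

theorem rho_rB : rho rB = 1 := by
  unfold rB
  rw [map_mul, map_mul, map_inv, rho_pB, mul_one, mul_inv_cancel]

theorem rho_jMap (w : FHat 2) : rho (jMap w) = 1 := by
  unfold jMap
  rw [map_ev2, rho_pB, rho_rB]
  refine ev_hom_ext (φ := (ev ![(1 : Hat Braid4), 1]).toMonoidHom) (ψ := 1)
    (ev ![(1 : Hat Braid4), 1]).continuous_toFun continuous_const (fun i => ?_) w
  show ev ![(1 : Hat Braid4), 1] (gen i) = 1
  rw [ev_gen]
  fin_cases i <;> rfl

end pent

end MPb66790
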