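import Mathlib

/-!
# Profinite Grothendieck-Teichmueller elements and the action on dessins

`Hat Γ` is the profinite completion of a group `Γ` (Mathlib), `FHat n` the free profinite group on
`n` generators `gen 0, ..., gen (n - 1)`.
-/

namespace MPb66790

/-- The profinite completion of a group. -/
def Hat (Γ : Type) [Group Γ] : Type :=
  ProfiniteGrp.ProfiniteCompletion.completion (GrpCat.of Γ)

section inst

variable (Γ : Type) [Group Γ]

noncomputable instance : Group (Hat Γ) :=
  inferInstanceAs (Group (ProfiniteGrp.ProfiniteCompletion.completion (GrpCat.of Γ)))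

instance : TopologicalSpace (Hat Γ) :=
  inferInstanceAs (TopologicalSpace (ProfiniteGrp.ProfiniteCompletion.completion (GrpCat.of Γ)))

instance : IsTopologicalGroup (Hat Γ) :=
  inferInstanceAs (IsTopologicalGroup (ProfiniteGrp.ProfiniteCompletion.completion (GrpCat.of Γ)))

instance : CompactSpace (Hat Γ) :=
  inferInstanceAs (CompactSpace (ProfiniteGrp.ProfiniteCompletion.completion (GrpCat.of Γ)))

instance : TotallyDisconnectedSpace (Hat Γ) :=
  inferInstanceAs
    (TotallyDisconnectedSpace (ProfiniteGrp.ProfiniteCompletion.completion (GrpCat.of Γ)))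

instance : T2Space (Hat Γ) :=
  inferInstanceAs (T2Space (ProfiniteGrp.ProfiniteCompletion.completion (GrpCat.of Γ)))

end inst

/-- The canonical map from a group to its profinite completion. -/
noncomputable def of {Γ : Type} [Group Γ] : Γ →* Hat Γ :=
  (ProfiniteGrp.ProfiniteCompletion.eta (GrpCat.of Γ)).hom

/-- The continuous extension of a homomorphism from `Γ` to a profinite group. -/
noncomputable def lft {Γ G : Type} [Group Γ] [Group G] [TopologicalSpace G] [IsTopologicalGroup G]
    [CompactSpace G] [TotallyDisconnectedSpace G] (φ : Γ →* G) : Hat Γ →ₜ* G :=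
  (ProfiniteGrp.ProfiniteCompletion.lift (P := ProfiniteGrp.of G) (GrpCat.ofHom φ)).hom

/-- The free profinite group on `n` generators. -/
abbrev FHat (n : ℕ) : Type := Hat (FreeGroup (Fin n))

/-- The free generators of `FHat n`. -/
noncomputable def gen {n : ℕ} (i : Fin n) : FHat n := of (FreeGroup.of i)

/-- `ev v f` is the value `f(v 0, ..., v (n - 1))`: the image of `f` under the continuous
homomorphism from `FHat n` to the profinite group `G` that sends `gen i` to `v i`. -/
noncomputable def ev {n : ℕ} {G : Type} [Group G] [TopologicalSpace G] [IsTopologicalGroup G]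
    [CompactSpace G] [TotallyDisconnectedSpace G] (v : Fin n → G) : FHat n →ₜ* G :=
  lft (FreeGroup.lift v)

/-- The profinite integers, written multiplicatively: the free profinite group on one generator
`zgen`, which stands for the integer `1`. -/
abbrev ZHat : Type := FHat 1

/-- The integer `1` as an element of the profinite integers (written multiplicatively). -/
noncomputable def zgen : ZHat := gen 0

/-- The power `g ^ a` of an element of a profinite group with a profinite integer exponent. -/
noncomputable def pow {G : Type} [Group G] [TopologicalSpace G] [IsTopologicalGroup G]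
    [CompactSpace G] [TotallyDisconnectedSpace G] (g : G) (a : ZHat) : G :=
  ev (fun _ => g) a

/-- The generator `x` of the free profinite group on two generators (loop around `0`). -/
noncomputable def X : FHat 2 := gen 0

/-- The generator `y` of the free profinite group on two generators (loop around `1`). -/
noncomputable def Y : FHat 2 := gen 1

/-- The element `z = (x y)⁻¹`, so that `x y z = 1` (loop around infinity). -/
noncomputable def Z : FHat 2 := (X * Y)⁻¹

/-- The relations of Artin's braid group on four strands. -/
def braidRels : Set (FreeGroup (Fin 3)) :=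
  {FreeGroup.of 0 * FreeGroup.of 1 * FreeGroup.of 0 *
      (FreeGroup.of 1 * FreeGroup.of 0 * FreeGroup.of 1)⁻¹,
    FreeGroup.of 1 * FreeGroup.of 2 * FreeGroup.of 1 *
      (FreeGroup.of 2 * FreeGroup.of 1 * FreeGroup.of 2)⁻¹,
    FreeGroup.of 0 * FreeGroup.of 2 * (FreeGroup.of 2 * FreeGroup.of 0)⁻¹}

/-- Artin's braid group on four strands, with generators `σ₁, σ₂, σ₃` (indices `0, 1, 2`). -/
abbrev Braid4 : Type := PresentedGroup braidRels

/-- The generator `σ_{i+1}` in the profinite completion of the braid group. -/
noncomputable def s (i : Fin 3) : Hat Braid4 := of (PresentedGroup.of i)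

/-- The endomorphism `φ_F` of the free profinite group on `x, y` attached to `F = (lam, f)`:
it sends `x` to `x ^ lam` and `y` to `f⁻¹ y ^ lam f`. -/
noncomputable def phi (lam : ZHat) (f : FHat 2) : FHat 2 →ₜ* FHat 2 :=
  ev ![pow X lam, f⁻¹ * pow Y lam * f]

/-- The value `f(a, b)` for `a, b` in the free profinite group on `x, y`. -/
noncomputable def evX (f a b : FHat 2) : FHat 2 := ev ![a, b] f

/-- The value `f(a, b)` for `a, b` in the profinite braid group. -/
noncomputable def evS (f : FHat 2) (a b : Hat Braid4) : Hat Braid4 := ev ![a, b] f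

/-- The two-cycle relation `f(x,y) f(y,x) = 1`. -/
def TwoCycle (f : FHat 2) : Prop := evX f X Y * evX f Y X = 1

/-- The three-cycle relation `f(z,x) z^m f(y,z) y^m f(x,y) x^m = 1` (with `x y z = 1`). -/
def ThreeCycle (m : ZHat) (f : FHat 2) : Prop :=
  evX f Z X * pow Z m * evX f Y Z * pow Y m * evX f X Y * pow X m = 1

/-- The generator `x₁₂ = σ₁²` of the pure mapping class group `K(0,5)`. -/
noncomputable def x12 : Hat Braid4 := s 0 ^ 2

/-- The generator `x₂₃ = σ₂²`. -/
noncomputable def x23 : Hat Braid4 := s 1 ^ 2

/-- The generator `x₃₄ = σ₃²`. -/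
noncomputable def x34 : Hat Braid4 := s 2 ^ 2

/-- The generator `x₄₅ = (σ₁σ₂)³`. -/
noncomputable def x45 : Hat Braid4 := (s 0 * s 1) ^ 3

/-- The generator `x₅₁ = (σ₂σ₃)³`. -/
noncomputable def x51 : Hat Braid4 := (s 1 * s 2) ^ 3

/-- The five-cycle relation `f(x₁₂,x₂₃) f(x₃₄,x₄₅) f(x₅₁,x₁₂) f(x₂₃,x₃₄) f(x₄₅,x₅₁) = 1`, written
in the profinite completion of the braid group on four strands. The pure mapping class group
`K(0,5)` of the sphere with five marked points is the pure braid group modulo its centre. -/
def FiveCycle (f : FHat 2) : Prop :=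
  evS f x12 x23 * evS f x34 x45 * evS f x51 x12 * evS f x23 x34 * evS f x45 x51 = 1

/-- The pair `(lam, f)` is an element of the profinite Grothendieck-Teichmueller group:
`lam` is a unit of the ring of profinite integers (`lam * mu = 1` for some `mu`), `f` lies in the
closed commutator subgroup, the two-, three- and five-cycle relations hold (with
`m = (lam - 1) / 2`, i.e. `lam = 1 + m + m`), and `phi lam f` is an automorphism. -/
structure IsGT (lam : ZHat) (f : FHat 2) : Prop where
  unit : ∃ mu : ZHat, pow lam mu = zgen
  comm : f ∈ (commutator (FHat 2)).topologicalClosure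
  two : TwoCycle f
  three : ∃ m : ZHat, lam = zgen * m * m ∧ ThreeCycle m f
  five : FiveCycle f
  bij : Function.Bijective (phi lam f)

/-- The action of `F = (lam, f)` on (open) subgroups of `FHat 2`, i.e. on dessins. -/
noncomputable def act (lam : ZHat) (f : FHat 2) (H : Subgroup (FHat 2)) : Subgroup (FHat 2) :=
  H.map (phi lam f).toMonoidHom

/-- The subgroups `H` and `K` are conjugate, i.e. they define the same dessin. -/
def SameDessin (H K : Subgroup (FHat 2)) : Prop :=
  ∃ g : FHat 2, ∀ x : FHat 2, x ∈ H ↔ g * x * g⁻¹ ∈ K

/-- The map `x ↦ x²`, `y ↦ y`, `w ↦ x y x⁻¹` induced on fundamental groups by the squaring map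
from the sphere minus `0, 1, -1, ∞` (loops `x, y, w` around `0, 1, -1`) to the sphere minus
`0, 1, ∞`. -/
noncomputable def sqMap : FHat 3 →ₜ* FHat 2 := ev ![X ^ 2, Y, X * Y * X⁻¹]

/-- The map `x ↦ x`, `y ↦ y`, `w ↦ 1` induced on fundamental groups by the inclusion of the sphere
minus `0, 1, -1, ∞` into the sphere minus `0, 1, ∞`. -/
noncomputable def fillMap : FHat 3 →ₜ* FHat 2 := ev ![X, Y, 1]

/-- The subgroup of the dessin `β²` if `H` is the subgroup of the dessin `β`. -/
noncomputable def sq (H : Subgroup (FHat 2)) : Subgroup (FHat 2) :=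
  (H.comap fillMap.toMonoidHom).map sqMap.toMonoidHom

/-- The subgroup of the dessin `1 - β` if `H` is the subgroup of the dessin `β`:
the image under the automorphism `x ↦ y`, `y ↦ x`. -/
noncomputable def swp (H : Subgroup (FHat 2)) : Subgroup (FHat 2) :=
  H.map (ev ![Y, X] : FHat 2 →ₜ* FHat 2).toMonoidHom

/-- The subgroup of the dessin `1 / (1 - β)` if `H` is the subgroup of the dessin `β`:
the image under the automorphism `x ↦ y`, `y ↦ z` (and `z ↦ x`). -/
noncomputable def rot (H : Subgroup (FHat 2)) : Subgroup (FHat 2) :=
  H.map (ev ![Y, Z] : FHat 2 →ₜ* FHat 2).toMonoidHom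

/-- The maps `1 - z`, `1 / (1 - z)` and `z²` from the sphere to itself. -/
inductive Move
  | swap
  | rotate
  | square

/-- The subgroup of the dessin `γ ∘ β`, for `γ` one of the three maps `1 - z`, `1 / (1 - z)`,
`z²`, if `H` is the subgroup of `β`. -/
noncomputable def Move.apply : Move → Subgroup (FHat 2) → Subgroup (FHat 2)
  | Move.swap, H => swp H
  | Move.rotate, H => rot H
  | Move.square, H => sq H

/-- The subgroup of the dessin `γ₁ ∘ ⋯ ∘ γₙ ∘ β`, where `γ₁, ..., γₙ` are the members of the
list `w`, if `H` is the subgroup of `β`. -/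
noncomputable def compose : List Move → Subgroup (FHat 2) → Subgroup (FHat 2)
  | [], H => H
  | γ :: w, H => γ.apply (compose w H)

end MPb66790
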