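import Pool.Agent.Lib.MP_b66790_nt.ModB

/-!
# Modules D1, D2, D3: the kernel of `rho`
-/

namespace MPb66790

open Function

section model

variable (Q : Type) [Group Q]

/-- The action of `σ₁`. -/
def t0Z : Equiv.Perm (Q × Q → Q) where
  toFun F ab := F (ab.1, ab.2 * ab.1⁻¹)
  invFun F ab := F (ab.1, ab.2 * ab.1)
  left_inv F := by funext ab; simp
  right_inv F := by funext ab; simp

/-- The action of `σ₂`. -/
def t1Z : Equiv.Perm (Q × Q → Q) where
  toFun F ab := F (ab.2, ab.2 * ab.1⁻¹ * ab.2)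
  invFun F ab := F (ab.1 * ab.2⁻¹ * ab.1, ab.1)
  left_inv F := by funext ab; simp [mul_assoc]
  right_inv F := by funext ab; simp [mul_assoc]

/-- The action of `σ₃`. -/
def t2Z : Equiv.Perm (Q × Q → Q) where
  toFun F ab := ab.1⁻¹ * F (ab.1, ab.2 * ab.1⁻¹)
  invFun F ab := ab.1 * F (ab.1, ab.2 * ab.1)
  left_inv F := by funext ab; simp
  right_inv F := by funext ab; simp

theorem isBraid_tZ : IsBraid ![t0Z Q, t1Z Q, t2Z Q] := by
  refine ⟨Equiv.ext fun F => funext fun ab => ?_, Equiv.ext fun F => funext fun ab => ?_,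
    Equiv.ext fun F => funext fun ab => ?_⟩
  · change F (ab.2 * ab.1⁻¹, ab.2 * ab.1⁻¹ * ab.1⁻¹ * (ab.2 * ab.1⁻¹) * (ab.2 * ab.1⁻¹)⁻¹) =
      F (ab.2 * ab.1⁻¹ * ab.2 * ab.2⁻¹, ab.2 * ab.1⁻¹ * ab.2 * ab.2⁻¹ * ab.2⁻¹ *
        (ab.2 * ab.1⁻¹ * ab.2 * ab.2⁻¹))
    congr 2 <;> group
  · change ab.2⁻¹ * F (ab.2 * ab.1⁻¹ * ab.2 * ab.2⁻¹, ab.2 * ab.1⁻¹ * ab.2 * ab.2⁻¹ * ab.2⁻¹ *
        (ab.2 * ab.1⁻¹ * ab.2 * ab.2⁻¹)) =
      ab.1⁻¹ * ((ab.2 * ab.1⁻¹)⁻¹ *
        F (ab.2 * ab.1⁻¹, ab.2 * ab.1⁻¹ * ab.1⁻¹ * (ab.2 * ab.1⁻¹) * (ab.2 * ab.1⁻¹)⁻¹))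
    have key : ∀ x y z : Q, x⁻¹ * ((y * x⁻¹)⁻¹ * z) = y⁻¹ * z := fun x y z => by group
    rw [key]
    congr 3 <;> group
  · rfl

theorem t0Z_t2Z : t0Z Q * (t2Z Q)⁻¹ = pZ Q := by
  refine Equiv.ext fun F => funext fun ab => ?_
  change ab.1 * F (ab.1, ab.2 * ab.1⁻¹ * ab.1) = ab.1 * F ab
  rw [inv_mul_cancel_right]

theorem t1Z_pZ : t1Z Q * pZ Q * (t1Z Q)⁻¹ = rZ Q := by
  refine Equiv.ext fun F => funext fun ab => ?_
  change ab.2 * F (ab.2 * (ab.2 * ab.1⁻¹ * ab.2)⁻¹ * ab.2, ab.2) = ab.2 * F ab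
  congr 2
  refine Prod.ext ?_ rfl
  change ab.2 * (ab.2 * ab.1⁻¹ * ab.2)⁻¹ * ab.2 = ab.1
  group

end model

/-- MODULE D1. -/
theorem stD1 : StD1 := by
  have key : ∀ w : FHat 2, jMap w = 1 → w = 1 := by
    intro w hw
    refine FHat.eq_of_forall fun Q _ _ v => ?_
    rw [map_one]
    have h1 := evBF_ev (isBraid_tZ Q) ![pB, rB] w
    change evBF (isBraid_tZ Q) (jMap w) = _ at h1
    rw [hw, map_one] at h1
    have h2 : (fun i => evBF (isBraid_tZ Q) ((![pB, rB] : Fin 2 → Hat Braid4) i)) =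
        ![pZ Q, rZ Q] := by
      have h3 : evBF (isBraid_tZ Q) pB = pZ Q := by
        unfold pB
        rw [map_mul, map_inv, evBF_s, evBF_s]
        exact t0Z_t2Z Q
      funext i
      fin_cases i
      · exact h3
      · change evBF (isBraid_tZ Q) rB = rZ Q
        unfold rB
        rw [map_mul, map_mul, map_inv, h3, evBF_s]
        exact t1Z_pZ Q
    rw [h2] at h1
    have h4 := congrFun (DFunLike.congr_fun h1 (1 : Q × Q → Q)) (v 0, v 1)
    rw [evF_Z] at h4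
    change 1 = evF ![v 0, v 1] w * 1 at h4
    rw [mul_one] at h4
    rw [h4]
    congr 2
    funext i
    fin_cases i <;> rfl
  intro w w' h
  have h1 : jMap (w * w'⁻¹) = 1 := by rw [map_mul, map_inv, h, mul_inv_cancel]
  exact mul_inv_eq_one.1 (key _ h1)

section closed

variable {n : ℕ} {G : Type} [Group G] [TopologicalSpace G] [IsTopologicalGroup G] [CompactSpace G]
  [TotallyDisconnectedSpace G]

/-- Values at elements of a closed subgroup are in the subgroup. -/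
theorem ev_mem {v : Fin n → G} {S : Subgroup G} (hS : IsClosed (S : Set G)) (h : ∀ i, v i ∈ S)
    (w : FHat n) : ev v w ∈ S := by
  refine hat_induction (S := {w : FHat n | ev v w ∈ S}) (hS.preimage (ev v).continuous_toFun) ?_ w
  intro g
  change lft (FreeGroup.lift v) (of g) ∈ S
  rw [lft_of]
  have h1 : (FreeGroup.lift v).range ≤ S := by
    rw [MonoidHom.range_eq_map, ← FreeGroup.closure_range_of, MonoidHom.map_closure,
      Subgroup.closure_le]
    rintro _ ⟨_, ⟨i, rfl⟩, rfl⟩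
    rw [SetLike.mem_coe, FreeGroup.lift_apply_of]
    exact h i
  exact h1 ⟨g, rfl⟩

/-- A closed subgroup containing the generators is everything. -/
theorem braid_mem {S : Subgroup (Hat Braid4)} (hS : IsClosed (S : Set (Hat Braid4)))
    (h : ∀ i, s i ∈ S) (x : Hat Braid4) : x ∈ S := by
  refine hat_induction (S := (S : Set (Hat Braid4))) hS (fun g => ?_) x
  have h1 : (of : Braid4 →* Hat Braid4).range ≤ S := by
    rw [MonoidHom.range_eq_map, ← PresentedGroup.closure_range_of, MonoidHom.map_closure,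
      Subgroup.closure_le]
    rintro _ ⟨_, ⟨i, rfl⟩, rfl⟩
    exact h i
  exact h1 ⟨g, rfl⟩

end closed

section words

variable {G : Type} [Group G] {a b c : G}

theorem w_inv (h : a * b * a = b * a * b) : a⁻¹ * b * a = b * a * b⁻¹ :=
  calc a⁻¹ * b * a = a⁻¹ * (b * a * b) * b⁻¹ := by group
    _ = a⁻¹ * (a * b * a) * b⁻¹ := by rw [h]
    _ = b * a * b⁻¹ := by group

/-- `s0 r s0⁻¹ = r p⁻¹`. -/
theorem w_a_r (h1 : a * b * a = b * a * b) (h2 : b * c * b = c * b * c) :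
    a * (b * (a * c⁻¹) * b⁻¹) * a⁻¹ = b * (a * c⁻¹) * b⁻¹ * (a * c⁻¹)⁻¹ := by
  have h3 : c⁻¹ * b * c = b * c * b⁻¹ := w_inv h2.symm
  have h4 : b * c⁻¹ * b⁻¹ = c⁻¹ * b⁻¹ * c := by
    have := congrArg (·⁻¹) h3
    simp only [mul_inv_rev, inv_inv] at this
    rw [mul_assoc, ← this, mul_assoc]
  calc a * (b * (a * c⁻¹) * b⁻¹) * a⁻¹ = (a * b * a) * c⁻¹ * b⁻¹ * a⁻¹ := by group
    _ = b * a * (b * c⁻¹ * b⁻¹) * a⁻¹ := by rw [h1]; group
    _ = _ := by rw [h4]; group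

/-- `s1⁻¹ p s1 = p r⁻¹ p`. -/
theorem w_b_p (h1 : a * b * a = b * a * b) (h2 : b * c * b = c * b * c) (h3 : a * c = c * a) :
    b⁻¹ * (a * c⁻¹) * b = (a * c⁻¹) * (b * (a * c⁻¹) * b⁻¹)⁻¹ * (a * c⁻¹) := by
  have e1 : c⁻¹ * b * c = b * c * b⁻¹ := w_inv h2.symm
  have e2 : a⁻¹ * b⁻¹ * a = b * a⁻¹ * b⁻¹ := by
    have := congrArg (·⁻¹) (w_inv h1)
    simp only [mul_inv_rev, inv_inv] at this
    rw [mul_assoc, this, mul_assoc]
  have e3 : c * a⁻¹ = a⁻¹ * c := by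
    rw [eq_inv_mul_iff_mul_eq, ← mul_assoc, h3, mul_inv_cancel_right]
  have e4 : a * b * a⁻¹ = b⁻¹ * a * b :=
    calc a * b * a⁻¹ = b⁻¹ * (b * a * b) * a⁻¹ := by group
      _ = b⁻¹ * (a * b * a) * a⁻¹ := by rw [h1]
      _ = _ := by group
  have e5 : c * b⁻¹ * c⁻¹ = b⁻¹ * c⁻¹ * b := by
    rw [mul_inv_eq_iff_eq_mul, mul_assoc, mul_assoc, eq_inv_mul_iff_mul_eq]
    have : b * c * b⁻¹ = c⁻¹ * b * c := e1.symm
    rw [← mul_assoc, this, mul_assoc]
  calc b⁻¹ * (a * c⁻¹) * b = (b⁻¹ * a * b) * (b⁻¹ * c⁻¹ * b) := by group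
    _ = (a * b * a⁻¹) * (c * b⁻¹ * c⁻¹) := by rw [e4, e5]
    _ = a * b * (a⁻¹ * c) * b⁻¹ * c⁻¹ := by group
    _ = a * (b * c * b⁻¹) * (b * a⁻¹ * b⁻¹) * c⁻¹ := by rw [← e3]; group
    _ = a * (c⁻¹ * b * c) * (a⁻¹ * b⁻¹ * a) * c⁻¹ := by rw [e1, e2]
    _ = _ := by group

/-- Garside's element and the generators. -/
theorem dl_a (h1 : a * b * a = b * a * b) (h2 : b * c * b = c * b * c) (h3 : a * c = c * a) :
    (a * b * a * c * b * a) * a = c * (a * b * a * c * b * a) :=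
  calc (a * b * a * c * b * a) * a = a * b * (a * c) * b * a * a := by group
    _ = a * b * c * (a * b * a) * a := by rw [h3]; group
    _ = a * (b * c * b) * a * b * a := by rw [h1]; group
    _ = (a * c) * b * (c * a) * b * a := by rw [h2]; group
    _ = (c * a) * b * (a * c) * b * a := by rw [h3]
    _ = c * (a * b * a * c * b * a) := by group

theorem dl_b (h1 : a * b * a = b * a * b) (h3 : a * c = c * a) :
    (a * b * a * c * b * a) * b = b * (a * b * a * c * b * a) :=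
  calc (a * b * a * c * b * a) * b = a * b * a * c * (b * a * b) := by group
    _ = a * b * a * (c * a) * b * a := by rw [← h1]; group
    _ = (a * b * a) * a * c * b * a := by rw [← h3]; group
    _ = (b * a * b) * a * c * b * a := by rw [h1]
    _ = b * (a * b * a * c * b * a) := by group

theorem dl_c (h1 : a * b * a = b * a * b) (h2 : b * c * b = c * b * c) (h3 : a * c = c * a) :
    (a * b * a * c * b * a) * c = a * (a * b * a * c * b * a) :=
  calc (a * b * a * c * b * a) * c = a * b * a * c * b * (a * c) := by group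
    _ = a * b * a * (c * b * c) * a := by rw [h3]; group
    _ = a * (b * a * b) * c * b * a := by rw [← h2]; group
    _ = a * (a * b * a * c * b * a) := by rw [← h1]; group

end words

/-- MODULE D2. -/
theorem stD2 : StD2 := by
  obtain ⟨h1, h2, h3⟩ := isBraid_s
  have hJcl : IsClosed (jMap.toMonoidHom.range : Set (Hat Braid4)) := by
    rw [MonoidHom.coe_range]
    exact (isCompact_range jMap.continuous_toFun).isClosed
  have hpJ : pB ∈ jMap.toMonoidHom.range := ⟨gen 0, ev_gen _ _⟩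
  have hrJ : rB ∈ jMap.toMonoidHom.range := ⟨gen 1, ev_gen _ _⟩
  -- conjugation of the range
  have hconj : ∀ g : Hat Braid4, g * pB * g⁻¹ ∈ jMap.toMonoidHom.range →
      g * rB * g⁻¹ ∈ jMap.toMonoidHom.range → ∀ j ∈ jMap.toMonoidHom.range,
      g * j * g⁻¹ ∈ jMap.toMonoidHom.range := by
    rintro g hp hr _ ⟨w, rfl⟩
    change g * ev ![pB, rB] w * g⁻¹ ∈ _
    rw [conj_ev]
    refine ev_mem hJcl (fun i => ?_) w
    fin_cases i
    · exact hp
    · exact hr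
  have c0 : s 0 * pB * (s 0)⁻¹ = pB := by
    have e : s 0 * (s 2)⁻¹ = (s 2)⁻¹ * s 0 := by
      rw [eq_inv_mul_iff_mul_eq, ← mul_assoc, ← h3, mul_inv_cancel_right]
    calc s 0 * (s 0 * (s 2)⁻¹) * (s 0)⁻¹ = s 0 * ((s 2)⁻¹ * s 0) * (s 0)⁻¹ := by rw [e]
      _ = s 0 * (s 2)⁻¹ := by group
  have c1 : s 0 * rB * (s 0)⁻¹ = rB * pB⁻¹ := w_a_r h1 h2
  have c1' : (s 0)⁻¹ * rB * (s 0)⁻¹⁻¹ = rB * pB := by
    rw [inv_inv]
    have e1 : s 0 * rB = rB * pB⁻¹ * s 0 := mul_inv_eq_iff_eq_mul.1 c1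
    have e2 : s 0 * pB = pB * s 0 := mul_inv_eq_iff_eq_mul.1 c0
    rw [mul_assoc, inv_mul_eq_iff_eq_mul, ← mul_assoc, e1, mul_assoc (rB * pB⁻¹), e2]
    group
  have c2 : s 1 * pB * (s 1)⁻¹ = rB := rfl
  have c3 : (s 1)⁻¹ * pB * (s 1)⁻¹⁻¹ = pB * rB⁻¹ * pB := by
    rw [inv_inv]
    exact w_b_p h1 h2 h3
  have c4 : s 1 * rB * (s 1)⁻¹ = rB * pB⁻¹ * rB := by
    have e1 := congrArg (fun x => s 1 * x * (s 1)⁻¹) c3
    simp only [inv_inv] at e1
    have e2 : s 1 * (pB * rB⁻¹ * pB) * (s 1)⁻¹ = rB * (s 1 * rB * (s 1)⁻¹)⁻¹ * rB := by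
      unfold rB
      group
    rw [e2] at e1
    have e3 : s 1 * ((s 1)⁻¹ * pB * s 1) * (s 1)⁻¹ = pB := by group
    rw [e3] at e1
    rw [e1]
    group
  have c5 : (s 1)⁻¹ * rB * (s 1)⁻¹⁻¹ = pB := by
    unfold rB
    group
  -- the normaliser
  let U : Subgroup (Hat Braid4) :=
    { carrier := {g | ∀ j ∈ jMap.toMonoidHom.range, g * j * g⁻¹ ∈ jMap.toMonoidHom.range ∧
        g⁻¹ * j * g ∈ jMap.toMonoidHom.range}
      one_mem' := fun j hj => by simpa using hj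
      mul_mem' := by
        intro x y hx hy j hj
        refine ⟨?_, ?_⟩
        · have := (hx _ (hy j hj).1).1
          rwa [show x * (y * j * y⁻¹) * x⁻¹ = x * y * j * (x * y)⁻¹ by group] at this
        · have := (hy _ (hx j hj).2).2
          rwa [show y⁻¹ * (x⁻¹ * j * x) * y = (x * y)⁻¹ * j * (x * y) by group] at this
      inv_mem' := by
        intro x hx j hj
        rw [inv_inv]
        exact (hx j hj).symm }
  have hUcl : IsClosed (U : Set (Hat Braid4)) := by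
    have : (U : Set (Hat Braid4)) = ⋂ j ∈ jMap.toMonoidHom.range,
        ((fun g => g * j * g⁻¹) ⁻¹' (jMap.toMonoidHom.range : Set (Hat Braid4)) ∩
          (fun g => g⁻¹ * j * g) ⁻¹' (jMap.toMonoidHom.range : Set (Hat Braid4))) := by
      ext g
      simp only [Set.mem_iInter, Set.mem_inter_iff, Set.mem_preimage, SetLike.mem_coe]
      rfl
    rw [this]
    refine isClosed_biInter fun j _ => ?_
    exact (hJcl.preimage ((continuous_id.mul continuous_const).mul continuous_id.inv)).inter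
      (hJcl.preimage ((continuous_id.inv.mul continuous_const).mul continuous_id))
  have hUall : ∀ x, x ∈ U := by
    have hU0 : s 0 ∈ U := by
      intro j hj
      refine ⟨hconj _ (by rw [c0]; exact hpJ) (by rw [c1]; exact mul_mem hrJ (inv_mem hpJ)) j hj, ?_⟩
      have h5 : (s 0)⁻¹ * pB * (s 0)⁻¹⁻¹ = pB := by
        rw [inv_inv, mul_assoc, inv_mul_eq_iff_eq_mul]
        exact (mul_inv_eq_iff_eq_mul.1 c0).symm
      have h6 := hconj (s 0)⁻¹ (by rw [h5]; exact hpJ) (by rw [c1']; exact mul_mem hrJ hpJ) j hj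
      rwa [inv_inv] at h6
    have hU1 : s 1 ∈ U := by
      intro j hj
      refine ⟨hconj _ (by rw [c2]; exact hrJ)
        (by rw [c4]; exact mul_mem (mul_mem hrJ (inv_mem hpJ)) hrJ) j hj, ?_⟩
      have h6 := hconj (s 1)⁻¹ (by rw [c3]; exact mul_mem (mul_mem hpJ (inv_mem hrJ)) hpJ)
        (by rw [c5]; exact hpJ) j hj
      rwa [inv_inv] at h6
    refine braid_mem hUcl fun i => ?_
    fin_cases i
    · exact hU0
    · exact hU1
    · have h7 : s 2 = pB⁻¹ * s 0 := by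
        unfold pB
        group
      change s 2 ∈ U
      rw [h7]
      refine U.mul_mem (U.inv_mem ?_) hU0
      intro j hj
      exact ⟨mul_mem (mul_mem hpJ hj) (inv_mem hpJ), mul_mem (mul_mem (inv_mem hpJ) hj) hpJ⟩
  have hnorm : ∀ g j, j ∈ jMap.toMonoidHom.range → g * j * g⁻¹ ∈ jMap.toMonoidHom.range :=
    fun g j hj => (hUall g j hj).1
  -- `g (rho g)⁻¹` is in the range
  let W : Subgroup (Hat Braid4) :=
    { carrier := {g | g * (rho g)⁻¹ ∈ jMap.toMonoidHom.range}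
      one_mem' := by
        change 1 * (rho 1)⁻¹ ∈ jMap.toMonoidHom.range
        rw [map_one, inv_one, mul_one]
        exact one_mem _
      mul_mem' := by
        intro x y hx hy
        have h5 := mul_mem (hnorm x _ hy) hx
        change x * y * (rho (x * y))⁻¹ ∈ jMap.toMonoidHom.range
        rw [map_mul, mul_inv_rev]
        rwa [show x * (y * (rho y)⁻¹) * x⁻¹ * (x * (rho x)⁻¹) = x * y * ((rho y)⁻¹ * (rho x)⁻¹) by
          group] at h5
      inv_mem' := by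
        intro x hx
        have h5 := hnorm x⁻¹ _ (inv_mem hx)
        change x⁻¹ * (rho x⁻¹)⁻¹ ∈ jMap.toMonoidHom.range
        rw [map_inv, inv_inv]
        rwa [show x⁻¹ * (x * (rho x)⁻¹)⁻¹ * x⁻¹⁻¹ = x⁻¹ * rho x by group] at h5 }
  have hWcl : IsClosed (W : Set (Hat Braid4)) :=
    hJcl.preimage (continuous_id.mul rho.continuous_toFun.inv)
  have hWall : ∀ x, x ∈ W := by
    refine braid_mem hWcl fun i => ?_
    change s i * (rho (s i))⁻¹ ∈ jMap.toMonoidHom.range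
    unfold rho
    rw [evB_s]
    fin_cases i
    · change s 0 * (s 0)⁻¹ ∈ jMap.toMonoidHom.range
      rw [mul_inv_cancel]
      exact one_mem _
    · change s 1 * (s 1)⁻¹ ∈ jMap.toMonoidHom.range
      rw [mul_inv_cancel]
      exact one_mem _
    · change s 2 * (s 0)⁻¹ ∈ jMap.toMonoidHom.range
      have h7 : s 2 * (s 0)⁻¹ = pB⁻¹ := by
        unfold pB
        group
      rw [h7]
      exact inv_mem hpJ
  intro g hg
  have h8 : g * (rho g)⁻¹ ∈ jMap.toMonoidHom.range := hWall g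
  rw [hg, inv_one, mul_one] at h8
  obtain ⟨w, hw⟩ := h8
  exact ⟨w, hw⟩

/-- MODULE D3. -/
theorem stD3 : StD3 := by
  obtain ⟨h1, h2, h3⟩ := isBraid_s
  intro w
  have ea : Dl * s 0 * Dl⁻¹ = s 2 := mul_inv_eq_iff_eq_mul.2 (dl_a h1 h2 h3)
  have eb : Dl * s 1 * Dl⁻¹ = s 1 := mul_inv_eq_iff_eq_mul.2 (dl_b h1 h3)
  have ec : Dl * s 2 * Dl⁻¹ = s 0 := mul_inv_eq_iff_eq_mul.2 (dl_c h1 h2 h3)
  have ep : Dl * pB * Dl⁻¹ = pB⁻¹ := by
    unfold pB
    calc Dl * (s 0 * (s 2)⁻¹) * Dl⁻¹ = (Dl * s 0 * Dl⁻¹) * (Dl * s 2 * Dl⁻¹)⁻¹ := by group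
      _ = s 2 * (s 0)⁻¹ := by rw [ea, ec]
      _ = _ := by group
  have er : Dl * rB * Dl⁻¹ = rB⁻¹ := by
    unfold rB
    calc Dl * (s 1 * pB * (s 1)⁻¹) * Dl⁻¹ =
        (Dl * s 1 * Dl⁻¹) * (Dl * pB * Dl⁻¹) * (Dl * s 1 * Dl⁻¹)⁻¹ := by group
      _ = s 1 * pB⁻¹ * (s 1)⁻¹ := by rw [eb, ep]
      _ = _ := by group
  change Dl * ev ![pB, rB] w * Dl⁻¹ = jMap (ev ![(gen 0)⁻¹, (gen 1)⁻¹] w)
  rw [conj_ev, map_ev]
  congr 2
  funext i
  fin_cases i
  · change Dl * pB * Dl⁻¹ = jMap (gen 0)⁻¹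
    rw [ep, map_inv]
    congr 1
    exact (ev_gen (![pB, rB] : Fin 2 → Hat Braid4) 0).symm
  · change Dl * rB * Dl⁻¹ = jMap (gen 1)⁻¹
    rw [er, map_inv]
    congr 1
    exact (ev_gen (![pB, rB] : Fin 2 → Hat Braid4) 1).symm

end MPb66790
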