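import Pool.Agent.Lib.MP_b66790_nt.Stmts

/-!
# Modules B and C: fixed points of `theta`, centralisers of generators
-/

namespace MPb66790

open Function

section common

variable {n : ℕ} {Q : Type} [Group Q] [Finite Q]

/-- Values at elements of a subgroup are in the subgroup. -/
theorem evF_mem {v : Fin n → Q} {S : Subgroup Q} (h : ∀ i, v i ∈ S) (w : FHat n) :
    evF v w ∈ S := by
  obtain ⟨g, hg⟩ := exists_word v w
  rw [hg]
  have h1 : (FreeGroup.lift v).range ≤ S := by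
    rw [MonoidHom.range_eq_map, ← FreeGroup.closure_range_of, MonoidHom.map_closure,
      Subgroup.closure_le]
    rintro _ ⟨_, ⟨i, rfl⟩, rfl⟩
    rw [SetLike.mem_coe, FreeGroup.lift_apply_of]
    exact h i
  exact h1 ⟨g, rfl⟩

/-- Equivariance passes to values. -/
theorem evF_equivariant {V W : Type} [Finite V] [Finite W] {v : Fin n → Equiv.Perm V}
    {u : Fin n → Equiv.Perm W} (π : V → W) (h : ∀ i z, π (v i z) = u i (π z)) (w : FHat n) (z : V) :
    π (evF v w z) = evF u w (π z) := by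
  let S : Subgroup (Equiv.Perm V × Equiv.Perm W) :=
    { carrier := {A | ∀ z, π (A.1 z) = A.2 (π z)}
      one_mem' := fun z => rfl
      mul_mem' := by
        intro a b ha hb z
        change π (a.1 (b.1 z)) = a.2 (b.2 (π z))
        rw [ha, hb]
      inv_mem' := by
        intro a ha z
        change π (a.1⁻¹ z) = a.2⁻¹ (π z)
        rw [Equiv.Perm.eq_inv_iff_eq, ← ha]
        congr 1
        exact a.1.apply_symm_apply z }
  have h1 : evF (fun i => ((v i, u i) : Equiv.Perm V × Equiv.Perm W)) w ∈ S := by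
    refine evF_mem (fun i => ?_) w
    exact fun z => h i z
  have h2 := evF_map (MonoidHom.fst (Equiv.Perm V) (Equiv.Perm W)) (fun i => (v i, u i)) w
  have h3 := evF_map (MonoidHom.snd (Equiv.Perm V) (Equiv.Perm W)) (fun i => (v i, u i)) w
  have h4 := h1 z
  change π (MonoidHom.fst _ _ (evF (fun i => ((v i, u i) : Equiv.Perm V × Equiv.Perm W)) w) z) =
    MonoidHom.snd _ _ (evF (fun i => ((v i, u i) : Equiv.Perm V × Equiv.Perm W)) w) (π z) at h4
  rw [h2, h3] at h4
  exact h4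

/-- Conjugation by an involution inverting `p` and `r`. -/
theorem conj_theta {c p r : Q} (hp : c * p * c⁻¹ = p⁻¹) (hr : c * r * c⁻¹ = r⁻¹) (w : FHat 2) :
    c * evF ![p, r] w * c⁻¹ = evF ![p, r] (theta w) := by
  have h1 := evF_map (MulAut.conj c).toMonoidHom ![p, r] w
  change c * evF ![p, r] w * c⁻¹ = _ at h1
  rw [h1, theta, evF_ev]
  congr 2
  funext i
  fin_cases i
  · change c * p * c⁻¹ = evF ![p, r] (gen 0)⁻¹
    rw [map_inv, evF_gen]
    exact hp
  · change c * r * c⁻¹ = evF ![p, r] (gen 1)⁻¹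
    rw [map_inv, evF_gen]
    exact hr

theorem conj_theta' {c0 c1 c2 : Q} (h0 : c0 * c0 = 1) (h1 : c1 * c1 = 1) (h2 : c2 * c2 = 1)
    (w : FHat 2) :
    c0 * evF ![c0 * c1, c0 * c2] w * c0⁻¹ = evF ![c0 * c1, c0 * c2] (theta w) := by
  have e0 : c0⁻¹ = c0 := inv_eq_of_mul_eq_one_left h0
  have e1 : c1⁻¹ = c1 := inv_eq_of_mul_eq_one_left h1
  have e2 : c2⁻¹ = c2 := inv_eq_of_mul_eq_one_left h2
  refine conj_theta ?_ ?_ w
  · rw [mul_inv_rev, e0, e1, ← mul_assoc, h0, one_mul]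
  · rw [mul_inv_rev, e0, e2, ← mul_assoc, h0, one_mul]

end common

section model

variable (Q : Type) [Group Q]

/-- `F ↦ F(a⁻¹, b⁻¹)`. -/
def c0Z : Equiv.Perm (Q × Q → Q) where
  toFun F ab := F (ab.1⁻¹, ab.2⁻¹)
  invFun F ab := F (ab.1⁻¹, ab.2⁻¹)
  left_inv F := by funext ab; simp
  right_inv F := by funext ab; simp

/-- `F ↦ a F(a, b)`. -/
def pZ : Equiv.Perm (Q × Q → Q) := MulAction.toPermHom (Q × Q → Q) (Q × Q → Q) Prod.fst

/-- `F ↦ b F(a, b)`. -/
def rZ : Equiv.Perm (Q × Q → Q) := MulAction.toPermHom (Q × Q → Q) (Q × Q → Q) Prod.snd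

theorem c0Z_sq : c0Z Q * c0Z Q = 1 := by
  refine Equiv.ext fun F => ?_
  exact (c0Z Q).left_inv F

theorem c0Z_inv : (c0Z Q)⁻¹ = c0Z Q := inv_eq_of_mul_eq_one_left (c0Z_sq Q)

theorem c0Z_p : c0Z Q * pZ Q * (c0Z Q)⁻¹ = (pZ Q)⁻¹ := by
  rw [c0Z_inv, eq_inv_iff_mul_eq_one]
  refine Equiv.ext fun F => ?_
  funext ab
  change ab.1⁻¹ * (ab.1⁻¹⁻¹ * F (ab.1⁻¹⁻¹, ab.2⁻¹⁻¹)) = F ab
  simp

theorem c0Z_r : c0Z Q * rZ Q * (c0Z Q)⁻¹ = (rZ Q)⁻¹ := by
  rw [c0Z_inv, eq_inv_iff_mul_eq_one]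
  refine Equiv.ext fun F => ?_
  funext ab
  change ab.2⁻¹ * (ab.2⁻¹⁻¹ * F (ab.1⁻¹⁻¹, ab.2⁻¹⁻¹)) = F ab
  simp

theorem evF_Z [Finite Q] (w : FHat 2) (F : Q × Q → Q) (ab : Q × Q) :
    evF ![pZ Q, rZ Q] w F ab = evF ![ab.1, ab.2] w * F ab := by
  have h1 : evF ![pZ Q, rZ Q] w = MulAction.toPermHom (Q × Q → Q) (Q × Q → Q)
      (evF ![Prod.fst, Prod.snd] w) := by
    rw [evF_map]
    congr 2
    funext i
    fin_cases i <;> rfl
  rw [h1]
  change evF ![Prod.fst, Prod.snd] w ab * F ab = _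
  congr 1
  have h2 := evF_map (Pi.evalMonoidHom (fun _ : Q × Q => Q) ab)
    (![Prod.fst, Prod.snd] : Fin 2 → (Q × Q → Q)) w
  change evF ![Prod.fst, Prod.snd] w ab = _ at h2
  rw [h2]
  congr 2
  funext i
  fin_cases i <;> rfl

end model

/-- MODULE B. -/
theorem stB : StB := by
  intro w hw
  by_contra hne
  obtain ⟨Q, i1, i2, v, hv⟩ := FHat.sep_one hne
  classical
  let x0 : Q × Q → Q := 1
  let x1 : Q × Q → Q := evF ![pZ Q, rZ Q] w x0
  have hx1 : x1 ≠ x0 := by
    intro h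
    have h1 := congrFun h (v 0, v 1)
    change evF ![pZ Q, rZ Q] w x0 (v 0, v 1) = 1 at h1
    rw [evF_Z] at h1
    change evF ![v 0, v 1] w * 1 = 1 at h1
    rw [mul_one] at h1
    apply hv
    rw [← h1]
    congr 2
    funext i
    fin_cases i <;> rfl
  have hc0 : c0Z Q x0 = x0 := rfl
  have hc1 : c0Z Q x1 = x1 := by
    have h1 := conj_theta (c0Z_p Q) (c0Z_r Q) w
    rw [hw] at h1
    have h2 := mul_inv_eq_iff_eq_mul.1 h1
    have h3 := DFunLike.congr_fun h2 x0
    exact h3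
  have hcc : ∀ x, c0Z Q (c0Z Q x) = x := (c0Z Q).left_inv
  have hcx : ∀ x, c0Z Q x = x1 ↔ x = x1 := by
    intro x
    constructor
    · intro h
      rw [← hcc x, h, hc1]
    · rintro rfl
      exact hc1
  -- the double covering
  let C0 : Equiv.Perm ((Q × Q → Q) × Bool) :=
    { toFun := fun z => (c0Z Q z.1, xor z.2 (decide (z.1 = x1)))
      invFun := fun z => (c0Z Q z.1, xor z.2 (decide (z.1 = x1)))
      left_inv := fun z => by
        refine Prod.ext (hcc _) ?_
        change xor (xor z.2 (decide (z.1 = x1))) (decide (c0Z Q z.1 = x1)) = z.2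
        rw [decide_eq_decide.2 (hcx z.1)]
        cases z.2 <;> cases decide (z.1 = x1) <;> rfl
      right_inv := fun z => by
        refine Prod.ext (hcc _) ?_
        change xor (xor z.2 (decide (z.1 = x1))) (decide (c0Z Q z.1 = x1)) = z.2
        rw [decide_eq_decide.2 (hcx z.1)]
        cases z.2 <;> cases decide (z.1 = x1) <;> rfl }
  let L : Equiv.Perm (Q × Q → Q) →* Equiv.Perm ((Q × Q → Q) × Bool) :=
    { toFun := fun a => Equiv.prodCongr a (Equiv.refl Bool)
      map_one' := rfl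
      map_mul' := fun a b => rfl }
  have hC0 : C0 * C0 = 1 := Equiv.ext fun z => C0.left_inv z
  have inv : ∀ a : Equiv.Perm (Q × Q → Q), c0Z Q * a * (c0Z Q)⁻¹ = a⁻¹ →
      L (c0Z Q * a) * L (c0Z Q * a) = 1 := by
    intro a ha
    rw [← map_mul, ← map_one L]
    congr 1
    rw [c0Z_inv] at ha
    rw [← mul_assoc, ha, inv_mul_cancel]
  have hC1 := inv _ (c0Z_p Q)
  have hC2 := inv _ (c0Z_r Q)
  have hconj := conj_theta' hC0 hC1 hC2 w
  rw [hw, mul_inv_eq_iff_eq_mul] at hconj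
  have hproj : ∀ z, (evF ![C0 * L (c0Z Q * pZ Q), C0 * L (c0Z Q * rZ Q)] w z).1 =
      evF ![pZ Q, rZ Q] w z.1 := by
    intro z
    refine evF_equivariant Prod.fst (fun i z => ?_) w z
    fin_cases i
    · exact hcc (pZ Q z.1)
    · exact hcc (rZ Q z.1)
  have h1 := hproj (x0, false)
  obtain ⟨d, hd⟩ : ∃ d, evF ![C0 * L (c0Z Q * pZ Q), C0 * L (c0Z Q * rZ Q)] w (x0, false) =
      (x1, d) := ⟨_, Prod.ext h1 rfl⟩
  have h2 := DFunLike.congr_fun hconj (x0, false)
  rw [Equiv.Perm.mul_apply, Equiv.Perm.mul_apply, hd] at h2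
  have h3 : C0 (x0, false) = (x0, false) := by
    refine Prod.ext hc0 ?_
    change xor false (decide (x0 = x1)) = false
    rw [decide_eq_false (Ne.symm hx1)]
    rfl
  rw [h3, hd] at h2
  have h4 : xor d (decide (x1 = x1)) = d := congrArg Prod.snd h2
  rw [decide_eq_true rfl] at h4
  revert h4
  cases d <;> simp

/-- MODULE C. -/
theorem stC : StC := by
  intro w i hw
  by_contra hne
  push Not at hne
  have hcl : IsClosed (Set.range (fun e : ZHat => pow (gen i : FHat 2) e)) :=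
    (isCompact_range (ev (fun _ => (gen i : FHat 2))).continuous_toFun).isClosed
  have hnot : w ∉ Set.range (fun e : ZHat => pow (gen i : FHat 2) e) := by
    rintro ⟨e, he⟩
    exact hne e he.symm
  obtain ⟨Q, i1, i2, φ, hφ, hsep⟩ := sep hcl hnot
  classical
  let y0 : Q := φ (FreeGroup.of i)
  let W : Q := lftF φ w
  have hy0 : lftF φ (gen i) = y0 := lftF_of φ _
  have hcomm : W * y0 = y0 * W := by
    have h1 := congrArg (lftF φ) hw.eq
    rw [map_mul, map_mul, hy0] at h1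
    exact h1
  have hW : W ∉ Subgroup.zpowers y0 := by
    rintro ⟨k, hk⟩
    apply hsep (pow (gen i) (zgen ^ k)) ⟨_, rfl⟩
    have h1 : pow (gen i : FHat 2) (zgen ^ k) = gen i ^ k := by
      have h2 : pow (gen i : FHat 2) (zgen ^ k) = (pow (gen i : FHat 2) zgen) ^ k :=
        map_zpow (ev (fun _ => (gen i : FHat 2))).toMonoidHom zgen k
      rw [h2, pow_zgen]
    rw [h1, map_zpow, hy0]
    exact hk
  -- the double covering
  let x0 : Q ⧸ Subgroup.zpowers y0 := ((1 : Q) : Q ⧸ Subgroup.zpowers y0)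
  let x1 : Q ⧸ Subgroup.zpowers y0 := W • x0
  have hx0 : y0 • x0 = x0 := by
    change ((y0 * 1 : Q) : Q ⧸ Subgroup.zpowers y0) = _
    rw [mul_one]
    exact QuotientGroup.eq.2 (by simp)
  have hx1 : y0 • x1 = x1 := by
    change y0 • W • x0 = W • x0
    rw [← mul_smul, ← hcomm, mul_smul, hx0]
  have hx : x1 ≠ x0 := by
    intro h
    apply hW
    change ((W * 1 : Q) : Q ⧸ Subgroup.zpowers y0) = ((1 : Q) : Q ⧸ Subgroup.zpowers y0) at h
    rw [mul_one] at h
    have h2 := QuotientGroup.eq.1 h.symm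
    simpa using h2
  let A : Q →* Equiv.Perm (Q ⧸ Subgroup.zpowers y0) :=
    MulAction.toPermHom Q (Q ⧸ Subgroup.zpowers y0)
  let E : Equiv.Perm ((Q ⧸ Subgroup.zpowers y0) × Bool) :=
    { toFun := fun z => (z.1, xor z.2 (decide (z.1 = x1)))
      invFun := fun z => (z.1, xor z.2 (decide (z.1 = x1)))
      left_inv := fun z => by
        refine Prod.ext rfl ?_
        change xor (xor z.2 (decide (z.1 = x1))) (decide (z.1 = x1)) = z.2
        cases z.2 <;> cases decide (z.1 = x1) <;> rfl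
      right_inv := fun z => by
        refine Prod.ext rfl ?_
        change xor (xor z.2 (decide (z.1 = x1))) (decide (z.1 = x1)) = z.2
        cases z.2 <;> cases decide (z.1 = x1) <;> rfl }
  let v' : Fin 2 → Equiv.Perm ((Q ⧸ Subgroup.zpowers y0) × Bool) := fun j =>
    if j = i then (Equiv.prodCongr (A y0) (Equiv.refl Bool)) * E
    else Equiv.prodCongr (A (φ (FreeGroup.of j))) (Equiv.refl Bool)
  have hproj : ∀ z, (evF v' w z).1 = W • z.1 := by
    intro z
    have h1 := evF_equivariant (v := v') (u := fun j => A (φ (FreeGroup.of j))) Prod.fst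
      (fun j z => by
        by_cases hj : j = i
        · subst hj
          simp only [v', if_true]
          rfl
        · simp only [v', if_neg hj]
          rfl) w z
    rw [h1, ← evF_map, ← lftF_eq_evF]
    rfl
  have hv' : v' i = (Equiv.prodCongr (A y0) (Equiv.refl Bool)) * E := by
    simp only [v', if_true]
  obtain ⟨d, hd⟩ : ∃ d, evF v' w (x0, false) = (x1, d) := ⟨_, Prod.ext (hproj _) rfl⟩
  have hc : evF v' w * v' i = v' i * evF v' w := by
    have h1 := congrArg (evF v') hw.eq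
    rw [map_mul, map_mul, evF_gen] at h1
    exact h1
  have h2 := DFunLike.congr_fun hc (x0, false)
  rw [Equiv.Perm.mul_apply, Equiv.Perm.mul_apply, hd, hv'] at h2
  have h3 : ((Equiv.prodCongr (A y0) (Equiv.refl Bool)) * E) (x0, false) = (x0, false) := by
    refine Prod.ext hx0 ?_
    change xor false (decide (x0 = x1)) = false
    rw [decide_eq_false (Ne.symm hx)]
    rfl
  rw [h3, hd] at h2
  have h4 : d = xor d (decide (x1 = x1)) := congrArg Prod.snd h2
  rw [decide_eq_true rfl] at h4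
  revert h4
  cases d <;> simp

end MPb66790
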