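import Pool.Agent.Lib.MP_b66790_nt.ModA0
import Pool.Agent.Lib.MP_b66790_nt.ModB

/-!
# Module A: involutions in the profinite completion of `Z/2 * Z/2 * Z/2`
-/

namespace MPb66790

open Function

theorem theta_theta (w : FHat 2) : theta (theta w) = w := by
  have h : theta (theta w) = ev (fun i : Fin 2 => (gen i : FHat 2)) w := by
    have h1 := map_ev theta ![(gen 0)⁻¹, (gen 1)⁻¹] w
    change theta (theta w) = _ at h1
    rw [h1]
    congr 2
    funext i
    have h0 : theta (gen 0) = (gen 0)⁻¹ := ev_gen _ _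
    have h2 : theta (gen 1) = (gen 1)⁻¹ := ev_gen _ _
    fin_cases i
    · change theta (gen 0)⁻¹ = gen 0
      rw [map_inv, h0, inv_inv]
    · change theta (gen 1)⁻¹ = gen 1
      rw [map_inv, h2, inv_inv]
  rw [h, ev_gen_self]

/-- The images of the elements `1, p, r`. -/
noncomputable def eps3 : Fin 3 → FHat 2 := ![1, gen 0, gen 1]

section dihedral

variable {Q : Type} [Group Q] [Finite Q] (c : Fin 3 → Q)

/-- The map from the free profinite group given by three involutions. -/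
noncomputable def rhoF : FHat 2 →* Q := evF ![c 0 * c 1, c 0 * c 2]

theorem rhoF_conj (hc : ∀ i, c i * c i = 1) (w : FHat 2) :
    c 0 * rhoF c w * (c 0)⁻¹ = rhoF c (theta w) :=
  conj_theta' (hc 0) (hc 1) (hc 2) w

theorem rhoF_conj' (hc : ∀ i, c i * c i = 1) (w : FHat 2) :
    c 0 * rhoF c w = rhoF c (theta w) * c 0 := by
  rw [← rhoF_conj c hc, inv_mul_cancel_right]

theorem rhoF_eps (hc : ∀ i, c i * c i = 1) (i : Fin 3) : c 0 * rhoF c (eps3 i) = c i := by
  fin_cases i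
  · change c 0 * rhoF c 1 = c 0
    rw [map_one, mul_one]
  · change c 0 * evF ![c 0 * c 1, c 0 * c 2] (gen 0) = c 1
    rw [evF_gen]
    change c 0 * (c 0 * c 1) = c 1
    rw [← mul_assoc, hc, one_mul]
  · change c 0 * evF ![c 0 * c 1, c 0 * c 2] (gen 1) = c 2
    rw [evF_gen]
    change c 0 * (c 0 * c 2) = c 2
    rw [← mul_assoc, hc, one_mul]

theorem rhoF_sq (hc : ∀ i, c i * c i = 1) {w : FHat 2} (hw : theta w * w = 1) :
    c 0 * rhoF c w * (c 0 * rhoF c w) = 1 :=
  calc c 0 * rhoF c w * (c 0 * rhoF c w) = rhoF c (theta w) * c 0 * (c 0 * rhoF c w) := by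
        rw [← rhoF_conj' c hc]
    _ = rhoF c (theta w) * (c 0 * c 0) * rhoF c w := by group
    _ = 1 := by rw [hc, mul_one, ← map_mul, hw, map_one]

/-- The elements of the group generated by the three involutions. -/
def dih (hc : ∀ i, c i * c i = 1) : Subgroup Q where
  carrier := {g | ∃ u, g = rhoF c u ∨ g = c 0 * rhoF c u}
  one_mem' := ⟨1, Or.inl (map_one _).symm⟩
  mul_mem' := by
    rintro a b ⟨u, rfl | rfl⟩ ⟨v, rfl | rfl⟩
    · exact ⟨u * v, Or.inl (map_mul _ _ _).symm⟩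
    · refine ⟨theta u * v, Or.inr ?_⟩
      have h := rhoF_conj' c hc (theta u)
      rw [theta_theta] at h
      rw [map_mul, ← mul_assoc, ← mul_assoc, h]
    · exact ⟨u * v, Or.inr (by rw [map_mul, mul_assoc])⟩
    · refine ⟨theta u * v, Or.inl ?_⟩
      rw [rhoF_conj' c hc, map_mul, mul_assoc, ← mul_assoc (c 0), hc, one_mul]
  inv_mem' := by
    rintro a ⟨u, rfl | rfl⟩
    · exact ⟨u⁻¹, Or.inl (map_inv _ _).symm⟩
    · refine ⟨theta u⁻¹, Or.inr ?_⟩
      have e0 : (c 0)⁻¹ = c 0 := inv_eq_of_mul_eq_one_left (hc 0)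
      rw [mul_inv_rev, e0, ← map_inv]
      have h := rhoF_conj' c hc (theta u⁻¹)
      rw [theta_theta] at h
      exact h.symm

theorem mem_dih (hc : ∀ i, c i * c i = 1) (i : Fin 3) : c i ∈ dih c hc :=
  ⟨eps3 i, Or.inr (rhoF_eps c hc i).symm⟩

/-- A conjugate of `c i` under the group generated by the three involutions. -/
theorem conj_dih (hc : ∀ i, c i * c i = 1) (i : Fin 3) {g : Q} (hg : g ∈ dih c hc) :
    ∃ v, g * c i * g⁻¹ = c 0 * rhoF c ((theta v)⁻¹ * eps3 i * v) := by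
  have key : ∀ u, rhoF c u * c i * (rhoF c u)⁻¹ =
      c 0 * rhoF c ((theta u⁻¹)⁻¹ * eps3 i * u⁻¹) := by
    intro u
    have h := rhoF_conj' c hc (theta u)
    rw [theta_theta] at h
    rw [map_mul, map_mul, ← map_inv theta, inv_inv, map_inv, ← mul_assoc, ← mul_assoc, h,
      mul_assoc (rhoF c u) (c 0), rhoF_eps c hc]
  obtain ⟨u, rfl | rfl⟩ := hg
  · exact ⟨_, key u⟩
  · refine ⟨_, Eq.trans ?_ (key (theta u * eps3 i))⟩
    have h1 : c 0 * rhoF c u * c i = rhoF c (theta u * eps3 i) := by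
      rw [rhoF_conj' c hc, map_mul, mul_assoc, ← rhoF_eps c hc i, ← mul_assoc (c 0) (c 0), hc,
        one_mul]
    have h2 : c 0 * rhoF c u = rhoF c (theta u * eps3 i) * (c i)⁻¹ := by
      rw [← h1, mul_inv_cancel_right]
    rw [h1, h2, mul_inv_rev, inv_inv, mul_assoc]

end dihedral

/-- MODULE A. -/
theorem stA (hA0 : StA0) : StA := by
  intro w hw
  by_contra hne
  -- the closed set
  have hcl : IsClosed (⋃ i : Fin 3, Set.range (fun v : FHat 2 => (theta v)⁻¹ * eps3 i * v)) := by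
    refine isClosed_iUnion_of_finite fun i => ?_
    refine (isCompact_range ?_).isClosed
    exact ((theta.continuous_toFun.inv).mul continuous_const).mul continuous_id
  have hnot : w ∉ ⋃ i : Fin 3, Set.range (fun v : FHat 2 => (theta v)⁻¹ * eps3 i * v) := by
    intro h
    obtain ⟨i, v, hv⟩ := Set.mem_iUnion.1 h
    apply hne
    refine ⟨v, ?_⟩
    fin_cases i
    · left
      change (theta v)⁻¹ * 1 * v = w at hv
      rw [← hv, mul_one]
    · exact Or.inr (Or.inl hv.symm)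
    · exact Or.inr (Or.inr hv.symm)
  obtain ⟨Q, i1, i2, φ, hφ, hsep⟩ := sep hcl hnot
  classical
  let cZ : Fin 3 → Equiv.Perm (Q × Q → Q) := ![c0Z Q, c0Z Q * pZ Q, c0Z Q * rZ Q]
  have hcZ : ∀ i, cZ i * cZ i = 1 := by
    have inv : ∀ a : Equiv.Perm (Q × Q → Q), c0Z Q * a * (c0Z Q)⁻¹ = a⁻¹ →
        (c0Z Q * a) * (c0Z Q * a) = 1 := by
      intro a ha
      rw [c0Z_inv] at ha
      rw [← mul_assoc, ha, inv_mul_cancel]
    intro i
    fin_cases i
    · exact c0Z_sq Q
    · exact inv _ (c0Z_p Q)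
    · exact inv _ (c0Z_r Q)
  have hrho : ∀ u, rhoF cZ u = evF ![pZ Q, rZ Q] u := by
    intro u
    unfold rhoF
    congr 2
    funext i
    fin_cases i
    · change c0Z Q * (c0Z Q * pZ Q) = pZ Q
      rw [← mul_assoc, c0Z_sq, one_mul]
    · change c0Z Q * (c0Z Q * rZ Q) = rZ Q
      rw [← mul_assoc, c0Z_sq, one_mul]
  -- evaluation at the constant function one
  have heval : ∀ u u' : FHat 2, rhoF cZ u = rhoF cZ u' → lftF φ u = lftF φ u' := by
    intro u u' h
    rw [hrho, hrho] at h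
    have h1 := congrFun (DFunLike.congr_fun h (1 : Q × Q → Q))
      (φ (FreeGroup.of 0), φ (FreeGroup.of 1))
    rw [evF_Z, evF_Z] at h1
    change _ * 1 = _ * 1 at h1
    rw [mul_one, mul_one] at h1
    rw [lftF_eq_evF, lftF_eq_evF]
    have h2 : (fun i : Fin 2 => φ (FreeGroup.of i)) = ![φ (FreeGroup.of 0), φ (FreeGroup.of 1)] := by
      funext i
      fin_cases i <;> rfl
    rw [h2]
    exact h1
  -- the group
  let G0 : Subgroup (Equiv.Perm (Q × Q → Q)) := dih cZ hcZ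
  let c : Fin 3 → G0 × ℤˣ := fun i => (⟨cZ i, mem_dih cZ hcZ i⟩, -1)
  have hc : ∀ i, c i * c i = 1 := by
    intro i
    refine Prod.ext (Subtype.ext (hcZ i)) ?_
    rfl
  let t : G0 × ℤˣ := c 0 * rhoF c w
  have htt : t * t = 1 := by
    exact rhoF_sq c hc hw
  have hsnd : ∀ u, (rhoF c u).2 = 1 := by
    intro u
    have h1 := evF_map (MonoidHom.snd G0 ℤˣ) ![c 0 * c 1, c 0 * c 2] u
    change (rhoF c u).2 = _ at h1
    rw [h1]
    have h2 : evF (fun i => MonoidHom.snd G0 ℤˣ (![c 0 * c 1, c 0 * c 2] i)) u ∈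
        (⊥ : Subgroup ℤˣ) := by
      refine evF_mem (fun i => ?_) u
      fin_cases i
      · rfl
      · rfl
    exact h2
  have hfst : ∀ u, ((rhoF c u).1 : Equiv.Perm (Q × Q → Q)) = rhoF cZ u := by
    intro u
    have h1 := evF_map (G0.subtype.comp (MonoidHom.fst G0 ℤˣ)) ![c 0 * c 1, c 0 * c 2] u
    change ((rhoF c u).1 : Equiv.Perm (Q × Q → Q)) = _ at h1
    rw [h1]
    unfold rhoF
    congr 2
    funext i
    fin_cases i
    · rfl
    · rfl
  have ht1 : t ≠ 1 := by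
    intro h
    have h1 := congrArg Prod.snd h
    change (-1 : ℤˣ) * (rhoF c w).2 = 1 at h1
    rw [hsnd, mul_one] at h1
    revert h1
    decide
  have hconj : ∀ i g, g * c i * g⁻¹ ≠ t := by
    intro i g h
    have h1 := congrArg (fun x : G0 × ℤˣ => (x.1 : Equiv.Perm (Q × Q → Q))) h
    change (g.1 : Equiv.Perm (Q × Q → Q)) * cZ i * (g.1 : Equiv.Perm (Q × Q → Q))⁻¹ =
      cZ 0 * ((rhoF c w).1 : Equiv.Perm (Q × Q → Q)) at h1
    obtain ⟨v, hv⟩ := conj_dih cZ hcZ i g.1.2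
    rw [hv, hfst] at h1
    have h2 := heval _ _ (mul_left_cancel h1)
    exact hsep _ (Set.mem_iUnion.2 ⟨i, v, rfl⟩) h2
  obtain ⟨V, iV, C, τ, π, hπ, hCC, hCτ, hπC, hπτ, hττ, hτ4, hfib⟩ := hA0 (G0 × ℤˣ) c t hc htt ht1 hconj
  -- the lifted involution
  let T : Equiv.Perm V := C 0 * rhoF C w
  have hT : T * T = 1 := by
    exact rhoF_sq C hCC hw
  have hTτ : Commute T τ := by
    refine Commute.mul_left (hCτ 0) ?_
    have h1 : rhoF C w ∈ Subgroup.centralizer ({τ} : Set (Equiv.Perm V)) := by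
      refine evF_mem (fun i => ?_) w
      rw [Subgroup.mem_centralizer_singleton_iff]
      fin_cases i
      · exact ((hCτ 0).mul_left (hCτ 1)).eq
      · exact ((hCτ 0).mul_left (hCτ 2)).eq
    rw [Subgroup.mem_centralizer_singleton_iff] at h1
    exact h1
  have hπT : ∀ v, π (T v) = t * π v := by
    intro v
    change π (C 0 (rhoF C w v)) = c 0 * rhoF c w * π v
    rw [hπC, mul_assoc]
    congr 1
    have h1 := evF_equivariant (v := ![C 0 * C 1, C 0 * C 2])
      (u := fun i => MulAction.toPermHom (G0 × ℤˣ) (G0 × ℤˣ) (![c 0 * c 1, c 0 * c 2] i)) π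
      (fun i z => by
        fin_cases i
        · change π (C 0 (C 1 z)) = c 0 * c 1 * π z
          rw [hπC, hπC, mul_assoc]
        · change π (C 0 (C 2 z)) = c 0 * c 2 * π z
          rw [hπC, hπC, mul_assoc]) w v
    rw [← evF_map] at h1
    exact h1
  obtain ⟨v0, hv0⟩ := hπ 1
  have h1 : π (τ v0) = π (T v0) := by
    rw [hπτ, hπT, hv0, one_mul, mul_one]
  have hTT : T (T v0) = v0 := DFunLike.congr_fun hT v0
  have hTcomm : ∀ v, T (τ v) = τ (T v) := fun v => DFunLike.congr_fun hTτ.eq v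
  have h4 : ∀ v, τ (τ (τ (τ v))) = v := fun v => DFunLike.congr_fun hτ4 v
  rcases hfib _ _ h1 with h2 | h2
  · rw [h2, hTcomm, h2] at hTT
    exact hττ _ hTT
  · rw [h2, hTcomm, hTcomm, hTcomm, h2, h4] at hTT
    exact hττ _ hTT

end MPb66790
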