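import Pool.Agent.Lib.MP_b66790_nt.Stmts

/-!
# Module G: extension of homomorphisms from a subgroup of finite index to the completion
-/

namespace MPb66790

set_option linter.unusedSectionVars false

open Function

namespace ModG

variable {Γ S : Type} [Group Γ] [Group S] [Finite S] (π : Γ →* S)
  {G : Type} [Group G] [TopologicalSpace G] [IsTopologicalGroup G] [CompactSpace G]
  [TotallyDisconnectedSpace G] (φ : π.ker →* G)

/-- The graph of `φ` in the product. -/
noncomputable def gr : Subgroup (Hat Γ × G) :=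
  ((of.comp π.ker.subtype).prod φ).range

/-- Its closure. -/
noncomputable def K : Subgroup (Hat Γ × G) := (gr π φ).topologicalClosure

theorem K_closed : IsClosed (K π φ : Set (Hat Γ × G)) := Subgroup.isClosed_topologicalClosure _

theorem mem_K (g : Γ) (hg : g ∈ π.ker) : ((of g, φ ⟨g, hg⟩) : Hat Γ × G) ∈ K π φ :=
  Subgroup.le_topologicalClosure _ ⟨⟨g, hg⟩, rfl⟩

theorem K_induction {C : Set (Hat Γ × G)} (hC : IsClosed C)
    (h : ∀ (g : Γ) (hg : g ∈ π.ker), ((of g, φ ⟨g, hg⟩) : Hat Γ × G) ∈ C) {p : Hat Γ × G}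
    (hp : p ∈ K π φ) : p ∈ C := by
  have h1 : closure (gr π φ : Set (Hat Γ × G)) ⊆ C := by
    refine closure_minimal ?_ hC
    rintro _ ⟨⟨g, hg⟩, rfl⟩
    exact h g hg
  exact h1 hp

theorem exists_snd (x : Hat Γ) (hx : lftF π x = 1) : ∃ z : G, (x, z) ∈ K π φ := by
  have hP : IsClosed (Prod.fst '' (K π φ : Set (Hat Γ × G))) :=
    ((K_closed π φ).isCompact.image continuous_fst).isClosed
  have h : x ∈ (lftF π ⁻¹' ({1}ᶜ : Set S)) ∪ Prod.fst '' (K π φ : Set (Hat Γ × G)) := by
    refine hat_induction ((isClopen_lftF π _).isClosed.union hP) (fun g => ?_) x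
    by_cases hg : π g = 1
    · right
      exact ⟨_, mem_K π φ g hg, rfl⟩
    · left
      simpa using hg
  rcases h with h | h
  · exact absurd hx h
  · obtain ⟨⟨y, z⟩, h1, h2⟩ := h
    exact ⟨z, by rw [← h2]; exact h1⟩

theorem fst_ker {p : Hat Γ × G} (hp : p ∈ K π φ) : lftF π p.1 = 1 := by
  refine K_induction π φ (C := {p : Hat Γ × G | lftF π p.1 = 1}) ?_ (fun g hg => ?_) hp
  · exact ((isClopen_lftF π {1}).isClosed).preimage continuous_fst
  · show lftF π (of g) = 1
    rw [lftF_of]
    exact hg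

theorem snd_one {z : G} (hz : ((1, z) : Hat Γ × G) ∈ K π φ) : z = 1 := by
  by_contra hne
  obtain ⟨N, hN⟩ := ProfiniteGrp.exist_openNormalSubgroup_sub_open_nhds_of_one
    (G := G) (U := ({z}ᶜ : Set G)) isClosed_singleton.isOpen_compl (by simpa using Ne.symm hne)
  have hzN : z ∉ N.toSubgroup := fun h => hN h rfl
  have hNopen : IsOpen (N.toSubgroup : Set G) := N.isOpen'
  have hNclosed : IsClosed (N.toSubgroup : Set G) := Subgroup.isClosed_of_isOpen _ hNopen
  have hfi : N.toSubgroup.FiniteIndex := by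
    have : Finite (G ⧸ N.toSubgroup) := Subgroup.quotient_finite_of_isOpen _ hNopen
    exact Subgroup.finiteIndex_of_finite_quotient
  let M : Subgroup Γ := (N.toSubgroup.comap φ).map π.ker.subtype
  have hM1 : (N.toSubgroup.comap φ).FiniteIndex := by
    constructor
    rw [Subgroup.index_comap]
    intro h0
    have hn : N.toSubgroup.Normal := N.isNormal'
    have h1 := Subgroup.relIndex_dvd_index_of_normal N.toSubgroup φ.range
    rw [h0] at h1
    exact hfi.index_ne_zero (Nat.eq_zero_of_zero_dvd h1)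
  have hM2 : π.ker.FiniteIndex := inferInstance
  have hM : M.FiniteIndex := by
    constructor
    have h := Subgroup.index_map_subtype (H := π.ker) (N.toSubgroup.comap φ)
    show ((N.toSubgroup.comap φ).map π.ker.subtype).index ≠ 0
    rw [h]
    exact mul_ne_zero hM1.index_ne_zero hM2.index_ne_zero
  let ψ : Γ →* (Γ ⧸ M.normalCore) := QuotientGroup.mk' M.normalCore
  have hfin : Finite (Γ ⧸ M.normalCore) := Subgroup.finite_quotient_of_finiteIndex
  have hC : ((1, z) : Hat Γ × G) ∈
      {p : Hat Γ × G | lftF ψ p.1 = 1 → p.2 ∈ N.toSubgroup} := by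
    refine K_induction π φ ?_ (fun g hg => ?_) hz
    · have e : {p : Hat Γ × G | lftF ψ p.1 = 1 → p.2 ∈ N.toSubgroup} =
          (Prod.fst ⁻¹' (lftF ψ ⁻¹' ({1}ᶜ : Set _))) ∪ Prod.snd ⁻¹' (N.toSubgroup : Set G) := by
        ext p
        simp only [Set.mem_ofPred_eq, Set.mem_union, Set.mem_preimage, Set.mem_compl_iff,
          Set.mem_singleton_iff, SetLike.mem_coe]
        tauto
      rw [e]
      exact ((isClopen_lftF ψ _).isClosed.preimage continuous_fst).union
        (hNclosed.preimage continuous_snd)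
    · intro h
      simp only [lftF_of] at h
      have h1 : g ∈ M.normalCore := (QuotientGroup.eq_one_iff g).1 h
      obtain ⟨u, hu, hu'⟩ := M.normalCore_le h1
      have e : u = ⟨g, hg⟩ := Subtype.ext hu'
      rw [← e]
      exact hu
  exact hzN (hC (map_one _))

theorem snd_unique {x : Hat Γ} {z z' : G} (h : (x, z) ∈ K π φ) (h' : (x, z') ∈ K π φ) :
    z = z' := by
  have h1 := (K π φ).mul_mem h ((K π φ).inv_mem h')
  have h2 : (x, z) * (x, z')⁻¹ = ((1, z * z'⁻¹) : Hat Γ × G) := by
    simp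
  rw [h2] at h1
  exact mul_inv_eq_one.1 (snd_one π φ h1)

/-- The extension, as a function. -/
noncomputable def extFun (x : (lftF π).ker) : G := (exists_snd π φ x.1 x.2).choose

theorem extFun_mem (x : (lftF π).ker) : ((x.1, extFun π φ x) : Hat Γ × G) ∈ K π φ :=
  (exists_snd π φ x.1 x.2).choose_spec

/-- The extension. -/
noncomputable def ext : (lftF π).ker →* G where
  toFun := extFun π φ
  map_one' := snd_unique π φ (extFun_mem π φ 1) (K π φ).one_mem
  map_mul' x y := snd_unique π φ (extFun_mem π φ (x * y))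
    ((K π φ).mul_mem (extFun_mem π φ x) (extFun_mem π φ y))

theorem ext_mem (x : (lftF π).ker) : ((x.1, ext π φ x) : Hat Γ × G) ∈ K π φ :=
  extFun_mem π φ x

theorem continuous_ext : Continuous (ext π φ) := by
  rw [continuous_iff_isClosed]
  intro C hC
  have hc : IsClosed (Prod.fst '' ((K π φ : Set (Hat Γ × G)) ∩ Prod.snd ⁻¹' C)) :=
    (((K_closed π φ).inter (hC.preimage continuous_snd)).isCompact.image continuous_fst).isClosed
  have e : (ext π φ) ⁻¹' C =
      Subtype.val ⁻¹' (Prod.fst '' ((K π φ : Set (Hat Γ × G)) ∩ Prod.snd ⁻¹' C)) := by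
    ext x
    simp only [Set.mem_preimage, Set.mem_image, Set.mem_inter_iff, SetLike.mem_coe, Prod.exists]
    constructor
    · intro h
      exact ⟨x.1, _, ⟨ext_mem π φ x, h⟩, rfl⟩
    · rintro ⟨y, z, ⟨h1, h2⟩, h3⟩
      rw [h3] at h1
      rw [snd_unique π φ (ext_mem π φ x) h1]
      exact h2
  rw [e]
  exact hc.preimage continuous_subtype_val

end ModG

open ModG in
theorem stG : StG := by
  intro Γ S _ _ _ π G _ _ _ _ _ φ
  refine ⟨ext π φ, continuous_ext π φ, fun g hg hg' => ?_⟩
  exact snd_unique π φ (ext_mem π φ _) (mem_K π φ g hg)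

end MPb66790
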