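import Pool.Agent.Lib.MP_b66790_nt.Stmts

/-!
# Module W: forgetting the first strand
-/

namespace MPb66790

open Function Equiv

/-- Permutations of `Z × I` over a permutation of `I`. -/
def wr {Z I : Type} (p : Perm I) (A : I → Perm Z) : Perm (Z × I) where
  toFun v := (A v.2 v.1, p v.2)
  invFun v := ((A (p.symm v.2)).symm v.1, p.symm v.2)
  left_inv v := by simp
  right_inv v := by simp

@[simp] theorem wr_apply {Z I : Type} (p : Perm I) (A : I → Perm Z) (z : Z) (i : I) :
    wr p A (z, i) = (A i z, p i) := rfl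

theorem wr_mul {Z I : Type} (p q : Perm I) (A B : I → Perm Z) :
    wr p A * wr q B = wr (p * q) (fun i => A (q i) * B i) := by
  ext1 v
  rfl

/-- The permutations of the six states. -/
def pS : Fin 2 → Perm (Fin 6)
  | 0 => swap 0 1 * swap 2 3 * swap 4 5
  | 1 => swap 0 2 * swap 1 4 * swap 3 5

section

variable {G : Type} [Group G] (x y : G)

/-- The first generator of the braid group on three strands. -/
def S1 : Perm (G × Fin 6) := wr (pS 0) fun i => Equiv.mulLeft ((![1, y, 1, x⁻¹ * y⁻¹, 1, x] : Fin 6 → G) i)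

/-- The second generator of the braid group on three strands. -/
def S2 : Perm (G × Fin 6) := wr (pS 1) fun i => Equiv.mulLeft ((![1, 1, x, 1, y⁻¹ * x⁻¹, y] : Fin 6 → G) i)

theorem pS_braid : pS 0 * pS 1 * pS 0 = pS 1 * pS 0 * pS 1 := by decide

theorem S_braid : S1 x y * S2 x y * S1 x y = S2 x y * S1 x y * S2 x y := by
  unfold S1 S2
  rw [wr_mul, wr_mul, wr_mul, wr_mul, pS_braid]
  congr 1
  funext i
  ext q
  fin_cases i <;> simp [pS, swap_apply_def, mul_assoc]

/-- The three generators of the braid group on four strands. -/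
def sW : Fin 3 → Perm ((G × Fin 6) × Fin 4)
  | 0 => wr (swap 0 1) ![1, 1, S1 x y, S1 x y]
  | 1 => wr (swap 1 2) ![S1 x y, 1, 1, S2 x y]
  | 2 => wr (swap 2 3) ![S2 x y, S2 x y, 1, 1]

theorem sW_braid : IsBraid (sW x y) := by
  refine ⟨?_, ?_, ?_⟩
  · have h : (swap 0 1 * swap 1 2 * swap 0 1 : Perm (Fin 4)) = swap 1 2 * swap 0 1 * swap 1 2 := by
      decide
    simp only [sW]
    rw [wr_mul, wr_mul, wr_mul, wr_mul, h]
    congr 1
    funext i
    fin_cases i <;> simp [swap_apply_def, S_braid]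
  · have h : (swap 1 2 * swap 2 3 * swap 1 2 : Perm (Fin 4)) = swap 2 3 * swap 1 2 * swap 2 3 := by
      decide
    simp only [sW]
    rw [wr_mul, wr_mul, wr_mul, wr_mul, h]
    congr 1
    funext i
    fin_cases i <;> simp [swap_apply_def, S_braid]
  · have h : (swap 0 1 * swap 2 3 : Perm (Fin 4)) = swap 2 3 * swap 0 1 := by
      decide
    simp only [sW]
    rw [wr_mul, wr_mul, h]
    congr 1
    funext i
    fin_cases i <;> simp [swap_apply_def]

/-- The action of the braid group. -/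
def actW : Braid4 →* Perm ((G × Fin 6) × Fin 4) := brd (sW_braid x y)

end

/-- The element of the symmetric group of a state. -/
def nW (t : Fin 6) (i : Fin 4) : Perm (Fin 4) :=
  (![1, swap 0 1, swap 1 2 * swap 0 1, swap 2 3 * swap 1 2 * swap 0 1] : Fin 4 → Perm (Fin 4)) i *
  (![1, swap 1 2, swap 2 3, swap 1 2 * swap 2 3, swap 2 3 * swap 1 2,
    swap 1 2 * swap 2 3 * swap 1 2] : Fin 6 → Perm (Fin 4)) t

/-- The action on states. -/
def tW (j : Fin 3) (v : Fin 6 × Fin 4) : Fin 6 × Fin 4 :=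
  match j with
  | 0 => ((![id, id, pS 0, pS 0] : Fin 4 → Fin 6 → Fin 6) v.2 v.1, swap 0 1 v.2)
  | 1 => ((![pS 0, id, id, pS 1] : Fin 4 → Fin 6 → Fin 6) v.2 v.1, swap 1 2 v.2)
  | 2 => ((![pS 1, pS 1, id, id] : Fin 4 → Fin 6 → Fin 6) v.2 v.1, swap 2 3 v.2)

theorem nW_tW : ∀ (j : Fin 3) (t : Fin 6) (i : Fin 4),
    nW (tW j (t, i)).1 (tW j (t, i)).2 = swap j.castSucc j.succ * nW t i := by
  decide +kernel

theorem nW_inj : ∀ (t : Fin 6) (i : Fin 4), nW t i = nW 0 0 → t = 0 ∧ i = 0 := by
  decide +kernel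

section

variable {G : Type} [Group G] (x y : G)

theorem sW_state (j : Fin 3) (q : G) (t : Fin 6) (i : Fin 4) :
    ((sW x y j ((q, t), i)).1.2, (sW x y j ((q, t), i)).2) = tW j (t, i) := by
  fin_cases j <;> fin_cases i <;> rfl

theorem braid_induction {P : Braid4 → Prop} (h1 : ∀ i, P (σ i)) (h2 : P 1)
    (h3 : ∀ a b, P a → P b → P (a * b)) (h4 : ∀ a, P a → P a⁻¹) (g : Braid4) : P g := by
  have hg : g ∈ Subgroup.closure (Set.range (PresentedGroup.of (rels := braidRels))) := by
    rw [PresentedGroup.closure_range_of]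
    exact Subgroup.mem_top g
  induction hg using Subgroup.closure_induction with
  | mem a ha =>
    obtain ⟨i, rfl⟩ := ha
    exact h1 i
  | one => exact h2
  | mul a b _ _ ha hb => exact h3 a b ha hb
  | inv a _ ha => exact h4 a ha

theorem actW_state (g : Braid4) : ∀ v : (G × Fin 6) × Fin 4,
    nW (actW x y g v).1.2 (actW x y g v).2 = permHom g * nW v.1.2 v.2 := by
  refine braid_induction (P := fun g => ∀ v : (G × Fin 6) × Fin 4,
    nW (actW x y g v).1.2 (actW x y g v).2 = permHom g * nW v.1.2 v.2) ?_ ?_ ?_ ?_ g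
  · rintro j ⟨⟨q, t⟩, i⟩
    have h1 := sW_state x y j q t i
    have h2 := nW_tW j t i
    rw [← h1] at h2
    unfold actW permHom
    rw [brd_σ, brd_σ]
    exact h2
  · intro v
    simp
  · intro a b ha hb v
    rw [map_mul, map_mul, Perm.mul_apply, ha, hb, mul_assoc]
  · intro a ha v
    have h1 := ha ((actW x y a)⁻¹ v)
    rw [← Perm.mul_apply, mul_inv_cancel, Perm.one_apply] at h1
    rw [map_inv, map_inv, h1, inv_mul_cancel_left]

/-- Right multiplication. -/
def rgt (a : G) : Perm ((G × Fin 6) × Fin 4) := wr 1 fun _ => wr 1 fun _ => Equiv.mulRight a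

theorem S1_commute (a : G) : Commute (S1 x y) (wr 1 fun _ => Equiv.mulRight a) := by
  unfold S1 Commute SemiconjBy
  rw [wr_mul, wr_mul]
  congr 1
  funext i
  ext q
  simp [mul_assoc]

theorem S2_commute (a : G) : Commute (S2 x y) (wr 1 fun _ => Equiv.mulRight a) := by
  unfold S2 Commute SemiconjBy
  rw [wr_mul, wr_mul]
  congr 1
  funext i
  ext q
  simp [mul_assoc]

theorem sW_commute (a : G) (j : Fin 3) : Commute (sW x y j) (rgt a) := by
  have h1 := (S1_commute x y a).eq
  have h2 := (S2_commute x y a).eq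
  unfold rgt Commute SemiconjBy
  fin_cases j <;> simp only [sW] <;> rw [wr_mul, wr_mul] <;> congr 1 <;> funext i <;>
    fin_cases i <;> simp [h1, h2]

theorem actW_commute (a : G) (g : Braid4) : Commute (actW x y g) (rgt a) := by
  refine braid_induction (P := fun g => Commute (actW x y g) (rgt a)) ?_ ?_ ?_ ?_ g
  · intro j
    unfold actW
    rw [brd_σ]
    exact sW_commute x y a j
  · rw [map_one]
    exact Commute.one_left _
  · intro b c hb hc
    rw [map_mul]
    exact hb.mul_left hc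
  · intro b hb
    rw [map_inv]
    exact hb.inv_left

/-- The base point. -/
def bW (G : Type) [Group G] : (G × Fin 6) × Fin 4 := ((1, 0), 0)

theorem actW_base (g : Braid4) (hg : permHom g = 1) :
    actW x y g (bW G) = (((actW x y g (bW G)).1.1, 0), 0) := by
  have h := actW_state x y g (bW G)
  rw [hg, one_mul] at h
  obtain ⟨h1, h2⟩ := nW_inj _ _ h
  exact Prod.ext (Prod.ext rfl h1) h2

/-- The homomorphism. -/
def phiW : permHom.ker →* G where
  toFun g := (actW x y g (bW G)).1.1
  map_one' := by simp [bW]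
  map_mul' g h := by
    have h1 := actW_base x y h h.2
    have h2 : (((actW x y h (bW G)).1.1, 0), 0) = rgt (actW x y h (bW G)).1.1 (bW G) := by
      simp [rgt, bW]
    rw [h2] at h1
    set a := (actW x y h (bW G)).1.1 with ha
    have h3 : actW x y (g * h) (bW G) = rgt a (actW x y g (bW G)) := by
      rw [map_mul, Perm.mul_apply, h1, ← Perm.mul_apply, (actW_commute x y a g).eq,
        Perm.mul_apply]
    rw [Subgroup.coe_mul, h3]
    rfl

theorem stW : StW := by
  intro G _ x y
  refine ⟨phiW x y, fun h => ?_, fun h => ?_, fun h => ?_, fun h => ?_⟩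
  · show (actW x y (σ 0 ^ 2) (bW G)).1.1 = 1
    unfold actW
    rw [map_pow, brd_σ, pow_two]
    simp [sW, bW]
  · show (actW x y (σ 2 ^ 2) (bW G)).1.1 = x
    unfold actW
    rw [map_pow, brd_σ, pow_two]
    simp [sW, bW, S2, pS, swap_apply_def]
  · show (actW x y (σ 1 ^ 2) (bW G)).1.1 = y
    unfold actW
    rw [map_pow, brd_σ, pow_two]
    simp [sW, bW, S1, pS, swap_apply_def]
  · show (actW x y ((σ 0 * σ 2) * σ 1 ^ 2 * (σ 0 * σ 2)⁻¹) (bW G)).1.1 = 1
    unfold actW
    rw [map_mul, map_mul, map_inv, map_mul, map_pow, brd_σ, brd_σ, brd_σ, pow_two]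
    have h1 : (sW x y 0 * sW x y 2)⁻¹ (bW G) = ((x⁻¹, 2), 1) := by
      rw [Perm.inv_eq_iff_eq]
      simp [sW, bW, S2, pS, swap_apply_def]
    have h2 : (sW x y 1 * sW x y 1) ((x⁻¹, 2), 1) = ((x⁻¹, 2), 1) := by
      simp [sW]
    rw [Perm.mul_apply, Perm.mul_apply, h1, h2, ← h1, ← Perm.mul_apply, mul_inv_cancel, Perm.one_apply]
    rfl

end

end MPb66790
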