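import Pool.Agent.Lib.MP_b66790_nt.ModE

/-!
# The main relation in the profinite braid group

`M = Q⁻¹ P S⁻¹` commutes with `σ₂`, where `S = f(σ₁σ₃, σ₂²)`.
-/

namespace MPb66790

open Function

/-- Elements commuting with `Δ` are determined by their image under `rho`. -/
theorem rigid (hB : StB) (hD1 : StD1) (hD2 : StD2) (hD3 : StD3) {g g' : Hat Braid4}
    (h : Commute Dl g) (h' : Commute Dl g') (hr : rho g = rho g') : g = g' := by
  have h1 : rho (g * g'⁻¹) = 1 := by rw [map_mul, map_inv, hr, mul_inv_cancel]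
  obtain ⟨w, hw⟩ := hD2 _ h1
  have h2 : Commute Dl (g * g'⁻¹) := h.mul_right h'.inv_right
  have h3 := hD3 w
  rw [hw, mul_inv_eq_of_eq_mul h2.eq, ← hw] at h3
  have h4 : w = 1 := hB w (hD1 h3).symm
  rw [h4, map_one] at hw
  exact mul_inv_eq_one.1 hw.symm

/-- The permutation of the strands, on the completion. -/
noncomputable def perm : Hat Braid4 →* Equiv.Perm (Fin 4) := lftF permHom

theorem perm_s (i : Fin 3) : perm (s i) = Equiv.swap i.castSucc i.succ := by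
  rw [← of_σ]
  unfold perm permHom
  rw [lftF_of, brd_σ]

theorem perm_zero : perm (s 0) = Equiv.swap 0 1 := perm_s 0

theorem perm_one : perm (s 1) = Equiv.swap 1 2 := perm_s 1

theorem perm_two : perm (s 2) = Equiv.swap 2 3 := perm_s 2

theorem evF_one {n : ℕ} {Q : Type} [Group Q] [Finite Q] {v : Fin n → Q} (h : ∀ i, v i = 1)
    (x : FHat n) : evF v x = 1 := by
  obtain ⟨g, hg⟩ := exists_word v x
  rw [hg]
  have e : FreeGroup.lift v = 1 := by
    ext i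
    simp [h]
  rw [e]
  rfl

theorem perm_ev {n : ℕ} (v : Fin n → Hat Braid4) (x : FHat n) :
    perm (ev v x) = evF (fun i => perm (v i)) x := lftF_ev _ v x

theorem perm_ev_one {n : ℕ} {v : Fin n → Hat Braid4} (h : ∀ i, perm (v i) = 1) (x : FHat n) :
    perm (ev v x) = 1 := by
  rw [perm_ev]
  exact evF_one h x

theorem perm_ev2_one {a b : Hat Braid4} (ha : perm a = 1) (hb : perm b = 1) (x : FHat 2) :
    perm (ev ![a, b] x) = 1 := by
  refine perm_ev_one (fun i => ?_) x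
  fin_cases i
  · exact ha
  · exact hb

theorem perm_dB : perm dB = 1 := by
  unfold dB
  rw [map_pow, map_mul, perm_one, perm_two]
  decide

theorem perm_sq (i : Fin 3) : perm (s i ^ 2) = 1 := by
  rw [map_pow, perm_s, pow_two, Equiv.swap_mul_self]

theorem perm_fQ (f : FHat 2) : perm (fQ f) = 1 := perm_ev2_one (perm_sq 1) (perm_sq 2) f

theorem perm_fP (f : FHat 2) : perm (fP f) = 1 := perm_ev2_one (perm_sq 0) perm_dB f

/-- `R Δ` is conjugate to `Δ` by `Q⁻¹ P`: this is the pentagon. -/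
theorem RDl_eq {lam : ZHat} {f : FHat 2} (h : IsGT lam f) :
    fR f * Dl = ((fQ f)⁻¹ * fP f) * Dl * ((fQ f)⁻¹ * fP f)⁻¹ := by
  have h1 : Dl * ((fQ f)⁻¹ * fP f)⁻¹ * Dl⁻¹ = fh f * (fA f)⁻¹ := by
    rw [mul_inv_rev, inv_inv, conj_mul', conj_Dl_inv, conj_fP h.two, conj_fQ h.two, inv_inv]
  have h2 : ((fQ f)⁻¹ * fP f) * Dl * ((fQ f)⁻¹ * fP f)⁻¹ =
      ((fQ f)⁻¹ * fP f) * (Dl * ((fQ f)⁻¹ * fP f)⁻¹ * Dl⁻¹) * Dl := by group
  rw [h2, h1, ← pentagon h]
  group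

/-- The main relation in the profinite braid group. -/
theorem comm_M (hB : StB) (hD1 : StD1) (hD2 : StD2) (hD3 : StD3) {lam : ZHat}
    {f : FHat 2} (h : IsGT lam f) :
    Commute ((fQ f)⁻¹ * fP f * (fS f)⁻¹) (s 1) := by
  have h1 : Commute Dl (((fQ f)⁻¹ * fP f)⁻¹ * s 1 * ((fQ f)⁻¹ * fP f)) := by
    have h2 := comm_RDl_one (f := f)
    rw [RDl_eq h] at h2
    generalize (fQ f)⁻¹ * fP f = u at *
    have h3 : (u * Dl * u⁻¹) * s 1 = s 1 * (u * Dl * u⁻¹) := h2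
    show Dl * (u⁻¹ * s 1 * u) = (u⁻¹ * s 1 * u) * Dl
    calc Dl * (u⁻¹ * s 1 * u) = u⁻¹ * ((u * Dl * u⁻¹) * s 1) * u := by group
      _ = u⁻¹ * (s 1 * (u * Dl * u⁻¹)) * u := by rw [h3]
      _ = (u⁻¹ * s 1 * u) * Dl := by group
  have h2 : Commute Dl ((fS f)⁻¹ * s 1 * fS f) :=
    (comm_Dl_S.inv_right.mul_right comm_Dl_one).mul_right comm_Dl_S
  have h4 := rigid hB hD1 hD2 hD3 h1 h2 (by
    simp only [map_mul, map_inv, rho_fS, rho_fP h.comm, rho_fQ h.two, inv_inv, mul_one, rho_one])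
  generalize (fQ f)⁻¹ * fP f = u at *
  have h5 : (u * (fS f)⁻¹) * s 1 * (u * (fS f)⁻¹)⁻¹ = s 1 := by
    calc (u * (fS f)⁻¹) * s 1 * (u * (fS f)⁻¹)⁻¹
        = u * ((fS f)⁻¹ * s 1 * fS f) * u⁻¹ := by group
      _ = u * (u⁻¹ * s 1 * u) * u⁻¹ := by rw [h4]
      _ = s 1 := by group
  exact mul_inv_eq_iff_eq_mul.1 h5

end MPb66790
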