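import Pool.Agent.Lib.MP_b66790_nt.Stmts
import Pool.Agent.Lib.MP_b66790_nt.ModW

/-!
# Modules H1, H2, H3: the squaring map
-/

namespace MPb66790

open Function Equiv

section H1

variable {Q : Type} [Group Q]

/-- The permutation `x` of the induced action. -/
def xH (v : Fin 3 → Q) : Perm (Q × Fin 2) :=
  wr (swap 0 1) fun i => Equiv.mulLeft ((![1, v 0] : Fin 2 → Q) i)

/-- The permutation `y` of the induced action. -/
def yH (v : Fin 3 → Q) : Perm (Q × Fin 2) :=
  wr 1 fun i => Equiv.mulLeft ((![v 1, (v 0)⁻¹ * v 2 * v 0] : Fin 2 → Q) i)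

theorem xyH_apply (v : Fin 3 → Q) (i : Fin 3) (q : Q) :
    (![xH v ^ 2, yH v, xH v * yH v * (xH v)⁻¹] : Fin 3 → Perm (Q × Fin 2)) i (q, 0) =
      (v i * q, 0) := by
  fin_cases i
  · simp [xH, pow_two]
  · simp [yH]
  · have h1 : (xH v)⁻¹ (q, 0) = ((v 0)⁻¹ * q, 1) := by
      rw [Perm.inv_eq_iff_eq]
      simp [xH]
    show (xH v * yH v * (xH v)⁻¹) (q, 0) = (v 2 * q, 0)
    rw [Perm.mul_apply, h1]
    simp [xH, yH, mul_assoc]

theorem lift_H (v : Fin 3 → Q) (g : FreeGroup (Fin 3)) : ∀ q : Q,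
    FreeGroup.lift (![xH v ^ 2, yH v, xH v * yH v * (xH v)⁻¹] : Fin 3 → Perm (Q × Fin 2)) g (q, 0) =
      (FreeGroup.lift v g * q, 0) := by
  induction g using FreeGroup.induction_on with
  | C1 => intro q; simp
  | of i =>
    intro q
    rw [FreeGroup.lift_apply_of, FreeGroup.lift_apply_of, xyH_apply]
  | inv_of i ih =>
    intro q
    rw [map_inv, map_inv, Perm.inv_eq_iff_eq, ih, mul_inv_cancel_left]
  | mul a b ha hb =>
    intro q
    rw [map_mul, map_mul, Perm.mul_apply, hb, ha, mul_assoc]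

theorem stH1 : StH1 := by
  show Injective sqMap
  rw [injective_iff_map_eq_one]
  intro k hk
  by_contra hne
  obtain ⟨Q, _, _, v, hv⟩ := FHat.sep_one hne
  apply hv
  have h1 : evF ![xH v, yH v] (sqMap k) =
      evF (![xH v ^ 2, yH v, xH v * yH v * (xH v)⁻¹] : Fin 3 → Perm (Q × Fin 2)) k := by
    unfold sqMap
    rw [evF_ev]
    congr 1
    congr 1
    funext i
    fin_cases i
    · show evF ![xH v, yH v] (gen 0 ^ 2) = xH v ^ 2
      rw [map_pow, evF_gen]
      rfl
    · show evF ![xH v, yH v] (gen 1) = yH v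
      rw [evF_gen]
      rfl
    · show evF ![xH v, yH v] (gen 0 * gen 1 * (gen 0)⁻¹) = xH v * yH v * (xH v)⁻¹
      rw [map_mul, map_mul, map_inv, evF_gen, evF_gen]
      rfl
  rw [hk, map_one] at h1
  obtain ⟨g, hg1, hg2⟩ := exists_rep₂ (FreeGroup.lift v)
    (FreeGroup.lift (![xH v ^ 2, yH v, xH v * yH v * (xH v)⁻¹] : Fin 3 → Perm (Q × Fin 2))) k
  have h2 := lift_H v g 1
  unfold evF at h1 ⊢
  rw [← hg2, ← h1, ← hg1] at h2
  have h3 := congrArg (fun z : Q × Fin 2 => z.1) h2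
  simpa using h3.symm

end H1

section H2

theorem X2_mem : X ^ 2 ∈ sqMap.toMonoidHom.range := ⟨gen 0, by
  show sqMap (gen 0) = X ^ 2
  unfold sqMap
  rw [ev_gen]
  rfl⟩

theorem Y_mem : Y ∈ sqMap.toMonoidHom.range := ⟨gen 1, by
  show sqMap (gen 1) = Y
  unfold sqMap
  rw [ev_gen]
  rfl⟩

theorem XYX_mem : X * Y * X⁻¹ ∈ sqMap.toMonoidHom.range := ⟨gen 2, by
  show sqMap (gen 2) = X * Y * X⁻¹
  unfold sqMap
  rw [ev_gen]
  rfl⟩

theorem XYX_mem' : X⁻¹ * Y * X ∈ sqMap.toMonoidHom.range := by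
  have h : X⁻¹ * Y * X = (X ^ 2)⁻¹ * (X * Y * X⁻¹) * X ^ 2 := by group
  rw [h]
  exact mul_mem (mul_mem (inv_mem X2_mem) XYX_mem) X2_mem

theorem stH2_aux (g : FreeGroup (Fin 2)) :
    ∀ w : FHat 2, (w ∈ sqMap.toMonoidHom.range ∨ X⁻¹ * w ∈ sqMap.toMonoidHom.range) →
      (of g * w ∈ sqMap.toMonoidHom.range ∨ X⁻¹ * (of g * w) ∈ sqMap.toMonoidHom.range) := by
  induction g using FreeGroup.induction_on with
  | C1 => intro w hw; simpa using hw
  | of i =>
    intro w hw
    fin_cases i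
    · show X * w ∈ _ ∨ X⁻¹ * (X * w) ∈ _
      rcases hw with h | h
      · right
        rwa [inv_mul_cancel_left]
      · left
        have : X * w = X ^ 2 * (X⁻¹ * w) := by group
        rw [this]
        exact mul_mem X2_mem h
    · show Y * w ∈ _ ∨ X⁻¹ * (Y * w) ∈ _
      rcases hw with h | h
      · left
        exact mul_mem Y_mem h
      · right
        have : X⁻¹ * (Y * w) = (X⁻¹ * Y * X) * (X⁻¹ * w) := by group
        rw [this]
        exact mul_mem XYX_mem' h
  | inv_of i _ =>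
    intro w hw
    rw [map_inv]
    fin_cases i
    · show X⁻¹ * w ∈ _ ∨ X⁻¹ * (X⁻¹ * w) ∈ _
      rcases hw with h | h
      · right
        have : X⁻¹ * (X⁻¹ * w) = (X ^ 2)⁻¹ * w := by group
        rw [this]
        exact mul_mem (inv_mem X2_mem) h
      · left
        exact h
    · show Y⁻¹ * w ∈ _ ∨ X⁻¹ * (Y⁻¹ * w) ∈ _
      rcases hw with h | h
      · left
        exact mul_mem (inv_mem Y_mem) h
      · right
        have : X⁻¹ * (Y⁻¹ * w) = (X⁻¹ * Y * X)⁻¹ * (X⁻¹ * w) := by group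
        rw [this]
        exact mul_mem (inv_mem XYX_mem') h
  | mul a b ha hb =>
    intro w hw
    rw [map_mul, mul_assoc]
    exact ha _ (hb _ hw)

theorem isClosed_range_sqMap : IsClosed (sqMap.toMonoidHom.range : Set (FHat 2)) :=
  (isCompact_range sqMap.continuous_toFun).isClosed

theorem stH2 : StH2 := by
  intro w
  have h1 : w ∈ {w : FHat 2 | w ∈ sqMap.toMonoidHom.range ∨ X⁻¹ * w ∈ sqMap.toMonoidHom.range} := by
    refine hat_induction (S := {w : FHat 2 | w ∈ sqMap.toMonoidHom.range ∨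
      X⁻¹ * w ∈ sqMap.toMonoidHom.range}) ?_ (fun g => ?_) w
    · exact isClosed_range_sqMap.union
        (isClosed_range_sqMap.preimage (continuous_const.mul continuous_id))
    · have h2 := stH2_aux g 1 (Or.inl (one_mem _))
      rwa [mul_one] at h2
  rcases h1 with ⟨k, hk⟩ | ⟨k, hk⟩
  · exact Or.inl ⟨k, hk⟩
  · refine Or.inr ⟨k, ?_⟩
    have h2 : sqMap k = X⁻¹ * w := hk
    rw [h2, mul_inv_cancel_left]

end H2

section H3

/-- The parity of the exponent of `x`. -/
noncomputable def chiH : FHat 2 →* Multiplicative (ZMod 2) :=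
  evF ![Multiplicative.ofAdd 1, Multiplicative.ofAdd 0]

theorem chiH_X : chiH X = Multiplicative.ofAdd 1 := by
  unfold chiH X
  rw [evF_gen]
  rfl

theorem chiH_Y : chiH Y = 1 := by
  unfold chiH Y
  rw [evF_gen]
  rfl

theorem sq_eq_one_two : ∀ a : Multiplicative (ZMod 2), a * a = 1 := by decide

theorem evF_one' {n : ℕ} {Q : Type} [Group Q] [Finite Q] (k : FHat n) :
    evF (fun _ => (1 : Q)) k = 1 := by
  have h := evF_map (1 : Q →* Q) (fun _ : Fin n => (1 : Q)) k
  exact h.symm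

theorem chiH_sqMap (k : FHat 3) : chiH (sqMap k) = 1 := by
  unfold sqMap
  have h1 : chiH (ev ![X ^ 2, Y, X * Y * X⁻¹] k) =
      evF (fun i => chiH ((![X ^ 2, Y, X * Y * X⁻¹] : Fin 3 → FHat 2) i)) k := evF_ev _ _ _
  rw [h1]
  have h2 : (fun i => chiH ((![X ^ 2, Y, X * Y * X⁻¹] : Fin 3 → FHat 2) i)) =
      fun _ => (1 : Multiplicative (ZMod 2)) := by
    funext i
    fin_cases i
    · show chiH (X ^ 2) = 1
      rw [pow_two, map_mul]
      exact sq_eq_one_two _
    · exact chiH_Y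
    · show chiH (X * Y * X⁻¹) = 1
      rw [map_mul, map_mul, chiH_Y, mul_one, map_inv, mul_inv_cancel]
  rw [h2]
  exact evF_one' k

theorem range_iff (h2 : StH2) (w : FHat 2) : (∃ k, sqMap k = w) ↔ chiH w = 1 := by
  constructor
  · rintro ⟨k, rfl⟩
    exact chiH_sqMap k
  · intro h
    rcases h2 w with h | ⟨k, rfl⟩
    · exact h
    · rw [map_mul, chiH_sqMap, mul_one, chiH_X] at h
      exact absurd h (by decide)

theorem stH3 (h2 : StH2) : StH3 := by
  constructor
  · intro f hf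
    rw [range_iff h2]
    have hcl : IsClosed (chiH.ker : Set (FHat 2)) := (isClopen_lftF _ {1}).isClosed
    have h1 : commutator (FHat 2) ≤ chiH.ker := Abelianization.commutator_subset_ker chiH
    exact Subgroup.topologicalClosure_minimal _ h1 hcl hf
  · intro lam f hF w hw
    rw [range_iff h2] at hw ⊢
    rw [← hw]
    have h1 : chiH (phi lam f w) =
      evF (fun i => chiH ((![pow X lam, f⁻¹ * pow Y lam * f] : Fin 2 → FHat 2) i)) w :=
      evF_ev _ _ _
    rw [h1]
    unfold chiH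
    congr 1
    congr 1
    funext i
    fin_cases i
    · show _ = chiH (pow X lam)
      obtain ⟨m, hm, -⟩ := hF.three
      rw [hm, pow_mul', pow_mul', pow_zgen, mul_assoc, map_mul, map_mul, sq_eq_one_two, mul_one,
        chiH_X]
      rfl
    · show _ = chiH (f⁻¹ * pow Y lam * f)
      have h3 : chiH (pow Y lam) = 1 := by
        have h4 : chiH (pow Y lam) = evF (fun _ => chiH Y) lam := evF_ev _ _ _
        rw [h4, chiH_Y]
        exact evF_one' lam
      rw [map_mul, map_mul, h3, mul_one, map_inv, inv_mul_cancel]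
      rfl

end H3

end MPb66790
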