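import Pool.Agent.Lib.MP_b66790_nt.Stmts

/-!
# Module A0: lifting a double covering to a cyclic fourfold covering
-/

namespace MPb66790

open Function

namespace A0

variable {G : Type} [Group G]

/-- The cocycle of `t`. -/
def sg (f : G → ℕ) (t q : G) : ZMod 2 := if f q < f (q * t) then 1 else 0

/-- The cocycle of `t` on the orbits of `c`. -/
def sc (f : G → ℕ) (t c q : G) : ZMod 2 :=
  if min (f q) (f (c * q)) < min (f (q * t)) (f (c * (q * t))) then 1 else 0

/-- The cocycle of `c`. -/
def ac (f : G → ℕ) (t c q : G) : ZMod 2 := (1 + sc f t c q) * (sg f t q + sg f t (c * q))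

theorem sg_t {f : G → ℕ} (hf : Injective f) {t : G} (ht : t * t = 1) (h1 : t ≠ 1) (q : G) :
    sg f t (q * t) = sg f t q + 1 := by
  have hne : f q ≠ f (q * t) := fun h => h1 (by simpa using hf h)
  have h2 : q * t * t = q := by rw [mul_assoc, ht, mul_one]
  unfold sg
  rw [h2]
  rcases lt_or_gt_of_ne hne with h | h
  · rw [if_neg (by omega), if_pos h]; decide
  · rw [if_pos h, if_neg (by omega)]; decide

theorem sc_t {f : G → ℕ} (hf : Injective f) {t c : G} (ht : t * t = 1) (h1 : t ≠ 1)
    (hc : c * c = 1) (hct : ∀ g, g * c * g⁻¹ ≠ t) (q : G) :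
    sc f t c (q * t) = sc f t c q + 1 := by
  have key : ∀ q : G, q ≠ c * (q * t) := by
    intro q h
    apply hct q⁻¹
    have h3 : c * q = q * t := by
      conv_lhs => rw [h]
      rw [← mul_assoc, hc, one_mul]
    rw [inv_inv, mul_assoc, h3, inv_mul_cancel_left]
  have hne1 : f q ≠ f (q * t) := fun h => h1 (by simpa using hf h)
  have hne2 : f (c * q) ≠ f (c * (q * t)) := fun h => h1 (by simpa using hf h)
  have hne3 : f q ≠ f (c * (q * t)) := fun h => key q (hf h)
  have h2 : q * t * t = q := by rw [mul_assoc, ht, mul_one]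
  have hne4 : f (c * q) ≠ f (q * t) := by
    intro h
    have h4 := hf h
    apply key (q * t)
    rw [h2]
    exact h4.symm
  unfold sc
  rw [h2]
  by_cases h : min (f q) (f (c * q)) < min (f (q * t)) (f (c * (q * t)))
  · rw [if_neg (by omega), if_pos h]; decide
  · rw [if_pos (by omega), if_neg h]; decide

theorem sc_c {f : G → ℕ} {t c : G} (hc : c * c = 1) (q : G) :
    sc f t c (c * q) = sc f t c q := by
  unfold sc
  have h1 : c * (c * q) = q := by rw [← mul_assoc, hc, one_mul]
  have h2 : c * (c * q * t) = q * t := by rw [mul_assoc, ← mul_assoc c c, hc, one_mul]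
  rw [h1, h2, mul_assoc, min_comm, min_comm (f (c * (q * t)))]

theorem ac_c {f : G → ℕ} {t c : G} (hc : c * c = 1) (q : G) :
    ac f t c (c * q) = ac f t c q := by
  unfold ac
  have h1 : c * (c * q) = q := by rw [← mul_assoc, hc, one_mul]
  rw [sc_c hc, h1, add_comm (sg f t (c * q))]

theorem ac_t {f : G → ℕ} (hf : Injective f) {t c : G} (ht : t * t = 1) (h1 : t ≠ 1)
    (hc : c * c = 1) (hct : ∀ g, g * c * g⁻¹ ≠ t) (q : G) :
    sg f t q + ac f t c (q * t) = ac f t c q + sg f t (c * q) := by
  unfold ac
  rw [sc_t hf ht h1 hc hct, sg_t hf ht h1, ← mul_assoc, sg_t hf ht h1]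
  generalize sg f t q = a
  generalize sg f t (c * q) = b
  generalize sc f t c q = d
  revert a b d
  decide

end A0

open A0 in
/-- MODULE A0. -/
theorem stA0 : StA0 := by
  intro G _ _ c t hc ht h1 hct
  classical
  obtain ⟨n, ⟨e⟩⟩ := Finite.exists_equiv_fin G
  let f : G → ℕ := fun g => (e g : ℕ)
  have hf : Injective f := fun a b h => e.injective (Fin.ext h)
  have two : ∀ a : ZMod 2, a + a = 0 := by decide
  -- the involutions
  let C : Fin 3 → Equiv.Perm (G × ZMod 2) := fun i =>
    { toFun := fun v => (c i * v.1, v.2 + ac f t (c i) v.1)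
      invFun := fun v => (c i * v.1, v.2 + ac f t (c i) v.1)
      left_inv := fun v => by
        refine Prod.ext ?_ ?_
        · change c i * (c i * v.1) = v.1
          rw [← mul_assoc, hc, one_mul]
        · change v.2 + ac f t (c i) v.1 + ac f t (c i) (c i * v.1) = v.2
          rw [ac_c (hc i), add_assoc, two, add_zero]
      right_inv := fun v => by
        refine Prod.ext ?_ ?_
        · change c i * (c i * v.1) = v.1
          rw [← mul_assoc, hc, one_mul]
        · change v.2 + ac f t (c i) v.1 + ac f t (c i) (c i * v.1) = v.2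
          rw [ac_c (hc i), add_assoc, two, add_zero] }
  let τ : Equiv.Perm (G × ZMod 2) :=
    { toFun := fun v => (v.1 * t, v.2 + sg f t v.1)
      invFun := fun v => (v.1 * t, v.2 + sg f t v.1 + 1)
      left_inv := fun v => by
        refine Prod.ext ?_ ?_
        · change v.1 * t * t = v.1
          rw [mul_assoc, ht, mul_one]
        · change v.2 + sg f t v.1 + sg f t (v.1 * t) + 1 = v.2
          rw [sg_t hf ht h1]
          generalize v.2 = a
          generalize sg f t v.1 = b
          revert a b
          decide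
      right_inv := fun v => by
        refine Prod.ext ?_ ?_
        · change v.1 * t * t = v.1
          rw [mul_assoc, ht, mul_one]
        · change v.2 + sg f t v.1 + 1 + sg f t (v.1 * t) = v.2
          rw [sg_t hf ht h1]
          generalize v.2 = a
          generalize sg f t v.1 = b
          revert a b
          decide }
  have hC : ∀ i v, C i v = (c i * v.1, v.2 + ac f t (c i) v.1) := fun i v => rfl
  have hτ : ∀ v, τ v = (v.1 * t, v.2 + sg f t v.1) := fun v => rfl
  have hττ : ∀ v, τ (τ v) = (v.1, v.2 + 1) := by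
    intro v
    rw [hτ, hτ]
    refine Prod.ext ?_ ?_
    · change v.1 * t * t = v.1
      rw [mul_assoc, ht, mul_one]
    · change v.2 + sg f t v.1 + sg f t (v.1 * t) = v.2 + 1
      rw [sg_t hf ht h1]
      generalize v.2 = a
      generalize sg f t v.1 = b
      revert a b
      decide
  refine ⟨G × ZMod 2, inferInstance, C, τ, Prod.fst, fun q => ⟨(q, 0), rfl⟩, ?_, ?_, fun i v => rfl,
    fun v => rfl, ?_, ?_, ?_⟩
  · intro i
    exact Equiv.ext fun v => (C i).left_inv v
  · intro i
    refine Equiv.ext fun v => ?_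
    rw [Equiv.Perm.mul_apply, Equiv.Perm.mul_apply, hτ, hC, hC, hτ]
    refine Prod.ext ?_ ?_
    · exact (mul_assoc _ _ _).symm
    · change v.2 + sg f t v.1 + ac f t (c i) (v.1 * t) = v.2 + ac f t (c i) v.1 + sg f t (c i * v.1)
      rw [add_assoc, ac_t hf ht h1 (hc i) (hct i), add_assoc]
  · intro v h
    rw [hττ] at h
    have h2 : v.2 + 1 = v.2 := congrArg Prod.snd h
    revert h2
    generalize v.2 = a
    revert a
    decide
  · refine Equiv.ext fun v => ?_
    have h4 : (τ ^ 4) v = τ (τ (τ (τ v))) := rfl
    rw [h4, hττ, hττ]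
    refine Prod.ext rfl ?_
    change v.2 + 1 + 1 = v.2
    generalize v.2 = a
    revert a
    decide
  · intro v v' h
    rw [hττ]
    have h5 : ∀ a b : ZMod 2, b = a ∨ b = a + 1 := by decide
    rcases h5 v.2 v'.2 with h6 | h6
    · exact Or.inl (Prod.ext h.symm h6)
    · exact Or.inr (Prod.ext h.symm h6)

end MPb66790
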