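import Pool.Agent.Lib.MP_b66790_nt.ModE

/-!
# From the key identity to the action on dessins
-/

namespace MPb66790

open Function

theorem map_ev3 {G H : Type} [Group G] [TopologicalSpace G] [IsTopologicalGroup G]
    [CompactSpace G] [TotallyDisconnectedSpace G] [Group H] [TopologicalSpace H]
    [IsTopologicalGroup H] [CompactSpace H]
    [TotallyDisconnectedSpace H] (α : G →ₜ* H) (a b c : G) (x : FHat 3) :
    α (ev ![a, b, c] x) = ev ![α a, α b, α c] x := by
  rw [map_ev]
  congr 2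
  funext i
  fin_cases i <;> rfl

theorem phi_X (lam : ZHat) (f : FHat 2) : phi lam f X = pow X lam := ev_gen _ _

theorem phi_Y (lam : ZHat) (f : FHat 2) : phi lam f Y = f⁻¹ * pow Y lam * f := ev_gen _ _

theorem sqMap_0 : sqMap (gen 0) = X ^ 2 := ev_gen _ _

theorem sqMap_1 : sqMap (gen 1) = Y := ev_gen _ _

theorem sqMap_2 : sqMap (gen 2) = X * Y * X⁻¹ := ev_gen _ _

theorem fillMap_0 : fillMap (gen 0) = X := ev_gen _ _

theorem fillMap_1 : fillMap (gen 1) = Y := ev_gen _ _

theorem fillMap_2 : fillMap (gen 2) = 1 := ev_gen _ _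

/-- Conjugation by `x`, lifted to `FHat 3`. -/
noncomputable def tauMap : FHat 3 →ₜ* FHat 3 := ev ![gen 0, gen 2, gen 0 * gen 1 * (gen 0)⁻¹]

theorem sqMap_tauMap (k : FHat 3) : sqMap (tauMap k) = X * sqMap k * X⁻¹ := by
  unfold tauMap
  rw [map_ev3]
  unfold sqMap
  rw [conj_ev]
  congr 2
  funext i
  fin_cases i
  · show sqMap (gen 0) = X * X ^ 2 * X⁻¹
    rw [sqMap_0]
    group
  · exact sqMap_2
  · show sqMap (gen 0 * gen 1 * (gen 0)⁻¹) = X * (X * Y * X⁻¹) * X⁻¹
    rw [map_mul, map_mul, map_inv, sqMap_0, sqMap_1, pow_two]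
    group

theorem pow_lam {G : Type} [Group G] [TopologicalSpace G] [IsTopologicalGroup G]
    [CompactSpace G] [TotallyDisconnectedSpace G] (g : G) (m : ZHat) :
    pow g (zgen * m * m) = g * pow g m * pow g m := by
  rw [pow_mul', pow_mul', pow_zgen]

theorem comm_pow_self {G : Type} [Group G] [TopologicalSpace G] [IsTopologicalGroup G]
    [CompactSpace G] [TotallyDisconnectedSpace G] (g : G) (m : ZHat) : Commute g (pow g m) :=
  commute_pow (Commute.refl g) m

theorem pow_sq {G : Type} [Group G] [TopologicalSpace G] [IsTopologicalGroup G]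
    [CompactSpace G] [TotallyDisconnectedSpace G] (g : G) (m : ZHat) :
    pow (g ^ 2) m = pow g m * pow g m := by
  have hc : ∀ a b : ZHat, Commute (pow g a) (pow g b) := fun a b =>
    commute_pow (comm_pow_self g a).symm b
  let sqh : ZHat →* G := MonoidHom.mk' (fun a => pow g a * pow g a) (fun a b => by
    show pow g (a * b) * pow g (a * b) = pow g a * pow g a * (pow g b * pow g b)
    rw [pow_mul']
    calc pow g a * pow g b * (pow g a * pow g b)
        = pow g a * (pow g b * pow g a) * pow g b := by group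
      _ = pow g a * (pow g a * pow g b) * pow g b := by rw [(hc b a).eq]
      _ = pow g a * pow g a * (pow g b * pow g b) := by group)
  refine ev_hom_ext (φ := (ev (fun _ : Fin 1 => g ^ 2)).toMonoidHom)
    (ψ := sqh) (ev (fun _ : Fin 1 => g ^ 2)).continuous_toFun
    ?_ (fun i => ?_) m
  · exact (ev (fun _ : Fin 1 => g)).continuous_toFun.mul
      (ev (fun _ : Fin 1 => g)).continuous_toFun
  · show ev (fun _ : Fin 1 => g ^ 2) (gen i) = ev (fun _ : Fin 1 => g) (gen i) *
      ev (fun _ : Fin 1 => g) (gen i)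
    rw [ev_gen, ev_gen, pow_two]

theorem stK (h1 : StH1) (h3 : StH3) : StK := by
  intro lam f h ⟨k, e, hk, hfk⟩ H
  obtain ⟨m, hm, -⟩ := h.three
  let Φ : FHat 3 →ₜ* FHat 3 := ev ![pow (gen 0) lam, k⁻¹ * pow (gen 1) lam * k,
    pow (gen 0) m * (tauMap k)⁻¹ * pow (gen 2) lam * tauMap k * (pow (gen 0) m)⁻¹]
  have hΦ0 : Φ (gen 0) = pow (gen 0) lam := ev_gen _ _
  have hΦ1 : Φ (gen 1) = k⁻¹ * pow (gen 1) lam * k := ev_gen _ _
  have hΦ2 : Φ (gen 2) = pow (gen 0) m * (tauMap k)⁻¹ * pow (gen 2) lam * tauMap k *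
    (pow (gen 0) m)⁻¹ := ev_gen _ _
  have hsq : ∀ g, sqMap (Φ g) = phi lam f (sqMap g) := by
    intro g
    refine ev_hom_ext (φ := sqMap.toMonoidHom.comp Φ.toMonoidHom)
      (ψ := (phi lam f).toMonoidHom.comp sqMap.toMonoidHom)
      (sqMap.continuous_toFun.comp Φ.continuous_toFun)
      ((phi lam f).continuous_toFun.comp sqMap.continuous_toFun) (fun i => ?_) g
    show sqMap (Φ (gen i)) = phi lam f (sqMap (gen i))
    fin_cases i
    · show sqMap (Φ (gen 0)) = phi lam f (sqMap (gen 0))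
      rw [hΦ0, map_pow', sqMap_0, map_pow, phi_X, pow_sq, pow_two]
    · show sqMap (Φ (gen 1)) = phi lam f (sqMap (gen 1))
      rw [hΦ1, map_mul, map_mul, map_inv, hk, map_pow', sqMap_1, phi_Y]
    · show sqMap (Φ (gen 2)) = phi lam f (sqMap (gen 2))
      rw [hΦ2]
      simp only [map_mul, map_inv, map_pow']
      rw [sqMap_tauMap, hk, sqMap_0, sqMap_2, map_mul, map_mul, map_inv, phi_X, phi_Y, pow_sq,
        ← conj_pow' X Y lam, hm, pow_lam X m]
      have hc := (comm_pow_self X m).eq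
      have e1 : X * pow X m * pow X m = pow X m * pow X m * X := by
        rw [hc, mul_assoc, hc, ← mul_assoc]
      rw [e1]
      group
  have hfill : ∀ g, fillMap (Φ g) = phi lam f (fillMap g) := by
    intro g
    refine ev_hom_ext (φ := fillMap.toMonoidHom.comp Φ.toMonoidHom)
      (ψ := (phi lam f).toMonoidHom.comp fillMap.toMonoidHom)
      (fillMap.continuous_toFun.comp Φ.continuous_toFun)
      ((phi lam f).continuous_toFun.comp fillMap.continuous_toFun) (fun i => ?_) g
    show fillMap (Φ (gen i)) = phi lam f (fillMap (gen i))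
    fin_cases i
    · show fillMap (Φ (gen 0)) = phi lam f (fillMap (gen 0))
      rw [hΦ0, map_pow', fillMap_0, phi_X]
    · show fillMap (Φ (gen 1)) = phi lam f (fillMap (gen 1))
      rw [hΦ1, map_mul, map_mul, map_inv, hfk, map_pow', fillMap_1, phi_Y]
      have hc : Commute (pow Y e) (pow Y lam) := commute_pow (comm_pow_self Y e).symm lam
      calc (pow Y e * f)⁻¹ * pow Y lam * (pow Y e * f)
          = f⁻¹ * ((pow Y e)⁻¹ * (pow Y lam * pow Y e)) * f := by group
        _ = f⁻¹ * ((pow Y e)⁻¹ * (pow Y e * pow Y lam)) * f := by rw [hc.eq]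
        _ = f⁻¹ * pow Y lam * f := by group
    · show fillMap (Φ (gen 2)) = phi lam f (fillMap (gen 2))
      rw [hΦ2]
      simp only [map_mul, map_inv, map_pow']
      rw [fillMap_2, one_pow', map_one]
      group
  apply le_antisymm
  · rintro _ ⟨_, ⟨g, hg, rfl⟩, rfl⟩
    refine ⟨Φ g, ?_, ?_⟩
    · exact ⟨fillMap g, hg, (hfill g).symm⟩
    · exact hsq g
  · rintro _ ⟨g, hg, rfl⟩
    obtain ⟨x, hx, hxg⟩ := hg
    have hxg' : phi lam f x = fillMap g := hxg
    obtain ⟨w, hw⟩ := h.bij.2 (sqMap g)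
    obtain ⟨g', hg'⟩ := h3.2 lam f h w ⟨g, hw.symm⟩
    have e1 : Φ g' = g := h1 (by rw [hsq, hg', hw])
    have e2 : fillMap g' = x := h.bij.1 (by rw [← hfill, e1, hxg'])
    refine ⟨sqMap g', ⟨g', ?_, rfl⟩, ?_⟩
    · show fillMap g' ∈ H
      rw [e2]
      exact hx
    · show phi lam f (sqMap g') = sqMap g
      rw [hg', hw]

end MPb66790
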