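import Pool.Agent.Lib.MP_b66790_nt.ModF

/-!
# The key identity
-/

namespace MPb66790

open Function

section pr

variable (Φ : (lftF permHom).ker →* FHat 2)

theorem Phi_ev (hΦ : Continuous Φ) {n : ℕ} (v : Fin n → Hat Braid4)
    (hv : ∀ i, v i ∈ (lftF permHom).ker) (x : FHat n) (hx : ev v x ∈ (lftF permHom).ker) :
    Φ ⟨ev v x, hx⟩ = ev (fun i => Φ ⟨v i, hv i⟩) x := by
  let α : FHat n →* (lftF permHom).ker :=
    (ev v).toMonoidHom.codRestrict _ (fun x => perm_ev_one hv x)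
  have hα : Continuous α := (ev v).continuous_toFun.subtype_mk _
  refine ev_hom_ext (φ := Φ.comp α) (ψ := (ev (fun i => Φ ⟨v i, hv i⟩)).toMonoidHom)
    (hΦ.comp hα) (ev (fun i => Φ ⟨v i, hv i⟩)).continuous_toFun (fun i => ?_) x
  show Φ (α (gen i)) = ev (fun i => Φ ⟨v i, hv i⟩) (gen i)
  rw [ev_gen]
  congr 1
  exact Subtype.ext (ev_gen v i)

end pr

/-- The kernel of `perm` has a continuous homomorphism to the free group, forgetting a strand. -/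
theorem exists_Phi (hG : StG) (hW : StW) : ∃ Φ : (lftF permHom).ker →* FHat 2, Continuous Φ ∧
    (∀ h, Φ ⟨s 0 ^ 2, h⟩ = 1) ∧ (∀ h, Φ ⟨s 2 ^ 2, h⟩ = X) ∧ (∀ h, Φ ⟨s 1 ^ 2, h⟩ = Y) ∧
    (∀ h, Φ ⟨(s 0 * s 2) * s 1 ^ 2 * (s 0 * s 2)⁻¹, h⟩ = 1) := by
  obtain ⟨φ, h0, h2, h1, h3⟩ := hW (FHat 2) X Y
  obtain ⟨Φ, hc, hΦ⟩ := hG Braid4 (Equiv.Perm (Fin 4)) permHom (FHat 2) φ
  have hs : ∀ g : Braid4, ∀ hg : of g ∈ (lftF permHom).ker, g ∈ permHom.ker := by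
    intro g hg
    rw [MonoidHom.mem_ker] at hg ⊢
    rwa [lftF_of] at hg
  have e : ∀ i, of (σ i ^ 2) = s i ^ 2 := fun i => by rw [map_pow, of_σ]
  have e3 : of ((σ 0 * σ 2) * σ 1 ^ 2 * (σ 0 * σ 2)⁻¹) =
      (s 0 * s 2) * s 1 ^ 2 * (s 0 * s 2)⁻¹ := by
    simp only [map_mul, map_inv, map_pow, of_σ]
  refine ⟨Φ, hc, fun h => ?_, fun h => ?_, fun h => ?_, fun h => ?_⟩
  · have h' := h
    rw [← e] at h'
    have := hΦ (σ 0 ^ 2) (hs _ h') h'
    rw [h0] at this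
    simpa only [e] using this
  · have h' := h
    rw [← e] at h'
    have := hΦ (σ 2 ^ 2) (hs _ h') h'
    rw [h2] at this
    simpa only [e] using this
  · have h' := h
    rw [← e] at h'
    have := hΦ (σ 1 ^ 2) (hs _ h') h'
    rw [h1] at this
    simpa only [e] using this
  · have h' := h
    rw [← e3] at h'
    have := hΦ _ (hs _ h') h'
    rw [h3] at this
    simpa only [e3] using this

/-- A convenient form of the map forgetting a strand. -/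
theorem exists_Psi (hG : StG) (hW : StW) : ∃ Ψ : ∀ g : Hat Braid4, perm g = 1 → FHat 2,
    (∀ g g' h h' h'', Ψ (g * g') h'' = Ψ g h * Ψ g' h') ∧
    (∀ g h h', Ψ g⁻¹ h' = (Ψ g h)⁻¹) ∧
    (∀ (n : ℕ) (v : Fin n → Hat Braid4) (hv : ∀ i, perm (v i) = 1) (x : FHat n) (h),
      Ψ (ev v x) h = ev (fun i => Ψ (v i) (hv i)) x) ∧
    (∀ h, Ψ (s 0 ^ 2) h = 1) ∧ (∀ h, Ψ (s 2 ^ 2) h = X) ∧ (∀ h, Ψ (s 1 ^ 2) h = Y) ∧
    (∀ h, Ψ ((s 0 * s 2) * s 1 ^ 2 * (s 0 * s 2)⁻¹) h = 1) := by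
  obtain ⟨Φ, hc, h0, h2, h1, h3⟩ := exists_Phi hG hW
  refine ⟨fun g hg => Φ ⟨g, hg⟩, ?_, ?_, ?_, h0, h2, h1, h3⟩
  · intro g g' h h' h''
    rw [← map_mul]
    rfl
  · intro g h h'
    rw [← map_inv]
    rfl
  · intro n v hv x h
    exact Phi_ev Φ hc v hv x h

theorem main_identity (hB : StB) (hC : StC) (hD1 : StD1) (hD2 : StD2) (hD3 : StD3)
    (hG : StG) (hW : StW) {lam : ZHat} {f : FHat 2} (h : IsGT lam f) (k : FHat 3)
    (hk : sqMap k = f) :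
    ∃ e : ZHat, fillMap k = pow Y e * f := by
  obtain ⟨Ψ, hmul, hinv, hev, h0, h2, h1, h3⟩ := exists_Psi hG hW
  have hM := comm_M hB hD1 hD2 hD3 h
  have hcongr : ∀ g g' (e : g = g') h h', Ψ g h = Ψ g' h' := by
    intro g g' e h h'
    subst e
    rfl
  have pm2 : ∀ i, perm (s i ^ 2) = 1 := perm_sq
  have pb : perm (s 0 * s 2) * perm (s 0 * s 2) = 1 := by
    rw [map_mul, perm_zero, perm_two]
    decide
  have pb2 : perm ((s 0 * s 2) ^ 2) = 1 := by rw [map_pow, pow_two, pb]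
  have pconj : perm ((s 0 * s 2) * s 1 ^ 2 * (s 0 * s 2)⁻¹) = 1 := by
    rw [map_mul, map_mul, pm2, mul_one, map_inv, mul_inv_cancel]
  -- the element S
  have eS : fS f = ev ![(s 0 * s 2) ^ 2, s 1 ^ 2, (s 0 * s 2) * s 1 ^ 2 * (s 0 * s 2)⁻¹] k := by
    unfold fS
    rw [← hk]
    unfold sqMap
    rw [map_ev]
    congr 2
    funext i
    fin_cases i
    · show ev ![s 0 * s 2, s 1 ^ 2] (X ^ 2) = (s 0 * s 2) ^ 2
      rw [map_pow]
      congr 1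
      exact ev_gen _ _
    · show ev ![s 0 * s 2, s 1 ^ 2] Y = s 1 ^ 2
      exact ev_gen _ _
    · show ev ![s 0 * s 2, s 1 ^ 2] (X * Y * X⁻¹) = (s 0 * s 2) * s 1 ^ 2 * (s 0 * s 2)⁻¹
      rw [map_mul, map_mul, map_inv]
      have e1 : ev ![s 0 * s 2, s 1 ^ 2] X = s 0 * s 2 := ev_gen _ _
      have e2 : ev ![s 0 * s 2, s 1 ^ 2] Y = s 1 ^ 2 := ev_gen _ _
      rw [e1, e2]
  have p3 : ∀ i, perm ((![(s 0 * s 2) ^ 2, s 1 ^ 2, (s 0 * s 2) * s 1 ^ 2 * (s 0 * s 2)⁻¹] :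
      Fin 3 → Hat Braid4) i) = 1 := by
    intro i
    fin_cases i
    · exact pb2
    · exact pm2 1
    · exact pconj
  have pS : perm (fS f) = 1 := by
    rw [eS]
    exact perm_ev_one p3 k
  -- values of Ψ
  have Φb : Ψ ((s 0 * s 2) ^ 2) pb2 = X := by
    have e : (s 0 * s 2) ^ 2 = s 0 ^ 2 * s 2 ^ 2 := comm_zero_two.mul_pow 2
    have pp : perm (s 0 ^ 2 * s 2 ^ 2) = 1 := by rw [← e]; exact pb2
    rw [hcongr _ _ e pb2 pp, hmul _ _ (pm2 0) (pm2 2), h0, h2, one_mul]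
  have ΦS : Ψ (fS f) pS = fillMap k := by
    rw [hcongr _ _ eS pS (perm_ev_one p3 k), hev 3 _ p3]
    unfold fillMap
    congr 2
    funext i
    fin_cases i
    · exact Φb
    · exact h1 _
    · exact h3 _
  have ΦQ : Ψ (fQ f) (perm_fQ f) = f⁻¹ := by
    have pp : ∀ i, perm ((![s 1 ^ 2, s 2 ^ 2] : Fin 2 → Hat Braid4) i) = 1 := by
      intro i
      fin_cases i
      · exact pm2 1
      · exact pm2 2
    have e1 : Ψ (fQ f) (perm_fQ f) = ev (fun i => Ψ _ (pp i)) f := hev 2 _ pp f _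
    have e2 : (fun i => Ψ _ (pp i)) = ![Y, X] := by
      funext i
      fin_cases i
      · exact h1 _
      · exact h2 _
    rw [e1, e2, ev_two h.two]
    congr 1
    have e3 : (![X, Y] : Fin 2 → FHat 2) = fun i => gen i := by
      funext i
      fin_cases i <;> rfl
    rw [e3, ev_gen_self]
  have ΦP : Ψ (fP f) (perm_fP f) = 1 := by
    have pp : ∀ i, perm ((![s 0 ^ 2, dB] : Fin 2 → Hat Braid4) i) = 1 := by
      intro i
      fin_cases i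
      · exact pm2 0
      · exact perm_dB
    have e1 : Ψ (fP f) (perm_fP f) = ev (fun i => Ψ _ (pp i)) f := hev 2 _ pp f _
    have e2 : (fun i => Ψ _ (pp i)) = ![1, Ψ dB perm_dB] := by
      funext i
      fin_cases i
      · exact h0 _
      · rfl
    rw [e1, e2]
    exact ev_comm h.comm (Commute.one_left _)
  have hcomm : ∀ g g' (hg : perm g = 1) (hg' : perm g' = 1), Commute g g' →
      Commute (Ψ g hg) (Ψ g' hg') := by
    intro g g' hg hg' hc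
    have p1 : perm (g * g') = 1 := by rw [map_mul, hg, hg', mul_one]
    have p2 : perm (g' * g) = 1 := by rw [map_mul, hg, hg', mul_one]
    show Ψ g hg * Ψ g' hg' = Ψ g' hg' * Ψ g hg
    rw [← hmul g g' hg hg' p1, ← hmul g' g hg' hg p2]
    exact hcongr _ _ hc.eq _ _
  have pS' : perm (fS f)⁻¹ = 1 := by rw [map_inv, pS, inv_one]
  have pQ' : perm (fQ f)⁻¹ = 1 := by rw [map_inv, perm_fQ, inv_one]
  have p12 : perm ((fQ f)⁻¹ * fP f) = 1 := by rw [map_mul, pQ', perm_fP, mul_one]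
  have pM : perm ((fQ f)⁻¹ * fP f * (fS f)⁻¹) = 1 := by rw [map_mul, p12, pS', mul_one]
  have ΦM : Ψ ((fQ f)⁻¹ * fP f * (fS f)⁻¹) pM = f * (fillMap k)⁻¹ := by
    rw [hmul _ _ p12 pS', hmul _ _ pQ' (perm_fP f), hinv _ pS, hinv _ (perm_fQ f), ΦS, ΦQ, ΦP,
      inv_inv, mul_one]
  have hcM : Commute (f * (fillMap k)⁻¹) Y := by
    have := hcomm _ _ pM (pm2 1) (hM.pow_right 2)
    rwa [h1, ΦM] at this
  obtain ⟨α, hα⟩ := hC _ 1 hcM
  have hα' : f * (fillMap k)⁻¹ = pow Y α := hα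
  refine ⟨α⁻¹, ?_⟩
  have e1 : pow Y α⁻¹ = (pow Y α)⁻¹ := map_inv (ev (fun _ => Y)) α
  rw [e1, ← hα']
  group

theorem stMain (hB : StB) (hC : StC) (hD1 : StD1) (hD2 : StD2) (hD3 : StD3)
    (hG : StG) (hW : StW) (hH3 : StH3) : StMain := by
  intro lam f h
  obtain ⟨k, hk⟩ := hH3.1 f h.comm
  obtain ⟨e, he⟩ := main_identity hB hC hD1 hD2 hD3 hG hW h k hk
  exact ⟨k, e, hk, he⟩

end MPb66790
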