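import Pool.Agent.Lib.MP_b66790_nt.Braid

/-!
# Statements of the modules
-/

namespace MPb66790

open Function

/-- The automorphism of the free profinite group on `p = gen 0`, `r = gen 1` inverting `p, r`. -/
noncomputable def theta : FHat 2 →ₜ* FHat 2 := ev ![(gen 0)⁻¹, (gen 1)⁻¹]

/-- MODULE A0 (finite combinatorics). Lifting a double covering to a cyclic fourfold covering. -/
def StA0 : Prop := ∀ (G : Type) [Group G] [Finite G] (c : Fin 3 → G) (t : G),
  (∀ i, c i * c i = 1) → t * t = 1 → t ≠ 1 → (∀ i g, g * c i * g⁻¹ ≠ t) →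
  ∃ (V : Type) (_ : Finite V) (C : Fin 3 → Equiv.Perm V) (τ : Equiv.Perm V) (π : V → G),
    Surjective π ∧ (∀ i, C i * C i = 1) ∧ (∀ i, Commute (C i) τ) ∧
    (∀ i v, π (C i v) = c i * π v) ∧ (∀ v, π (τ v) = π v * t) ∧
    (∀ v, τ (τ v) ≠ v) ∧ τ ^ 4 = 1 ∧ (∀ v v', π v = π v' → v' = v ∨ v' = τ (τ v))

/-- MODULE A (from A0). Involutions in the profinite completion of `Z/2 * Z/2 * Z/2`. -/
def StA : Prop := ∀ w : FHat 2, theta w * w = 1 →
  ∃ v : FHat 2, w = (theta v)⁻¹ * v ∨ w = (theta v)⁻¹ * gen 0 * v ∨ w = (theta v)⁻¹ * gen 1 * v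

/-- MODULE B. `theta` has no nontrivial fixed points. -/
def StB : Prop := ∀ w : FHat 2, theta w = w → w = 1

/-- MODULE C. The centraliser of a generator. -/
def StC : Prop := ∀ (w : FHat 2) (i : Fin 2), Commute w (gen i) → ∃ e : ZHat, w = pow (gen i) e

/-- `p = σ₁ σ₃⁻¹`. -/
noncomputable def pB : Hat Braid4 := s 0 * (s 2)⁻¹

/-- `r = σ₂ p σ₂⁻¹`. -/
noncomputable def rB : Hat Braid4 := s 1 * pB * (s 1)⁻¹

/-- The map from the free profinite group on two generators onto the kernel of `rho`. -/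
noncomputable def jMap : FHat 2 →ₜ* Hat Braid4 := ev ![pB, rB]

/-- Garside's element `Δ` of the braid group on four strands. -/
noncomputable def Dl : Hat Braid4 := s 0 * s 1 * s 0 * s 2 * s 1 * s 0

theorem isBraid_rho : IsBraid ![s 0, s 1, s 0] :=
  ⟨isBraid_s.1, isBraid_s.1.symm, rfl⟩

/-- The endomorphism `σ₁ ↦ σ₁, σ₂ ↦ σ₂, σ₃ ↦ σ₁`. -/
noncomputable def rho : Hat Braid4 →ₜ* Hat Braid4 := evB isBraid_rho

theorem isBraid_perm : IsBraid (fun i : Fin 3 => Equiv.swap i.castSucc i.succ) := by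
  unfold IsBraid
  decide

/-- The permutation of the strands. -/
def permHom : Braid4 →* Equiv.Perm (Fin 4) := brd isBraid_perm

/-- MODULE D1. -/
def StD1 : Prop := Injective jMap

/-- MODULE D2. -/
def StD2 : Prop := ∀ g : Hat Braid4, rho g = 1 → ∃ w : FHat 2, jMap w = g

/-- MODULE D3. -/
def StD3 : Prop := ∀ w : FHat 2, Dl * jMap w * Dl⁻¹ = jMap (theta w)

/-- MODULE G. Homomorphisms from a subgroup of finite index (the kernel of a homomorphism to a
finite group) extend to the corresponding open subgroup of the completion. -/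
def StG : Prop := ∀ (Γ S : Type) [Group Γ] [Group S] [Finite S] (π : Γ →* S)
  (G : Type) [Group G] [TopologicalSpace G] [IsTopologicalGroup G] [CompactSpace G]
  [TotallyDisconnectedSpace G] (φ : π.ker →* G),
  ∃ Φ : (lftF π).ker →* G, Continuous Φ ∧
    ∀ (g : Γ) (hg : g ∈ π.ker) (hg' : of g ∈ (lftF π).ker), Φ ⟨of g, hg'⟩ = φ ⟨g, hg⟩

/-- MODULE W. Forgetting the first strand of a pure braid on four strands, modulo the centre of the
braid group on three strands, as a homomorphism to any group `G` with two elements `x, y`. -/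
def StW : Prop := ∀ (G : Type) [Group G] (x y : G), ∃ φ : permHom.ker →* G,
  (∀ h, φ ⟨σ 0 ^ 2, h⟩ = 1) ∧ (∀ h, φ ⟨σ 2 ^ 2, h⟩ = x) ∧ (∀ h, φ ⟨σ 1 ^ 2, h⟩ = y) ∧
  (∀ h, φ ⟨(σ 0 * σ 2) * σ 1 ^ 2 * (σ 0 * σ 2)⁻¹, h⟩ = 1)

/-- MODULE H1. -/
def StH1 : Prop := Injective sqMap

/-- MODULE H2. -/
def StH2 : Prop := ∀ w : FHat 2, (∃ k, sqMap k = w) ∨ (∃ k, X * sqMap k = w)

/-- MODULE H3 (from H2). -/
def StH3 : Prop :=
  (∀ f : FHat 2, f ∈ (commutator (FHat 2)).topologicalClosure → ∃ k, sqMap k = f) ∧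
  (∀ (lam : ZHat) (f : FHat 2), IsGT lam f →
    ∀ w : FHat 2, (∃ k, sqMap k = phi lam f w) → (∃ k, sqMap k = w))

/-- MODULE K (from H1, H2, H3). -/
def StK : Prop := ∀ (lam : ZHat) (f : FHat 2), IsGT lam f →
  (∃ (k : FHat 3) (e : ZHat), sqMap k = f ∧ fillMap k = pow Y e * f) →
  ∀ H : Subgroup (FHat 2), act lam f (sq H) = sq (act lam f H)

/-- MODULE L (compatibility with `S₃`). -/
def StL : Prop := ∀ (lam : ZHat) (f : FHat 2), IsGT lam f → ∀ H : Subgroup (FHat 2),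
  (∃ g : FHat 2, act lam f (swp H) = (swp (act lam f H)).map (MulAut.conj g).toMonoidHom) ∧
  (∃ g : FHat 2, act lam f (rot H) = (rot (act lam f H)).map (MulAut.conj g).toMonoidHom)

/-- MODULE O: openness. -/
def StO : Prop := ∀ H : Subgroup (FHat 2), IsOpen (H : Set (FHat 2)) →
  IsOpen (sq H : Set (FHat 2)) ∧ IsOpen (swp H : Set (FHat 2)) ∧ IsOpen (rot H : Set (FHat 2))

/-- MAIN: the key identity. -/
def StMain : Prop := ∀ (lam : ZHat) (f : FHat 2), IsGT lam f →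
  ∃ (k : FHat 3) (e : ZHat), sqMap k = f ∧ fillMap k = pow Y e * f

end MPb66790
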